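import Pool.Agent.Lib.Marsh96.Core

open MeasureTheory Set Filter Topology
open scoped Real

namespace Marsh96

/-- chord against arc -/
lemma chord {x : ℝ} (h0 : 0 ≤ x) (h1 : x ≤ π) : 2 / π * x ≤ ‖1 - e x‖ := by
  have h2 : ‖1 - e x‖ = 2 * Real.sin (x / 2) := by
    have h3 : ‖1 - e x‖ ^ 2 = (2 * Real.sin (x / 2)) ^ 2 := by
      rw [← Complex.normSq_eq_norm_sq, Complex.normSq_apply]
      have hr : (1 - e x).re = 1 - Real.cos x := by
        simp [e, Complex.exp_ofReal_mul_I_re]
      have hi : (1 - e x).im = - Real.sin x := by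
        simp [e, Complex.exp_ofReal_mul_I_im]
      rw [hr, hi]
      have h4 : Real.cos x = 1 - 2 * Real.sin (x/2) ^ 2 := by
        have := Real.cos_two_mul (x/2)
        rw [show 2 * (x/2) = x by ring] at this
        rw [this]
        have := Real.sin_sq_add_cos_sq (x/2)
        linarith
      have h5 := Real.sin_sq_add_cos_sq x
      nlinarith
    have h6 : 0 ≤ Real.sin (x / 2) :=
      Real.sin_nonneg_of_nonneg_of_le_pi (by linarith) (by linarith [Real.pi_pos])
    exact (sq_eq_sq₀ (norm_nonneg _) (by positivity)).1 h3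
  rw [h2]
  have h7 := Real.mul_le_sin (x := x/2) (by linarith) (by linarith)
  linarith

lemma k_arc {s : ℝ} (hs0 : 0 ≤ s) (hs1 : s < 1) {x : ℝ} (h0 : 0 ≤ x) (h1 : x ≤ π) :
    x / π ≤ ‖1 - s * e x‖ := by
  have h2 := half_le (norm_e x) hs0 hs1.le
  have h3 := chord h0 h1
  have h4 : 2 / π * x = 2 * (x / π) := by ring
  linarith

lemma e_neg_norm (s x : ℝ) : ‖1 - s * e (-x)‖ = ‖1 - s * e x‖ := by
  have h : (1 - s * e (-x)) = (starRingEnd ℂ) (1 - s * e x) := by
    simp [e, ← Complex.exp_conj]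
  rw [h, Complex.norm_conj]

lemma e_periodic : Function.Periodic e (2 * π) := by
  intro x
  simp only [e]
  push_cast
  rw [add_mul, Complex.exp_add, Complex.exp_two_pi_mul_I, mul_one]

lemma e_add (x y : ℝ) : e (x + y) = e x * e y := by
  simp only [e]; push_cast; rw [add_mul, Complex.exp_add]

/-- S4 -/
lemma circ {s : ℝ} (hs0 : 0 ≤ s) (hs1 : s < 1) {q : ℝ} (hq0 : 0 < q) (hq1 : q < 1) (θ : ℝ) :
    ∫ t in (0:ℝ)..(2 * π), Real.exp (-q * Real.log ‖1 - (s * e (-t)) * e θ‖) ≤
      2 * π / (1 - q) := by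
  set G : ℝ → ℝ := fun x => Real.exp (-q * Real.log ‖1 - s * e x‖) with hG
  have hsn : ‖(s:ℂ)‖ < 1 := by rw [Complex.norm_real, Real.norm_eq_abs, abs_of_nonneg hs0]; exact hs1
  have hGc : Continuous G := by
    have := logk_cont hsn
    simp only [hG]
    fun_prop
  have hGp : Function.Periodic G (2 * π) := by
    intro x; simp only [hG]; rw [e_periodic x]
  have hGe : ∀ x, G (-x) = G x := by
    intro x; simp only [hG]; rw [e_neg_norm]
  have h1 : ∀ t, Real.exp (-q * Real.log ‖1 - (s * e (-t)) * e θ‖) = G (θ - t) := by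
    intro t
    simp only [hG]
    rw [mul_assoc, ← e_add, show -t + θ = θ - t by ring]
  simp_rw [h1]
  have h2 : ∫ t in (0:ℝ)..(2 * π), G (θ - t) = ∫ x in (θ - 2 * π)..θ, G x := by
    rw [intervalIntegral.integral_comp_sub_left (fun x => G x) θ]; simp
  have h3 : ∫ x in (θ - 2 * π)..θ, G x = ∫ x in (-π)..π, G x := by
    have := hGp.intervalIntegral_add_eq (θ - 2 * π) (-π)
    rw [show θ - 2 * π + 2 * π = θ by ring, show -π + 2 * π = π by ring] at this
    exact this
  have h4 : ∫ x in (-π)..π, G x = 2 * ∫ x in (0:ℝ)..π, G x := by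
    rw [← intervalIntegral.integral_add_adjacent_intervals (hGc.intervalIntegrable (-π) 0)
      (hGc.intervalIntegrable 0 π)]
    have h5 : ∫ x in (-π)..0, G x = ∫ x in (0:ℝ)..π, G x := by
      have h6 := intervalIntegral.integral_comp_neg (a := (0:ℝ)) (b := π) (fun x => G x)
      simp only [hGe, neg_zero] at h6
      exact h6.symm
    rw [h5]; ring
  have h7 : ∫ x in (0:ℝ)..π, G x ≤ ∫ x in (0:ℝ)..π, π ^ q * x ^ (-q) := by
    apply intervalIntegral.integral_mono_on_of_le_Ioo Real.pi_pos.le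
      (hGc.intervalIntegrable 0 π)
    · exact (intervalIntegral.intervalIntegrable_rpow' (by linarith)).const_mul _
    · intro x hx
      have hx0 : 0 < x := hx.1
      have h8 := k_arc hs0 hs1 hx0.le hx.2.le
      have h9 : Real.log (x / π) ≤ Real.log ‖1 - s * e x‖ :=
        Real.log_le_log (by have := Real.pi_pos; positivity) h8
      have h10 : π ^ q * x ^ (-q) = Real.exp (-q * Real.log (x / π)) := by
        rw [Real.rpow_def_of_pos Real.pi_pos, Real.rpow_def_of_pos hx0, ← Real.exp_add,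
          Real.log_div hx0.ne' Real.pi_pos.ne']
        congr 1; ring
      rw [h10]
      apply Real.exp_le_exp.2
      nlinarith
  have h11 : ∫ x in (0:ℝ)..π, π ^ q * x ^ (-q) = π / (1 - q) := by
    rw [intervalIntegral.integral_const_mul, integral_rpow (Or.inl (by linarith)),
      Real.zero_rpow (by linarith), sub_zero, ← mul_div_assoc, ← Real.rpow_add Real.pi_pos,
      show q + (-q + 1) = 1 by ring, Real.rpow_one, show -q + 1 = 1 - q by ring]
  rw [h2, h3, h4]
  calc 2 * ∫ x in (0:ℝ)..π, G x ≤ 2 * (π / (1 - q)) := by linarith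
    _ = _ := by ring

end Marsh96
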