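import Mathlib

open MeasureTheory Set Filter Topology
open scoped Real

namespace Marsh96

/-- The point of the unit circle with angle `θ`. -/
noncomputable def e (θ : ℝ) : ℂ := Complex.exp (θ * Complex.I)

lemma norm_e (θ : ℝ) : ‖e θ‖ = 1 := Complex.norm_exp_ofReal_mul_I θ

lemma cont_e : Continuous e := by unfold e; fun_prop

lemma half_le {v : ℂ} (hv : ‖v‖ = 1) {s : ℝ} (h0 : 0 ≤ s) (_h1 : s ≤ 1) :
    ‖1 - v‖ / 2 ≤ ‖1 - s * v‖ := by
  have h2 : ‖1 - v‖ ≤ ‖1 - s * v‖ + ‖s * v - v‖ := by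
    have h : 1 - v = (1 - s * v) + (s * v - v) := by ring
    calc ‖1 - v‖ = ‖(1 - s * v) + (s * v - v)‖ := by rw [← h]
      _ ≤ _ := norm_add_le _ _
  have h3 : ‖s * v - v‖ = 1 - s := by
    have : s * v - v = ((s - 1 : ℝ) : ℂ) * v := by push_cast; ring
    rw [this, norm_mul, hv, mul_one, Complex.norm_real, Real.norm_eq_abs,
      abs_of_nonpos (by linarith)]; ring
  have h4 : 1 - s ≤ ‖1 - s * v‖ := by
    have := norm_sub_norm_le (1:ℂ) (s * v)
    rw [norm_one, norm_mul, hv, mul_one, Complex.norm_real, Real.norm_eq_abs,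
      abs_of_nonneg h0] at this
    exact this
  linarith

lemma integ {E : Type*} [NormedAddCommGroup E] {μ : Measure ℝ} [IsFiniteMeasure μ]
    [SecondCountableTopologyEither ℝ E]
    {f : ℝ → E} (hf : Continuous f) (C : ℝ) (h : ∀ x, ‖f x‖ ≤ C) : Integrable f μ :=
  Integrable.of_bound hf.aestronglyMeasurable C (ae_of_all _ h)

lemma re_unit {v : ℂ} (hv : ‖v‖ = 1) : v.re = 1 - ‖1 - v‖ ^ 2 / 2 := by
  have h1 : ‖1 - v‖ ^ 2 = (1 - v.re) ^ 2 + v.im ^ 2 := by
    rw [← Complex.normSq_eq_norm_sq, Complex.normSq_apply]; simp; ring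
  have h2 : v.re ^ 2 + v.im ^ 2 = 1 := by
    have : ‖v‖ ^ 2 = v.re ^ 2 + v.im ^ 2 := by
      rw [← Complex.normSq_eq_norm_sq, Complex.normSq_apply]; ring
    rw [← this, hv]; norm_num
  rw [h1]; nlinarith

lemma mass {μ : Measure ℝ} [IsProbabilityMeasure μ] (h0 : ∫ θ, e θ ∂μ = 0) {u : ℂ}
    (hu : ‖u‖ = 1) {ρ : ℝ} (hρ0 : 0 < ρ) (hρ1 : ρ < 1) :
    μ.real {θ | ‖1 - u * e θ‖ ≤ ρ} * (2 - ρ^2/2) ≤ 1 := by
  set A : Set ℝ := {θ | ‖1 - u * e θ‖ ≤ ρ} with hA
  have hAm : MeasurableSet A :=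
    (isClosed_le (by have := cont_e; fun_prop) continuous_const).measurableSet
  have hi : Integrable (fun θ => u * e θ) μ :=
    integ (by have := cont_e; fun_prop) 1 (fun θ => by rw [norm_mul, hu, norm_e]; norm_num)
  have hre : ∫ θ, (u * e θ).re ∂μ = 0 := by
    have h1 : ∫ θ, (u * e θ).re ∂μ = (∫ θ, u * e θ ∂μ).re :=
      Complex.reCLM.integral_comp_comm hi
    rw [h1, integral_const_mul, h0]; simp
  have hind : Integrable (A.indicator (fun _ => (2 - ρ^2/2 : ℝ))) μ :=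
    (integrable_const _).indicator hAm
  have hle : ∫ θ, (-1 + A.indicator (fun _ => (2 - ρ^2/2 : ℝ)) θ) ∂μ ≤ ∫ θ, (u * e θ).re ∂μ := by
    apply integral_mono ((integrable_const _).add hind)
      (Complex.reCLM.integrable_comp hi)
    intro θ
    have hv : ‖u * e θ‖ = 1 := by rw [norm_mul, hu, norm_e]; norm_num
    have hr := re_unit hv
    have hn := norm_nonneg (1 - u * e θ)
    change -1 + A.indicator (fun _ => (2 - ρ^2/2 : ℝ)) θ ≤ (u * e θ).re
    by_cases hθ : θ ∈ A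
    · have h2 : ‖1 - u * e θ‖ ≤ ρ := hθ
      rw [indicator_of_mem hθ]
      rw [hr]; nlinarith
    · rw [indicator_of_notMem hθ]
      have := Complex.abs_re_le_norm (u * e θ)
      rw [hv] at this
      have := (abs_le.1 this).1
      linarith
  rw [hre, integral_add (integrable_const _) hind, integral_indicator hAm] at hle
  simp at hle
  linarith

section tail

variable {μ : Measure ℝ} [IsProbabilityMeasure μ]

lemma k_low {w : ℂ} (θ : ℝ) : 1 - ‖w‖ ≤ ‖1 - w * e θ‖ := by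
  have := norm_sub_norm_le (1:ℂ) (w * e θ)
  rwa [norm_one, norm_mul, norm_e, mul_one] at this

lemma k_up {w : ℂ} (hw : ‖w‖ < 1) (θ : ℝ) : ‖1 - w * e θ‖ ≤ 2 := by
  have := norm_sub_le (1:ℂ) (w * e θ)
  rw [norm_one, norm_mul, norm_e, mul_one] at this
  linarith

lemma k_pos {w : ℂ} (hw : ‖w‖ < 1) (θ : ℝ) : 0 < ‖1 - w * e θ‖ := by
  have := @k_low w θ
  linarith

lemma logk_cont {w : ℂ} (hw : ‖w‖ < 1) : Continuous fun θ => Real.log ‖1 - w * e θ‖ := by
  apply Continuous.log (by have := cont_e; fun_prop)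
  intro θ; exact (k_pos hw θ).ne'

lemma logk_low {w : ℂ} (hw : ‖w‖ < 1) (θ : ℝ) : Real.log (1 - ‖w‖) ≤ Real.log ‖1 - w * e θ‖ :=
  Real.log_le_log (by linarith) (k_low θ)

lemma logk_up {w : ℂ} (hw : ‖w‖ < 1) (θ : ℝ) : Real.log ‖1 - w * e θ‖ ≤ Real.log 2 :=
  Real.log_le_log (k_pos hw θ) (k_up hw θ)

lemma logk_bound {w : ℂ} (hw : ‖w‖ < 1) (θ : ℝ) :
    ‖Real.log ‖1 - w * e θ‖‖ ≤ |Real.log (1 - ‖w‖)| + Real.log 2 := by
  rw [Real.norm_eq_abs, abs_le]
  have h1 := logk_low hw θ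
  have h2 := logk_up hw θ
  have h3 := neg_abs_le (Real.log (1 - ‖w‖))
  have h4 := abs_nonneg (Real.log (1 - ‖w‖))
  have h5 : 0 < Real.log 2 := Real.log_pos (by norm_num)
  constructor <;> linarith

lemma logk_int {w : ℂ} (hw : ‖w‖ < 1) : Integrable (fun θ => Real.log ‖1 - w * e θ‖) μ :=
  integ (logk_cont hw) _ (logk_bound hw)

/-- far points contribute a bounded amount -/
lemma far {u : ℂ} (hu : ‖u‖ = 1) {s : ℝ} (hs0 : 0 ≤ s) (hs1 : s < 1) {ρ : ℝ} (hρ0 : 0 < ρ)
    {θ : ℝ} (hθ : ρ < ‖1 - u * e θ‖) : - Real.log (2 / ρ) ≤ Real.log ‖1 - (s * u) * e θ‖ := by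
  have hv : ‖u * e θ‖ = 1 := by rw [norm_mul, hu, norm_e]; norm_num
  have h1 := half_le hv hs0 hs1.le
  rw [← Real.log_inv, inv_div]
  apply Real.log_le_log (by positivity)
  rw [mul_assoc]
  linarith

lemma s3 {u : ℂ} (hu : ‖u‖ = 1) {s : ℝ} (hs0 : 0 ≤ s) (hs1 : s < 1) {ρ : ℝ} (hρ0 : 0 < ρ)
    (hρ1 : ρ < 1) {M : ℝ} (hM : 0 < M) (hmass : μ.real {θ | ‖1 - u * e θ‖ ≤ ρ} ≤ M)
    {l : ℝ} (hl0 : 0 < l) (hl1 : l < 1) :
    Real.exp (- (l * (2 * ∫ θ, Real.log ‖1 - (s * u) * e θ‖ ∂μ))) ≤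
      Real.exp (2 * Real.log (2 / ρ)) *
        (3 + (1 / M) * ∫ θ, Real.exp (-(2 * l * M) * Real.log ‖1 - (s * u) * e θ‖) ∂μ) := by
  set A : Set ℝ := {θ | ‖1 - u * e θ‖ ≤ ρ} with hA
  have hAm : MeasurableSet A :=
    (isClosed_le (by have := cont_e; fun_prop) continuous_const).measurableSet
  have hw : ‖(s * u : ℂ)‖ < 1 := by
    rw [norm_mul, hu, mul_one, Complex.norm_real, Real.norm_eq_abs, abs_of_nonneg hs0]; exact hs1
  set f : ℝ → ℝ := fun θ => -(2 * l) * Real.log ‖1 - (s * u) * e θ‖ with hf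
  have hfi : Integrable f μ := (logk_int hw).const_mul _
  have hlog : 0 < Real.log (2 / ρ) := Real.log_pos (by rw [lt_div_iff₀ hρ0]; linarith)
  have hsplit : - (l * (2 * ∫ θ, Real.log ‖1 - (s * u) * e θ‖ ∂μ)) =
      (∫ θ in A, f θ ∂μ) + ∫ θ in Aᶜ, f θ ∂μ := by
    rw [integral_add_compl hAm hfi]
    simp only [hf]
    rw [integral_const_mul]; ring
  have hfar : ∫ θ in Aᶜ, f θ ∂μ ≤ 2 * Real.log (2 / ρ) := by
    calc ∫ θ in Aᶜ, f θ ∂μ ≤ ∫ θ in Aᶜ, 2 * Real.log (2 / ρ) ∂μ := by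
          apply setIntegral_mono_on hfi.integrableOn (integrable_const _).integrableOn hAm.compl
          intro θ hθ
          have h1 : ρ < ‖1 - u * e θ‖ := not_le.1 hθ
          have h2 := far hu hs0 hs1 hρ0 h1
          simp only [hf]
          nlinarith
      _ = μ.real Aᶜ * (2 * Real.log (2 / ρ)) := by simp
      _ ≤ 1 * (2 * Real.log (2 / ρ)) := by
          gcongr
          exact measureReal_le_one
      _ = _ := one_mul _
  have hexpc : Continuous fun θ => Real.exp (M * f θ) := by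
    have := logk_cont hw
    simp only [hf]
    fun_prop
  have hexpi : Integrable (fun θ => Real.exp (M * f θ)) μ := by
    refine integ hexpc (Real.exp (M * (2 * (|Real.log (1 - ‖(s * u : ℂ)‖)| + Real.log 2)))) ?_
    intro θ
    rw [Real.norm_eq_abs, abs_of_pos (Real.exp_pos _)]
    apply Real.exp_le_exp.2
    apply mul_le_mul_of_nonneg_left _ hM.le
    have h1 := logk_bound hw θ
    rw [Real.norm_eq_abs] at h1
    have h2 := neg_abs_le (Real.log ‖1 - (s * u) * e θ‖)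
    have h3 := abs_nonneg (Real.log ‖1 - (s * u) * e θ‖)
    simp only [hf]
    nlinarith
  have hnear : Real.exp (∫ θ in A, f θ ∂μ) ≤ 3 + (1 / M) * ∫ θ, Real.exp (M * f θ) ∂μ := by
    set c := ∫ θ in A, f θ ∂μ with hc
    have hI0 : 0 ≤ ∫ θ, Real.exp (M * f θ) ∂μ := integral_nonneg fun θ => (Real.exp_pos _).le
    rcases le_or_gt c 1 with hc1 | hc1
    · have h1 : Real.exp c ≤ 3 := by
        calc Real.exp c ≤ Real.exp 1 := Real.exp_le_exp.2 hc1
          _ ≤ 3 := by have := Real.exp_one_lt_d9; linarith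
      have h2 : 0 ≤ (1 / M) * ∫ θ, Real.exp (M * f θ) ∂μ := by positivity
      linarith
    · have h1 : ∫ θ in A, Real.exp c * (1 - c + M * f θ) ∂μ ≤ ∫ θ in A, Real.exp (M * f θ) ∂μ := by
        apply setIntegral_mono_on _ hexpi.integrableOn hAm
        · intro θ _
          have h2 := Real.add_one_le_exp (M * f θ - c)
          have h3 : Real.exp (M * f θ) = Real.exp c * Real.exp (M * f θ - c) := by
            rw [← Real.exp_add]; ring_nf
          rw [h3]
          apply mul_le_mul_of_nonneg_left _ (Real.exp_pos _).le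
          linarith
        · exact (((integrable_const _).add (hfi.const_mul _)).const_mul _).integrableOn
      have h4 : ∫ θ in A, Real.exp c * (1 - c + M * f θ) ∂μ =
          Real.exp c * (μ.real A * (1 - c) + M * c) := by
        rw [integral_const_mul, integral_add (integrable_const _).integrableOn
          (hfi.const_mul _).integrableOn, integral_const_mul]
        simp [hc]
      have h5 : ∫ θ in A, Real.exp (M * f θ) ∂μ ≤ ∫ θ, Real.exp (M * f θ) ∂μ :=
        setIntegral_le_integral hexpi (ae_of_all _ fun θ => (Real.exp_pos _).le)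
      have h6 : Real.exp c * M ≤ Real.exp c * (μ.real A * (1 - c) + M * c) := by
        apply mul_le_mul_of_nonneg_left _ (Real.exp_pos _).le
        nlinarith
      have h7 : Real.exp c * M ≤ ∫ θ, Real.exp (M * f θ) ∂μ := by linarith
      have h8 : Real.exp c ≤ (1 / M) * ∫ θ, Real.exp (M * f θ) ∂μ := by
        rw [one_div, ← div_eq_inv_mul, le_div_iff₀ hM]; exact h7
      linarith
  have hrew : ∀ θ, Real.exp (-(2 * l * M) * Real.log ‖1 - (s * u) * e θ‖) = Real.exp (M * f θ) := by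
    intro θ; simp only [hf]; congr 1; ring
  simp_rw [hrew]
  rw [hsplit, Real.exp_add, mul_comm]
  apply mul_le_mul (Real.exp_le_exp.2 hfar) hnear (Real.exp_pos _).le (Real.exp_pos _).le

end tail

end Marsh96
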