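import Pool.Agent.Lib.Marsh96.Circ

open MeasureTheory Set Filter Topology
open scoped Real

namespace Marsh96

/-- The logarithmic potential of a measure on angles. -/
noncomputable def K (μ : Measure ℝ) (w : ℂ) : ℂ := 2 * ∫ θ, Complex.log (1 - w * e θ) ∂μ

section bounds

variable {μ : Measure ℝ} [IsProbabilityMeasure μ]

lemma re_pos {w : ℂ} (hw : ‖w‖ < 1) (θ : ℝ) : 0 < (1 - w * e θ).re := by
  have h1 := Complex.abs_re_le_norm (w * e θ)
  rw [norm_mul, norm_e, mul_one] at h1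
  have h2 := (abs_le.1 h1).2
  rw [Complex.sub_re, Complex.one_re]; linarith

lemma clog_cont {w : ℂ} (hw : ‖w‖ < 1) : Continuous fun θ => Complex.log (1 - w * e θ) := by
  apply Continuous.clog (by have := cont_e; fun_prop)
  intro θ
  exact Or.inl (re_pos hw θ)

lemma arg_le {w : ℂ} (hw : ‖w‖ < 1) (θ : ℝ) : |(Complex.log (1 - w * e θ)).im| ≤ π / 2 := by
  rw [Complex.log_im]
  exact Complex.abs_arg_le_pi_div_two_iff.2 (re_pos hw θ).le

lemma clog_int {w : ℂ} (hw : ‖w‖ < 1) : Integrable (fun θ => Complex.log (1 - w * e θ)) μ := by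
  refine integ (clog_cont hw) (|Real.log (1 - ‖w‖)| + Real.log 2 + π / 2) ?_
  intro θ
  have h1 := Complex.norm_le_abs_re_add_abs_im (Complex.log (1 - w * e θ))
  have h2 := logk_bound hw θ
  rw [Real.norm_eq_abs] at h2
  rw [Complex.log_re] at h1
  have h3 := arg_le hw θ
  linarith

lemma K_re {w : ℂ} (hw : ‖w‖ < 1) : (K μ w).re = 2 * ∫ θ, Real.log ‖1 - w * e θ‖ ∂μ := by
  have h1 : (∫ θ, Complex.log (1 - w * e θ) ∂μ).re = ∫ θ, (Complex.log (1 - w * e θ)).re ∂μ :=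
    (Complex.reCLM.integral_comp_comm (clog_int hw)).symm
  have h2 : (K μ w).re = 2 * (∫ θ, Complex.log (1 - w * e θ) ∂μ).re := by
    simp [K, Complex.mul_re]
  rw [h2, h1]
  simp only [Complex.log_re]

lemma K_im {w : ℂ} (hw : ‖w‖ < 1) : |(K μ w).im| ≤ π := by
  have h1 : (∫ θ, Complex.log (1 - w * e θ) ∂μ).im = ∫ θ, (Complex.log (1 - w * e θ)).im ∂μ :=
    (Complex.imCLM.integral_comp_comm (clog_int hw)).symm
  have h2 : (K μ w).im = 2 * (∫ θ, Complex.log (1 - w * e θ) ∂μ).im := by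
    simp [K, Complex.mul_im]
  have h3 : ‖∫ θ, (Complex.log (1 - w * e θ)).im ∂μ‖ ≤ (π / 2) * μ.real univ :=
    norm_integral_le_of_norm_le_const (ae_of_all _ fun θ => by
      rw [Real.norm_eq_abs]; exact arg_le hw θ)
  rw [h2, h1, abs_mul, abs_two]
  rw [Real.norm_eq_abs] at h3
  simp at h3
  linarith

lemma K_re_up {w : ℂ} (hw : ‖w‖ < 1) : (K μ w).re ≤ 2 * Real.log 2 := by
  rw [K_re hw]
  have h1 : ∫ θ, Real.log ‖1 - w * e θ‖ ∂μ ≤ ∫ _θ, Real.log 2 ∂μ :=
    integral_mono (logk_int hw) (integrable_const _) (logk_up hw)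
  simp at h1
  linarith

lemma K_re_low {u : ℂ} (hu : ‖u‖ = 1) {s : ℝ} (hs0 : 0 ≤ s) (hs1 : s < 1) {ρ : ℝ} (hρ0 : 0 < ρ)
    (hρ1 : ρ < 1) {M : ℝ} (hmass : μ.real {θ | ‖1 - u * e θ‖ ≤ ρ} ≤ M) :
    -(2 * M * (-Real.log (1 - s)) + 2 * Real.log (2 / ρ)) ≤ (K μ (s * u)).re := by
  set A : Set ℝ := {θ | ‖1 - u * e θ‖ ≤ ρ} with hA
  have hAm : MeasurableSet A :=
    (isClosed_le (by have := cont_e; fun_prop) continuous_const).measurableSet
  have hn : ‖(s * u : ℂ)‖ = s := by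
    rw [norm_mul, hu, mul_one, Complex.norm_real, Real.norm_eq_abs, abs_of_nonneg hs0]
  have hw : ‖(s * u : ℂ)‖ < 1 := by rw [hn]; exact hs1
  have hlog : 0 < Real.log (2 / ρ) := Real.log_pos (by rw [lt_div_iff₀ hρ0]; linarith)
  have hD : Real.log (1 - s) ≤ 0 := Real.log_nonpos (by linarith) (by linarith)
  rw [K_re hw]
  have hind : Integrable (A.indicator (fun _ => Real.log (1 - s))) μ :=
    (integrable_const _).indicator hAm
  have h1 : ∫ θ, (-Real.log (2 / ρ) + A.indicator (fun _ => Real.log (1 - s)) θ) ∂μ ≤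
      ∫ θ, Real.log ‖1 - (s * u) * e θ‖ ∂μ := by
    apply integral_mono ((integrable_const _).add hind) (logk_int hw)
    intro θ
    change -Real.log (2 / ρ) + A.indicator (fun _ => Real.log (1 - s)) θ ≤
      Real.log ‖1 - (s * u) * e θ‖
    by_cases hθ : θ ∈ A
    · rw [indicator_of_mem hθ]
      have := logk_low hw θ
      rw [hn] at this
      linarith
    · rw [indicator_of_notMem hθ]
      have h2 : ρ < ‖1 - u * e θ‖ := not_le.1 hθ
      have := far hu hs0 hs1 hρ0 h2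
      linarith
  rw [integral_add (integrable_const _) hind, integral_indicator hAm] at h1
  simp at h1
  nlinarith

/-- pointwise bound -/
lemma pw {w : ℂ} (hw : ‖w‖ < 1) {a l L B : ℝ} (ha0 : 0 < a) (ha1 : a < 1) (_hl0 : 0 < l)
    (hl1 : l < 1) (hL : 1 ≤ L) (hB2 : 2 * Real.log 2 ≤ B) (hB : -B ≤ (K μ w).re)
    (hab : a * B ≤ l * L) :
    Real.exp (a * ‖K μ w‖ ^ 2 / L) ≤ Real.exp (π ^ 2) * (Real.exp (-(l * (K μ w).re)) + 4) := by
  have hup := K_re_up (μ := μ) hw
  have him := K_im (μ := μ) hw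
  set x := (K μ w).re with hx
  set y := (K μ w).im with hy
  have hn : ‖K μ w‖ ^ 2 = x ^ 2 + y ^ 2 := by
    rw [← Complex.normSq_eq_norm_sq, Complex.normSq_apply, hx, hy]; ring
  have hxB : |x| ≤ B := abs_le.2 ⟨hB, by linarith⟩
  have hy2 : y ^ 2 ≤ π ^ 2 := by
    rw [← sq_abs y]
    exact pow_le_pow_left₀ (abs_nonneg _) him 2
  have hL0 : 0 < L := by linarith
  have h1 : a * ‖K μ w‖ ^ 2 / L ≤ l * |x| + π ^ 2 := by
    rw [hn, div_le_iff₀ hL0]
    have h2 : a * x ^ 2 ≤ l * |x| * L := by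
      have h3 : x ^ 2 = |x| * |x| := by rw [← sq_abs]; ring
      have h4 : |x| * |x| ≤ |x| * B := mul_le_mul_of_nonneg_left hxB (abs_nonneg _)
      calc a * x ^ 2 = a * (|x| * |x|) := by rw [h3]
        _ ≤ a * (|x| * B) := mul_le_mul_of_nonneg_left h4 ha0.le
        _ = |x| * (a * B) := by ring
        _ ≤ |x| * (l * L) := mul_le_mul_of_nonneg_left hab (abs_nonneg _)
        _ = _ := by ring
    have h5 : a * y ^ 2 ≤ π ^ 2 * L := by
      have h6 : a * y ^ 2 ≤ 1 * y ^ 2 := mul_le_mul_of_nonneg_right ha1.le (sq_nonneg _)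
      have h7 : π ^ 2 * 1 ≤ π ^ 2 * L := mul_le_mul_of_nonneg_left hL (sq_nonneg _)
      linarith
    nlinarith
  have h8 : Real.exp (l * |x|) ≤ Real.exp (-(l * x)) + 4 := by
    rcases le_total 0 x with h | h
    · rw [abs_of_nonneg h]
      have h9 : Real.exp (l * x) ≤ 4 := by
        have h10 : l * x ≤ 2 * Real.log 2 := by nlinarith
        calc Real.exp (l * x) ≤ Real.exp (2 * Real.log 2) := Real.exp_le_exp.2 h10
          _ = 4 := by
            rw [two_mul, Real.exp_add, Real.exp_log (by norm_num)]; norm_num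
      have := Real.exp_pos (-(l * x))
      linarith
    · rw [abs_of_nonpos h, mul_neg]
      linarith
  calc Real.exp (a * ‖K μ w‖ ^ 2 / L) ≤ Real.exp (l * |x| + π ^ 2) := Real.exp_le_exp.2 h1
    _ = Real.exp (π ^ 2) * Real.exp (l * |x|) := by rw [Real.exp_add]; ring
    _ ≤ _ := mul_le_mul_of_nonneg_left h8 (Real.exp_pos _).le

/-- integrated bound -/
lemma intbound (h0 : ∫ θ, e θ ∂μ = 0) {s : ℝ} (hs0 : 0 < s) (hs1 : s < 1) {ρ : ℝ} (hρ0 : 0 < ρ)
    (hρ1 : ρ < 1) {M : ℝ} (hM : M = 1 / (2 - ρ ^ 2 / 2)) {a l L : ℝ}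
    (ha0 : 0 < a) (ha1 : a < 1) (hl0 : 0 < l) (hl1 : l < 1) (hq : 2 * l * M < 1) (hL : 1 ≤ L)
    (hab : a * (2 * M * (-Real.log (1 - s)) + 2 * Real.log (2 / ρ)) ≤ l * L) :
    (2 * π)⁻¹ * ∫ t in (0:ℝ)..(2 * π), Real.exp (a * ‖K μ (s * e (-t))‖ ^ 2 / L) ≤
      Real.exp (π ^ 2) * (Real.exp (2 * Real.log (2 / ρ)) *
        (3 + (1 / M) * (1 / (1 - 2 * l * M))) + 4) := by
  have hM0 : 0 < M := by
    rw [hM]; apply one_div_pos.2; nlinarith
  have hmass : ∀ t : ℝ, μ.real {θ | ‖1 - e (-t) * e θ‖ ≤ ρ} ≤ M := by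
    intro t
    have h1 := mass (μ := μ) h0 (norm_e (-t)) hρ0 hρ1
    rw [hM, le_div_iff₀ (by nlinarith)]
    exact h1
  have hn : ∀ t : ℝ, ‖(s * e (-t) : ℂ)‖ = s := by
    intro t
    rw [norm_mul, norm_e, mul_one, Complex.norm_real, Real.norm_eq_abs, abs_of_pos hs0]
  have hw : ∀ t : ℝ, ‖(s * e (-t) : ℂ)‖ < 1 := fun t => by rw [hn t]; exact hs1
  set q := 2 * l * M with hqdef
  have hq0 : 0 < q := by positivity
  set F : ℝ → ℝ → ℝ := fun t θ => Real.exp (-q * Real.log ‖1 - (s * e (-t)) * e θ‖) with hF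
  set g : ℝ → ℝ := fun t => Real.exp (π ^ 2) * (Real.exp (2 * Real.log (2 / ρ)) *
        (3 + (1 / M) * ∫ θ, F t θ ∂μ) + 4) with hg
  set ν : Measure ℝ := volume.restrict (Ioc 0 (2 * π)) with hν
  have hFc : Continuous (Function.uncurry F) := by
    have h1 : Continuous fun p : ℝ × ℝ => ‖1 - (s * e (-p.1)) * e p.2‖ := by
      have := cont_e
      fun_prop
    have h2 : Continuous fun p : ℝ × ℝ => Real.log ‖1 - (s * e (-p.1)) * e p.2‖ :=
      Continuous.log h1 (fun p => (k_pos (hw p.1) p.2).ne')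
    simp only [hF, Function.uncurry_def]
    fun_prop
  have hFb : ∀ p : ℝ × ℝ, ‖Function.uncurry F p‖ ≤ Real.exp (q * (|Real.log (1 - s)| + Real.log 2)) := by
    intro p
    simp only [hF, Function.uncurry_def]
    rw [Real.norm_eq_abs, abs_of_pos (Real.exp_pos _)]
    apply Real.exp_le_exp.2
    have h1 := logk_bound (hw p.1) p.2
    rw [hn, Real.norm_eq_abs] at h1
    have h2 := neg_abs_le (Real.log ‖1 - (s * e (-p.1)) * e p.2‖)
    nlinarith
  have hFi : Integrable (Function.uncurry F) (ν.prod μ) :=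
    Integrable.of_bound hFc.aestronglyMeasurable _ (ae_of_all _ hFb)
  have hF1 : Integrable (fun t => ∫ θ, F t θ ∂μ) ν := hFi.integral_prod_left
  have hgi : Integrable g ν := by
    simp only [hg]
    exact (((((integrable_const _).add (hF1.const_mul _))).const_mul _).add
      (integrable_const _)).const_mul _
  have hswap : ∫ t, (∫ θ, F t θ ∂μ) ∂ν ≤ 2 * π / (1 - q) := by
    rw [integral_integral_swap hFi]
    have h1 : ∀ θ, ∫ t, F t θ ∂ν ≤ 2 * π / (1 - q) := by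
      intro θ
      have := circ hs0.le hs1 hq0 hq θ
      rw [intervalIntegral.integral_of_le (by positivity)] at this
      exact this
    calc ∫ θ, (∫ t, F t θ ∂ν) ∂μ ≤ ∫ _θ, 2 * π / (1 - q) ∂μ :=
          integral_mono hFi.integral_prod_right (integrable_const _) h1
      _ = _ := by simp
  have hpt : ∀ t, Real.exp (a * ‖K μ (s * e (-t))‖ ^ 2 / L) ≤ g t := by
    intro t
    have hlow := K_re_low (μ := μ) (norm_e (-t)) hs0.le hs1 hρ0 hρ1 (hmass t)
    have hB2 : 2 * Real.log 2 ≤ 2 * M * (-Real.log (1 - s)) + 2 * Real.log (2 / ρ) := by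
      have h1 : Real.log 2 ≤ Real.log (2 / ρ) :=
        Real.log_le_log (by norm_num) (by rw [le_div_iff₀ hρ0]; linarith)
      have h2 : Real.log (1 - s) ≤ 0 := Real.log_nonpos (by linarith) (by linarith)
      have h3 : 0 ≤ M * (-Real.log (1 - s)) := by
        apply mul_nonneg hM0.le; linarith
      linarith
    refine (pw (μ := μ) (hw t) ha0 ha1 hl0 hl1 hL hB2 hlow hab).trans ?_
    simp only [hg]
    have h4 := s3 (μ := μ) (norm_e (-t)) hs0.le hs1 hρ0 hρ1 hM0 (hmass t) hl0 hl1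
    rw [K_re (hw t)]
    apply mul_le_mul_of_nonneg_left _ (Real.exp_pos _).le
    simp only [hF]
    linarith
  have hmain : ∫ t in (0:ℝ)..(2 * π), Real.exp (a * ‖K μ (s * e (-t))‖ ^ 2 / L) ≤ ∫ t, g t ∂ν := by
    rw [intervalIntegral.integral_of_le (by positivity)]
    exact integral_mono_of_nonneg (ae_of_all _ fun t => (Real.exp_pos _).le) hgi (ae_of_all _ hpt)
  have hνu : ν.real univ = 2 * π := by
    simp [hν, Measure.real, Real.volume_Ioc, ENNReal.toReal_ofReal, Real.pi_pos.le]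
  have hgint : ∫ t, g t ∂ν = Real.exp (π ^ 2) * (Real.exp (2 * Real.log (2 / ρ)) *
        (3 * (2 * π) + (1 / M) * ∫ t, (∫ θ, F t θ ∂μ) ∂ν) + 4 * (2 * π)) := by
    have e2 : Integrable (fun t => (1 / M) * ∫ θ, F t θ ∂μ) ν := hF1.const_mul _
    have e3 : Integrable (fun t => 3 + (1 / M) * ∫ θ, F t θ ∂μ) ν := (integrable_const _).add e2
    have e4 : Integrable (fun t => Real.exp (2 * Real.log (2 / ρ)) *
        (3 + (1 / M) * ∫ θ, F t θ ∂μ)) ν := e3.const_mul _
    simp only [hg]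
    rw [integral_const_mul, integral_add e4 (integrable_const _), integral_const_mul,
      integral_add (integrable_const _) e2, integral_const_mul]
    simp only [integral_const, hνu, smul_eq_mul]
    ring
  rw [hgint] at hmain
  have hpi : 0 < 2 * π := by positivity
  rw [inv_mul_le_iff₀ hpi]
  refine hmain.trans ?_
  have hM1 : (1 / M) * ∫ t, (∫ θ, F t θ ∂μ) ∂ν ≤ (1 / M) * (2 * π / (1 - q)) :=
    mul_le_mul_of_nonneg_left hswap (by positivity)
  have hE := Real.exp_pos (2 * Real.log (2 / ρ))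
  have hfin : Real.exp (2 * Real.log (2 / ρ)) *
        (3 * (2 * π) + (1 / M) * ∫ t, (∫ θ, F t θ ∂μ) ∂ν) + 4 * (2 * π) ≤
      2 * π * (Real.exp (2 * Real.log (2 / ρ)) * (3 + (1 / M) * (1 / (1 - q))) + 4) := by
    have h5 : Real.exp (2 * Real.log (2 / ρ)) *
        (3 * (2 * π) + (1 / M) * ∫ t, (∫ θ, F t θ ∂μ) ∂ν) ≤ Real.exp (2 * Real.log (2 / ρ)) *
        (3 * (2 * π) + (1 / M) * (2 * π / (1 - q))) :=
      mul_le_mul_of_nonneg_left (by linarith) hE.le
    have h6 : Real.exp (2 * Real.log (2 / ρ)) *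
        (3 * (2 * π) + (1 / M) * (2 * π / (1 - q))) + 4 * (2 * π) =
        2 * π * (Real.exp (2 * Real.log (2 / ρ)) * (3 + (1 / M) * (1 / (1 - q))) + 4) := by ring
    linarith
  calc _ ≤ Real.exp (π ^ 2) * (2 * π * (Real.exp (2 * Real.log (2 / ρ)) *
        (3 + (1 / M) * (1 / (1 - q))) + 4)) := mul_le_mul_of_nonneg_left hfin (Real.exp_pos _).le
    _ = _ := by ring

end bounds

/-- The uniform bound for all centred probability measures on the circle of angles. -/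
theorem core (a : ℝ) (ha0 : 0 < a) (ha1 : a < 1) : ∃ C R₀ : ℝ, 1 < R₀ ∧
    ∀ (μ : Measure ℝ) [IsProbabilityMeasure μ], ∫ θ, e θ ∂μ = 0 →
      ∀ R : ℝ, 1 < R → R < R₀ →
      (2 * π)⁻¹ * ∫ t in (0:ℝ)..(2 * π),
        Real.exp (a * ‖K μ (R⁻¹ * e (-t))‖ ^ 2 / Real.log (R ^ 2 / (R ^ 2 - 1))) ≤ C := by
  set l := (1 + a) / 2 with hl
  have hl0 : 0 < l := by rw [hl]; linarith
  have hl1 : l < 1 := by rw [hl]; linarith
  have hla : a < l := by rw [hl]; linarith
  -- T > 1 with l * T < 1 and a * T < l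
  set T := min ((1 + 1 / l) / 2) ((1 + l / a) / 2) with hT
  have h1l : 1 < 1 / l := by rw [lt_div_iff₀ hl0]; linarith
  have hla' : 1 < l / a := by rw [lt_div_iff₀ ha0]; linarith
  have hT1 : 1 < T := by
    rw [hT]; apply lt_min <;> linarith
  have hTl : l * T < 1 := by
    have h1 : T ≤ (1 + 1 / l) / 2 := min_le_left _ _
    have h2 : T < 1 / l := by linarith
    rw [lt_div_iff₀ hl0] at h2; linarith
  have hTa : T < l / a := by
    have h1 : T ≤ (1 + l / a) / 2 := min_le_right _ _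
    linarith
  -- choice of ρ
  set ρ := min (1 / 2) (2 * (1 - 1 / T)) with hρ
  have h1T : 1 / T < 1 := by rw [div_lt_one (by linarith)]; exact hT1
  have hρ0 : 0 < ρ := by
    rw [hρ]; apply lt_min (by norm_num); linarith
  have hρh : ρ ≤ 1 / 2 := min_le_left _ _
  have hρ1 : ρ < 1 := by linarith
  have hρT : ρ ≤ 2 * (1 - 1 / T) := min_le_right _ _
  set M := 1 / (2 - ρ ^ 2 / 2) with hM
  have hden : 0 < 2 - ρ ^ 2 / 2 := by nlinarith
  have hM0 : 0 < M := by rw [hM]; exact one_div_pos.2 hden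
  have hMT : 2 * M ≤ T := by
    have h2 : 1 / T ≤ 1 - ρ ^ 2 / 4 := by nlinarith
    have hT0 : 0 < T := by linarith
    rw [hM, mul_one_div, div_le_iff₀ hden]
    rw [div_le_iff₀ hT0] at h2
    linarith
  have hq : 2 * l * M < 1 := by nlinarith
  have hlogρ : 0 < Real.log (2 / ρ) := Real.log_pos (by rw [lt_div_iff₀ hρ0]; linarith)
  have hlog2 : 0 < Real.log 2 := Real.log_pos (by norm_num)
  -- threshold for D
  set D₀ := max (1 + Real.log 2) ((a * (2 * Real.log (2 / ρ)) + l * Real.log 2) / (l - a * T)) with hD₀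
  have hlaT : 0 < l - a * T := by
    rw [lt_div_iff₀ ha0] at hTa; linarith
  refine ⟨Real.exp (π ^ 2) * (Real.exp (2 * Real.log (2 / ρ)) *
        (3 + (1 / M) * (1 / (1 - 2 * l * M))) + 4), 1 + Real.exp (-D₀), by
          have := Real.exp_pos (-D₀); linarith, ?_⟩
  intro μ _ h0 R hR1 hR0
  have hR : 0 < R := by linarith
  have hs0 : 0 < R⁻¹ := inv_pos.2 hR
  have hs1 : R⁻¹ < 1 := inv_lt_one_of_one_lt₀ hR1
  set D := -Real.log (1 - R⁻¹) with hD
  have hRm : 0 < R - 1 := by linarith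
  have hD1 : D₀ ≤ D := by
    have h1 : Real.log (1 - R⁻¹) ≤ -D₀ := by
      rw [Real.log_le_iff_le_exp (by linarith)]
      have h2 : 1 - R⁻¹ = (R - 1) / R := by field_simp
      have h3 : (R - 1) / R ≤ R - 1 := by
        rw [div_le_iff₀ hR]; nlinarith
      rw [h2]; linarith
    rw [hD]; linarith
  have hL : D - Real.log 2 ≤ Real.log (R ^ 2 / (R ^ 2 - 1)) := by
    have hR2 : 0 < R ^ 2 - 1 := by nlinarith
    have h2 : 1 - R⁻¹ = (R - 1) / R := by field_simp
    rw [hD, h2, ← Real.log_inv, inv_div, ← Real.log_div (by positivity) (by norm_num)]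
    apply Real.log_le_log (by positivity)
    rw [div_div, div_le_div_iff₀ (by positivity) hR2]
    have h9 : 0 ≤ R * (R - 1) ^ 2 := by positivity
    nlinarith
  have hDa : 1 + Real.log 2 ≤ D := (le_max_left _ _).trans hD1
  have hDb : (a * (2 * Real.log (2 / ρ)) + l * Real.log 2) / (l - a * T) ≤ D :=
    (le_max_right _ _).trans hD1
  rw [div_le_iff₀ hlaT] at hDb
  have hD0 : 0 < D := by linarith
  have key := intbound (μ := μ) h0 hs0 hs1 hρ0 hρ1 hM (L := Real.log (R ^ 2 / (R ^ 2 - 1)))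
    ha0 ha1 hl0 hl1 hq (by linarith) (by
      have h1 : a * (2 * M * D) ≤ a * (T * D) :=
        mul_le_mul_of_nonneg_left (mul_le_mul_of_nonneg_right hMT hD0.le) ha0.le
      have h2 : l * (D - Real.log 2) ≤ l * Real.log (R ^ 2 / (R ^ 2 - 1)) :=
        mul_le_mul_of_nonneg_left hL hl0.le
      have h3 : a * (2 * M * -Real.log (1 - R⁻¹) + 2 * Real.log (2 / ρ)) =
        a * (2 * M * D) + a * (2 * Real.log (2 / ρ)) := by rw [hD]; ring
      rw [h3]
      nlinarith)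
  exact key

end Marsh96
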