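import Mathlib

open Filter Topology
open scoped Real

namespace Marsh96

/-- `psi` is a holomorphic function on the (finite part of the) exterior disc `|z| > 1` and
`h` is the branch of `log psi'` that is holomorphic on `|z| > 1` with `h (infinity) = 0`.
Every map of the class Sigma satisfies this with `h = h_psi`. -/
structure LogBranch (ψ h : ℂ → ℂ) : Prop where
  holo : DifferentiableOn ℂ ψ {z | 1 < ‖z‖}
  branch_holo : DifferentiableOn ℂ h {z | 1 < ‖z‖}
  branch : ∀ z : ℂ, 1 < ‖z‖ → Complex.exp (h z) = deriv ψ z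
  branch_infty : Tendsto h (Bornology.cobounded ℂ) (𝓝 0)

/-- The analytic form of the convexity of the set omitted by `psi`:
`Re (1 + z psi''(z) / psi'(z)) ≥ 0` for all `|z| > 1`. -/
def ConvexOmitted (ψ : ℂ → ℂ) : Prop :=
  ∀ z : ℂ, 1 < ‖z‖ → 0 ≤ (1 + z * deriv (deriv ψ) z / deriv ψ z).re

/-- The boundary rotation of `psi` is at most `k pi`:
`∫_0^{2 pi} |Re (1 + z psi''(z) / psi'(z))| dt ≤ k pi`, `z = R e^{it}`, for all `R > 1`. -/
def RotationLE (ψ : ℂ → ℂ) (k : ℝ) : Prop :=
  ∀ R : ℝ, 1 < R → ∫ t in (0:ℝ)..(2 * π),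
    |(1 + (R * Complex.exp (t * Complex.I)) *
      deriv (deriv ψ) (R * Complex.exp (t * Complex.I)) /
      deriv ψ (R * Complex.exp (t * Complex.I))).re| ≤ k * π

/-- The integral of Marshall's conjecture for the branch `h`, the parameter `a` and the radius
`R`, with the normalised arc length `dt / (2 pi)` on the circle. -/
noncomputable def marshallIntegral (a R : ℝ) (h : ℂ → ℂ) : ℝ :=
  (2 * π)⁻¹ * ∫ t in (0:ℝ)..(2 * π),
    Real.exp (a * (‖h (R * Complex.exp (t * Complex.I))‖ ^ 2 / Real.log (R ^ 2 / (R ^ 2 - 1))))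

end Marsh96
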