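import Mathlib

open scoped Real

namespace Marsh96

/-- `h` is the branch of `log psi'`, so that `Im h = arg psi'`.  On every circle `|z| = R`,
`R > 1`, the argument oscillates by at most `beta pi` between two points whose directions have
distance at most `delta`. -/
def LocalOsc (h : ℂ → ℂ) (β δ : ℝ) : Prop :=
  ∀ R : ℝ, 1 < R → ∀ u u' : ℂ, ‖u‖ = 1 → ‖u'‖ = 1 → ‖u - u'‖ ≤ δ →
    |(h (R * u)).im - (h (R * u')).im| ≤ β * π

end Marsh96
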