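import Pool.Agent.Lib.Marsh96.Meas
import Pool.Agent.Lib.Marsh96.Defs

open MeasureTheory Set Filter Topology Metric
open scoped Real ComplexConjugate

namespace Marsh96

/-- The bound for functions on the disc. -/
theorem disc_bound (a : ℝ) (ha0 : 0 < a) (ha1 : a < 1) : ∃ C R₀ : ℝ, 1 < R₀ ∧
    ∀ H : ℂ → ℂ, DifferentiableOn ℂ H (ball 0 1) → H 0 = 0 → deriv H 0 = 0 →
      (∀ w : ℂ, ‖w‖ < 1 → 0 ≤ (1 - w * deriv H w).re) →
      ∀ R : ℝ, 1 < R → R < R₀ →
      (2 * π)⁻¹ * ∫ t in (0:ℝ)..(2 * π),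
        Real.exp (a * ‖H (R⁻¹ * e (-t))‖ ^ 2 / Real.log (R ^ 2 / (R ^ 2 - 1))) ≤ C := by
  obtain ⟨C, R₀, hR₀, hC⟩ := core a ha0 ha1
  refine ⟨C, R₀, hR₀, ?_⟩
  intro H hH H0 H1 hpos R hR1 hR2
  have hR : 0 < R := by linarith
  have hi0 : 0 < R⁻¹ := inv_pos.2 hR
  have hi1 : R⁻¹ < 1 := inv_lt_one_of_one_lt₀ hR1
  set L := Real.log (R ^ 2 / (R ^ 2 - 1)) with hL
  set c : ℝ → ℝ := fun s => max 0 (min s 1) with hc
  have hc0 : ∀ s, 0 ≤ c s := fun s => le_max_left _ _
  have hc1 : ∀ s, c s ≤ 1 := fun s => max_le (by norm_num) (min_le_right _ _)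
  have hcc : Continuous c := by simp only [hc]; fun_prop
  set F : ℝ → ℝ → ℝ := fun s t => Real.exp (a * ‖H (c s * (R⁻¹ * e (-t)))‖ ^ 2 / L) with hF
  have hin : ∀ s t : ℝ, ‖((c s : ℂ) * (R⁻¹ * e (-t)))‖ < 1 := by
    intro s t
    rw [norm_mul, norm_mul, norm_e, mul_one, Complex.norm_real, Real.norm_eq_abs,
      abs_of_nonneg (hc0 s), Complex.norm_real, Real.norm_eq_abs, abs_of_pos hi0]
    have h1 := hc0 s
    have h2 := hc1 s
    nlinarith
  have hFc : Continuous (Function.uncurry F) := by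
    have h1 : Continuous fun p : ℝ × ℝ => ((c p.1 : ℂ) * (R⁻¹ * e (-p.2))) := by
      have := cont_e
      fun_prop
    have h2 : Continuous fun p : ℝ × ℝ => H ((c p.1 : ℂ) * (R⁻¹ * e (-p.2))) :=
      hH.continuousOn.comp_continuous h1 (fun p => by simpa using hin p.1 p.2)
    have h3 : Continuous fun p : ℝ × ℝ =>
        a * ‖H ((c p.1 : ℂ) * (R⁻¹ * e (-p.2)))‖ ^ 2 / L :=
      (continuous_const.mul (h2.norm.pow 2)).div_const L
    exact Real.continuous_exp.comp h3
  have hI : Continuous fun s => ∫ t in (0:ℝ)..(2 * π), F s t :=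
    intervalIntegral.continuous_parametric_intervalIntegral_of_continuous' hFc 0 (2 * π)
  have hbound : ∀ s ∈ Ioo (0:ℝ) 1, (2 * π)⁻¹ * ∫ t in (0:ℝ)..(2 * π), F s t ≤ C := by
    intro s hs
    obtain ⟨μ, hμ, hμ0, hK⟩ := exists_measure hH H0 H1 hpos hs.1 hs.2
    have h1 := hC μ hμ0 R hR1 hR2
    have hcs : c s = s := by
      simp only [hc]
      rw [min_eq_left hs.2.le, max_eq_right hs.1.le]
    have h2 : ∀ t, F s t = Real.exp (a * ‖K μ (R⁻¹ * e (-t))‖ ^ 2 / L) := by
      intro t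
      simp only [hF]
      rw [hcs, hK]
      rw [norm_mul, norm_e, mul_one, Complex.norm_real, Real.norm_eq_abs, abs_of_pos hi0]
      exact hi1
    simp_rw [h2]
    exact h1
  have hlim : Tendsto (fun s => (2 * π)⁻¹ * ∫ t in (0:ℝ)..(2 * π), F s t) (𝓝[<] (1:ℝ))
      (𝓝 ((2 * π)⁻¹ * ∫ t in (0:ℝ)..(2 * π), F 1 t)) :=
    ((continuous_const.mul hI).tendsto 1).mono_left nhdsWithin_le_nhds
  have hfin := le_of_tendsto hlim (by
    filter_upwards [Ioo_mem_nhdsLT (show (0:ℝ) < 1 by norm_num)] with s hs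
    exact hbound s hs)
  have hc11 : c 1 = 1 := by simp [hc]
  simp only [hF, hc11] at hfin
  simpa using hfin

/-- reflection of a periodic integrand -/
lemma refl_int {f : ℝ → ℂ} (hf : Function.Periodic f (2 * π)) :
    ∫ t in (0:ℝ)..(2 * π), f (-t) = ∫ t in (0:ℝ)..(2 * π), f t := by
  rw [intervalIntegral.integral_comp_neg]
  have := hf.intervalIntegral_add_eq (-(2 * π)) 0
  simpa using this

section transfer

variable {ψ h : ℂ → ℂ}

/-- The function on the disc. -/
noncomputable def inner (h : ℂ → ℂ) (w : ℂ) : ℂ := if w = 0 then 0 else h w⁻¹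

lemma inner_zero : inner h 0 = 0 := by simp [inner]

lemma inner_ne {w : ℂ} (hw : w ≠ 0) : inner h w = h w⁻¹ := by simp [inner, hw]

lemma isOpen_ext : IsOpen {z : ℂ | 1 < ‖z‖} := isOpen_lt continuous_const continuous_norm

lemma inv_mem {w : ℂ} (hw : w ≠ 0) (h1 : ‖w‖ < 1) : 1 < ‖w⁻¹‖ := by
  rw [norm_inv]
  exact (one_lt_inv₀ (norm_pos_iff.2 hw)).2 h1

lemma inner_hasDeriv (hb : LogBranch ψ h) {w : ℂ} (hw : w ≠ 0) (h1 : ‖w‖ < 1) :
    HasDerivAt (inner h) (deriv h w⁻¹ * (-(w ^ 2)⁻¹)) w := by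
  have h2 : HasDerivAt h (deriv h w⁻¹) w⁻¹ :=
    ((hb.branch_holo w⁻¹ (inv_mem hw h1)).differentiableAt
      (isOpen_ext.mem_nhds (inv_mem hw h1))).hasDerivAt
  have h3 : HasDerivAt (fun w : ℂ => h w⁻¹) (deriv h w⁻¹ * (-(w ^ 2)⁻¹)) w :=
    h2.comp w (hasDerivAt_inv hw)
  apply h3.congr_of_eventuallyEq
  filter_upwards [isOpen_ne.mem_nhds hw] with x hx
  exact inner_ne hx

lemma inner_diff (hb : LogBranch ψ h) : DifferentiableOn ℂ (inner h) (ball 0 1) := by
  rw [← Complex.differentiableOn_compl_singleton_and_continuousAt_iff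
    (isOpen_ball.mem_nhds (mem_ball_self one_pos))]
  constructor
  · intro w hw
    have h1 : ‖w‖ < 1 := by simpa using hw.1
    exact (inner_hasDeriv hb hw.2 h1).differentiableAt.differentiableWithinAt
  · rw [continuousAt_iff_punctured_nhds, inner_zero]
    have h1 : Tendsto (fun w : ℂ => h w⁻¹) (𝓝[≠] 0) (𝓝 0) :=
      hb.branch_infty.comp tendsto_inv₀_nhdsNE_zero
    apply h1.congr'
    filter_upwards [self_mem_nhdsWithin] with x hx
    exact (inner_ne hx).symm

lemma second (hb : LogBranch ψ h) {z : ℂ} (hz : 1 < ‖z‖) :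
    deriv (deriv ψ) z / deriv ψ z = deriv h z := by
  have h1 : deriv ψ =ᶠ[𝓝 z] fun z => Complex.exp (h z) := by
    filter_upwards [isOpen_ext.mem_nhds hz] with x hx
    exact (hb.branch x hx).symm
  have h2 : HasDerivAt h (deriv h z) z :=
    ((hb.branch_holo z hz).differentiableAt (isOpen_ext.mem_nhds hz)).hasDerivAt
  rw [h1.deriv_eq, h2.cexp.deriv, ← hb.branch z hz, mul_div_cancel_left₀ _ (Complex.exp_ne_zero _)]

lemma inner_pos (hb : LogBranch ψ h) (hc : ConvexOmitted ψ) (w : ℂ) (h1 : ‖w‖ < 1) :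
    0 ≤ (1 - w * deriv (inner h) w).re := by
  by_cases hw : w = 0
  · simp [hw]
  · have h2 := hc w⁻¹ (inv_mem hw h1)
    rw [mul_div_assoc, second hb (inv_mem hw h1)] at h2
    rw [(inner_hasDeriv hb hw h1).deriv]
    have h3 : 1 - w * (deriv h w⁻¹ * (-(w ^ 2)⁻¹)) = 1 + w⁻¹ * deriv h w⁻¹ := by
      have h4 : w * (w ^ 2)⁻¹ = w⁻¹ := by field_simp
      calc 1 - w * (deriv h w⁻¹ * (-(w ^ 2)⁻¹)) = 1 + (w * (w ^ 2)⁻¹) * deriv h w⁻¹ := by ring
        _ = _ := by rw [h4]
    rw [h3]; exact h2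

lemma inner_deriv_zero (hb : LogBranch ψ h) : deriv (inner h) 0 = 0 := by
  set P : ℂ → ℂ := fun w => Complex.exp (inner h w) with hP
  have hd0 : DifferentiableAt ℂ (inner h) 0 :=
    (inner_diff hb 0 (mem_ball_self one_pos)).differentiableAt
      (isOpen_ball.mem_nhds (mem_ball_self one_pos))
  have hP0 : deriv P 0 = deriv (inner h) 0 := by
    have := hd0.hasDerivAt.cexp.deriv
    rw [inner_zero, Complex.exp_zero, one_mul] at this
    exact this
  have hdP : DiffContOnCl ℂ P (ball 0 (1/2)) := by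
    apply DifferentiableOn.diffContOnCl
    rw [closure_ball _ (by norm_num)]
    exact ((inner_diff hb).mono (closedBall_subset_ball (by norm_num))).cexp
  have hC := DiffContOnCl.deriv_eq_smul_circleIntegral (by norm_num) hdP
  have hψ : ∮ z in C(0, 2), deriv ψ z = 0 := by
    apply circleIntegral.integral_eq_zero_of_hasDerivWithinAt (f := ψ) (by norm_num)
    intro z hz
    have hz1 : 1 < ‖z‖ := by
      have : ‖z‖ = 2 := by simpa using hz
      rw [this]; norm_num
    exact ((hb.holo z hz1).differentiableAt (isOpen_ext.mem_nhds hz1)).hasDerivAt.hasDerivWithinAt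
  set f : ℝ → ℂ := fun t => 2 * Complex.I * e (-t) * P ((1/2) * e t) with hf
  have hfp : Function.Periodic f (2 * π) := by
    intro t
    simp only [hf]
    rw [e_periodic t]
    have : e (-(t + 2 * π)) = e (-t) := by
      have := e_periodic (-(t + 2 * π))
      rw [← this]; congr 1; ring
    rw [this]
  have e1 : ∮ z in C(0, 2), deriv ψ z = ∫ t in (0:ℝ)..(2 * π), f (-t) := by
    rw [circleIntegral]
    apply intervalIntegral.integral_congr
    intro t _
    simp only [hf, neg_neg, deriv_circleMap, circleMap_zero, smul_eq_mul]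
    have h1 : (1/2 : ℂ) * e (-t) ≠ 0 := by
      have : e (-t) ≠ 0 := by
        intro h0; have := norm_e (-t); rw [h0] at this; simp at this
      simpa using this
    have h2 : ((1/2 : ℂ) * e (-t))⁻¹ = 2 * Complex.exp (t * Complex.I) := by
      simp only [e]
      push_cast
      rw [neg_mul, Complex.exp_neg, mul_inv, inv_inv]
      norm_num
    have h3 : P ((1/2 : ℂ) * e (-t)) = deriv ψ (2 * Complex.exp (t * Complex.I)) := by
      simp only [hP]
      rw [inner_ne h1, h2, hb.branch]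
      rw [norm_mul, Complex.norm_exp_ofReal_mul_I]; norm_num
    rw [h3]
    simp only [e]
    push_cast
    ring
  have e2 : (∮ z in C(0, 1/2), (1 / (z - 0) ^ 2) • P z) = ∫ t in (0:ℝ)..(2 * π), f t := by
    rw [circleIntegral]
    apply intervalIntegral.integral_congr
    intro t _
    simp only [hf, deriv_circleMap, circleMap_zero, smul_eq_mul, sub_zero]
    have h4 : (((1/2 : ℝ) : ℂ) * Complex.exp (t * Complex.I)) = (1/2) * e t := by
      simp only [e]; push_cast; ring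
    rw [h4]
    have h5 : e (-t) = (e t)⁻¹ := by
      simp only [e]; push_cast; rw [neg_mul, Complex.exp_neg]
    have h6 : e t ≠ 0 := by
      intro h0; have := norm_e t; rw [h0] at this; simp at this
    rw [h5]
    field_simp
  have h7 : (∮ z in C(0, 1/2), (1 / (z - 0) ^ 2) • P z) = 0 := by
    rw [e2, ← refl_int hfp, ← e1, hψ]
  rw [h7] at hC
  rw [← hP0]
  have h8 := smul_eq_zero.1 hC.symm
  rcases h8 with h8 | h8
  · exact absurd h8 Complex.two_pi_I_ne_zero
  · exact h8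

end transfer

/-- Marshall's conjecture on the class of maps with convex omitted set. -/
theorem main (a : ℝ) (ha0 : 0 < a) (ha1 : a < 1) : ∃ C R₀ : ℝ, 1 < R₀ ∧
    ∀ ψ h : ℂ → ℂ, LogBranch ψ h → ConvexOmitted ψ →
      ∀ R : ℝ, 1 < R → R < R₀ → marshallIntegral a R h ≤ C := by
  obtain ⟨C, R₀, hR₀, hC⟩ := disc_bound a ha0 ha1
  refine ⟨C, R₀, hR₀, ?_⟩
  intro ψ h hb hc R hR1 hR2
  have h1 := hC (inner h) (inner_diff hb) inner_zero (inner_deriv_zero hb) (inner_pos hb hc)
    R hR1 hR2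
  rw [marshallIntegral]
  have h2 : ∀ t : ℝ, inner h (R⁻¹ * e (-t)) = h (R * Complex.exp (t * Complex.I)) := by
    intro t
    have hR : (R:ℂ) ≠ 0 := by
      have : 0 < R := by linarith
      exact_mod_cast this.ne'
    have h3 : (R⁻¹ * e (-t) : ℂ)⁻¹ = R * Complex.exp (t * Complex.I) := by
      simp only [e]
      push_cast
      rw [neg_mul, Complex.exp_neg, mul_inv, inv_inv, inv_inv]
    have h4 : (R⁻¹ * e (-t) : ℂ) ≠ 0 := by
      apply mul_ne_zero (by rw [Complex.ofReal_inv]; exact inv_ne_zero hR)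
      intro h0; have := norm_e (-t); rw [h0] at this; simp at this
    rw [inner_ne h4, h3]
  simp only [h2, mul_div_assoc] at h1
  exact h1

end Marsh96
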