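import Pool.Agent.Lib.Marsh96.CoreThm

open MeasureTheory Set Filter Topology Metric
open scoped Real ComplexConjugate

namespace Marsh96

open Real (circleAverage)

lemma avg_conj (f : ℂ → ℂ) (s : ℝ) :
    circleAverage (fun z => conj (f z)) 0 s = conj (circleAverage f 0 s) := by
  simp only [Real.circleAverage_def]
  rw [intervalIntegral.integral_of_le (by positivity), intervalIntegral.integral_of_le (by positivity),
    integral_conj]
  simp
  left
  exact (map_ofNat (starRingEnd ℂ) 2).symm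

lemma avg_mean {f : ℂ → ℂ} {s : ℝ} (hs : 0 < s) (hf : DifferentiableOn ℂ f (closedBall 0 s)) :
    circleAverage f 0 s = f 0 := by
  have h : DiffContOnCl ℂ f (ball 0 |s|) := by
    apply DifferentiableOn.diffContOnCl
    rw [abs_of_pos hs, closure_ball _ hs.ne']
    exact hf
  exact h.circleAverage

lemma ci {f : ℂ → ℂ} {s : ℝ} (hs : 0 < s) (hf : ContinuousOn f (sphere 0 s)) :
    CircleIntegrable f 0 s := hf.circleIntegrable hs.le

section

variable {H : ℂ → ℂ} (hH : DifferentiableOn ℂ H (ball 0 1)) (H0 : H 0 = 0) {s : ℝ}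
  (hs0 : 0 < s) (hs1 : s < 1)

lemma cb_sub {s : ℝ} (hs1 : s < 1) : closedBall (0:ℂ) s ⊆ ball 0 1 := closedBall_subset_ball hs1

include hH in
lemma dH : DifferentiableOn ℂ (deriv H) (ball 0 1) := hH.deriv isOpen_ball

include hH in
lemma dG : DifferentiableOn ℂ (fun ζ => 1 - ζ * deriv H ζ) (ball 0 1) := by
  have := dH hH
  fun_prop

lemma small_re {c ζ : ℂ} {s : ℝ} (hζ : ‖ζ‖ ≤ s) (hc : ‖c‖ * s < 1) : 0 < (1 - c * ζ).re := by
  have h1 := Complex.abs_re_le_norm (c * ζ)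
  rw [norm_mul] at h1
  have h2 := (abs_le.1 h1).2
  have h3 : ‖c‖ * ‖ζ‖ ≤ ‖c‖ * s := mul_le_mul_of_nonneg_left hζ (norm_nonneg _)
  rw [Complex.sub_re, Complex.one_re]; linarith

lemma dN {c : ℂ} {s : ℝ} (hc : ‖c‖ * s < 1) :
    DifferentiableOn ℂ (fun ζ => Complex.log (1 - c * ζ)) (closedBall 0 s) := by
  intro ζ hζ
  have hζ' : ‖ζ‖ ≤ s := by simpa using hζ
  apply DifferentiableAt.differentiableWithinAt
  exact DifferentiableAt.clog (by fun_prop) (Or.inl (small_re hζ' hc))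

/-- integration by parts on the circle -/
lemma parts (hs0 : 0 < s) (hs1 : s < 1) (hH : DifferentiableOn ℂ H (ball 0 1)) (H0 : H 0 = 0)
    {w : ℂ} (hw : ‖w‖ < s) :
    circleAverage (fun ζ => (ζ * deriv H ζ) * Complex.log (1 - w / ζ)) 0 s = - H w := by
  have hsph : sphere (0:ℂ) s ⊆ ball 0 1 := sphere_subset_closedBall.trans (cb_sub hs1)
  have hne : ∀ ζ ∈ sphere (0:ℂ) s, ζ ≠ 0 := fun ζ hζ => by
    rintro rfl
    simp at hζ; exact hs0.ne hζ
  have hnw : ∀ ζ ∈ sphere (0:ℂ) s, ζ - w ≠ 0 := fun ζ hζ h => by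
    have h1 : ζ = w := sub_eq_zero.1 h
    have h2 : ‖ζ‖ = s := by simpa using hζ
    rw [h1] at h2; linarith
  have hre : ∀ ζ ∈ sphere (0:ℂ) s, 0 < (1 - w / ζ).re := fun ζ hζ => by
    have h2 : ‖ζ‖ = s := by simpa using hζ
    have h1 := Complex.abs_re_le_norm (w / ζ)
    rw [norm_div, h2] at h1
    have h3 := (abs_le.1 h1).2
    have h4 : ‖w‖ / s < 1 := by rw [div_lt_one hs0]; exact hw
    rw [Complex.sub_re, Complex.one_re]; linarith
  have cH : ContinuousOn H (sphere 0 s) := (hH.continuousOn).mono hsph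
  have cdH : ContinuousOn (deriv H) (sphere 0 s) := ((dH hH).continuousOn).mono hsph
  have clog : ContinuousOn (fun ζ => Complex.log (1 - w / ζ)) (sphere 0 s) := by
    apply ContinuousOn.clog
    · exact continuousOn_const.sub (continuousOn_const.div continuousOn_id hne)
    · intro ζ hζ; exact Or.inl (hre ζ hζ)
  have c1 : ContinuousOn (fun ζ : ℂ => (ζ - w)⁻¹ • H ζ) (sphere 0 s) :=
    ((continuousOn_id.sub continuousOn_const).inv₀ hnw).smul cH
  have c2 : ContinuousOn (fun ζ : ℂ => (ζ - 0)⁻¹ • H ζ) (sphere 0 s) :=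
    ((continuousOn_id.sub continuousOn_const).inv₀ (by intro ζ hζ; simpa using hne ζ hζ)).smul cH
  have c3 : ContinuousOn (fun ζ : ℂ => deriv H ζ * Complex.log (1 - w / ζ)) (sphere 0 s) :=
    cdH.mul clog
  have c12 : ContinuousOn (fun ζ : ℂ => (ζ - w)⁻¹ • H ζ - (ζ - 0)⁻¹ • H ζ) (sphere 0 s) :=
    c1.sub c2
  have hder : ∮ ζ in C(0, s), (deriv H ζ * Complex.log (1 - w / ζ) +
      ((ζ - w)⁻¹ • H ζ - (ζ - 0)⁻¹ • H ζ)) = 0 := by
    apply circleIntegral.integral_eq_zero_of_hasDerivWithinAt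
      (f := fun ζ => H ζ * Complex.log (1 - w / ζ)) hs0.le
    intro ζ hζ
    apply HasDerivAt.hasDerivWithinAt
    have h1 : HasDerivAt H (deriv H ζ) ζ :=
      ((hH ζ (hsph hζ)).differentiableAt (isOpen_ball.mem_nhds (hsph hζ))).hasDerivAt
    have h2 : HasDerivAt (fun ζ : ℂ => 1 - w / ζ) (w / ζ ^ 2) ζ := by
      have h3 := ((hasDerivAt_inv (hne ζ hζ)).const_mul w).const_sub 1
      have h4 : -(w * -(ζ ^ 2)⁻¹) = w / ζ ^ 2 := by ring
      rw [h4] at h3
      exact h3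
    have h5 := h2.clog (Or.inl (hre ζ hζ))
    have h6 : HasDerivAt (fun ζ => H ζ * Complex.log (1 - w / ζ))
      (deriv H ζ * Complex.log (1 - w / ζ) + H ζ * ((w / ζ ^ 2) / (1 - w / ζ))) ζ := h1.mul h5
    have hz := hne ζ hζ
    have hzw := hnw ζ hζ
    have h7 : 1 - w / ζ ≠ 0 := by
      intro h
      have := hre ζ hζ
      rw [h] at this; simp at this
    have h8 : (w / ζ ^ 2) / (1 - w / ζ) = (ζ - w)⁻¹ - ζ⁻¹ := by
      have h9 : 1 - w / ζ = (ζ - w) / ζ := by field_simp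
      rw [h9]
      field_simp
      ring
    have h10 : deriv H ζ * Complex.log (1 - w / ζ) + ((ζ - w)⁻¹ • H ζ - (ζ - 0)⁻¹ • H ζ) =
        deriv H ζ * Complex.log (1 - w / ζ) + H ζ * ((w / ζ ^ 2) / (1 - w / ζ)) := by
      rw [h8]
      simp only [smul_eq_mul, sub_zero]
      ring
    rw [h10]
    exact h6
  rw [circleIntegral.integral_add (ci hs0 c3) (ci hs0 c12),
    circleIntegral.integral_sub (ci hs0 c1) (ci hs0 c2)] at hder
  have hdc : DiffContOnCl ℂ H (ball 0 s) := by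
    apply DifferentiableOn.diffContOnCl
    rw [closure_ball _ hs0.ne']
    exact hH.mono (cb_sub hs1)
  rw [hdc.circleIntegral_sub_inv_smul (by simpa using hw),
    hdc.circleIntegral_sub_inv_smul (by simpa using hs0), H0, smul_zero, sub_zero] at hder
  rw [Real.circleAverage_eq_circleIntegral hs0.ne']
  have hcongr : (∮ ζ in C(0, s), (ζ - 0)⁻¹ • ((ζ * deriv H ζ) * Complex.log (1 - w / ζ))) =
      ∮ ζ in C(0, s), deriv H ζ * Complex.log (1 - w / ζ) := by
    apply circleIntegral.integral_congr hs0.le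
    intro ζ hζ
    have := hne ζ hζ
    simp only [sub_zero, smul_eq_mul]
    field_simp
  rw [hcongr]
  have h9 : (∮ ζ in C(0, s), deriv H ζ * Complex.log (1 - w / ζ)) = -((2 * π * Complex.I : ℂ) • H w) :=
    eq_neg_of_add_eq_zero_left hder
  rw [h9, smul_neg, smul_smul, inv_mul_cancel₀ Complex.two_pi_I_ne_zero, one_smul]

/-- The representation of H by the real part of 1 - ζ H'(ζ) on a circle. -/
lemma main_id (hs0 : 0 < s) (hs1 : s < 1) (hH : DifferentiableOn ℂ H (ball 0 1)) (H0 : H 0 = 0)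
    {w : ℂ} (hw : ‖w‖ < s) :
    circleAverage (fun ζ => ((2 * (1 - ζ * deriv H ζ).re : ℝ) : ℂ) * Complex.log (1 - w / ζ)) 0 s
      = H w := by
  set c : ℂ := conj w / (s:ℂ) ^ 2 with hc
  have hcn : ‖c‖ * s < 1 := by
    rw [hc, norm_div, Complex.norm_conj, norm_pow, Complex.norm_real, Real.norm_eq_abs,
      abs_of_pos hs0]
    have : ‖w‖ / s ^ 2 * s = ‖w‖ / s := by field_simp
    rw [this, div_lt_one hs0]; exact hw
  set G : ℂ → ℂ := fun ζ => 1 - ζ * deriv H ζ with hG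
  set N : ℂ → ℂ := fun ζ => Complex.log (1 - c * ζ) with hN
  have dG' : DifferentiableOn ℂ G (closedBall 0 s) := (dG hH).mono (cb_sub hs1)
  have dN' : DifferentiableOn ℂ N (closedBall 0 s) := dN hcn
  have hNlog : ∀ ζ ∈ sphere (0:ℂ) s, Complex.log (1 - w / ζ) = conj (N ζ) := by
    intro ζ hζ
    have h2 : ‖ζ‖ = s := by simpa using hζ
    have hz : ζ ≠ 0 := by
      intro h; rw [h, norm_zero] at h2; exact hs0.ne h2
    have h3 : ζ * conj ζ = (s:ℂ) ^ 2 := by
      rw [Complex.mul_conj, Complex.normSq_eq_norm_sq, h2]; push_cast; ring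
    have h4 : (1 - w / ζ) = conj (1 - c * ζ) := by
      rw [hc, map_sub, map_one, map_mul, map_div₀, Complex.conj_conj, map_pow, Complex.conj_ofReal,
        ← h3]
      have hz' : conj ζ ≠ 0 := (map_ne_zero _).2 hz
      field_simp
    rw [h4, hN, Complex.log_conj]
    have h5 := small_re (le_of_eq h2) hcn
    intro h6
    rw [Complex.arg_eq_pi_iff] at h6
    linarith [h6.1]
  have sph : sphere (0:ℂ) s ⊆ closedBall 0 s := sphere_subset_closedBall
  have cG : ContinuousOn G (sphere 0 s) := dG'.continuousOn.mono sph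
  have cN : ContinuousOn N (sphere 0 s) := dN'.continuousOn.mono sph
  have cNc : ContinuousOn (fun ζ => conj (N ζ)) (sphere 0 s) :=
    Complex.continuous_conj.comp_continuousOn cN
  have cF : ContinuousOn (fun ζ => (ζ * deriv H ζ) * conj (N ζ)) (sphere 0 s) := by
    have h1 : ContinuousOn (deriv H) (sphere 0 s) :=
      ((dH hH).continuousOn).mono (sph.trans (cb_sub hs1))
    exact (continuousOn_id.mul h1).mul cNc
  have e1 : circleAverage (fun ζ => conj (N ζ)) 0 s = 0 := by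
    rw [avg_conj, avg_mean hs0 dN', hN]; simp
  have e2 : circleAverage (fun ζ => conj (G ζ * N ζ)) 0 s = 0 := by
    have dGN : DifferentiableOn ℂ (fun ζ => G ζ * N ζ) (closedBall 0 s) := dG'.mul dN'
    rw [avg_conj (fun ζ => G ζ * N ζ), avg_mean hs0 dGN, hN]; simp
  have e3 : circleAverage (fun ζ => (ζ * deriv H ζ) * conj (N ζ)) 0 s = - H w := by
    rw [← parts hs0 hs1 hH H0 hw]
    apply Real.circleAverage_congr_sphere
    intro ζ hζ
    rw [abs_of_pos hs0] at hζ
    simp only [hNlog ζ hζ]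
  have e4 : circleAverage (fun ζ => ((2 * (1 - ζ * deriv H ζ).re : ℝ) : ℂ) *
      Complex.log (1 - w / ζ)) 0 s = circleAverage (fun ζ => (conj (N ζ) -
        (ζ * deriv H ζ) * conj (N ζ)) + conj (G ζ * N ζ)) 0 s := by
    apply Real.circleAverage_congr_sphere
    intro ζ hζ
    rw [abs_of_pos hs0] at hζ
    simp only [hNlog ζ hζ]
    have h1 : ((2 * (G ζ).re : ℝ) : ℂ) = G ζ + conj (G ζ) := by
      rw [Complex.add_conj]
    change ((2 * (G ζ).re : ℝ) : ℂ) * conj (N ζ) = _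
    rw [h1, map_mul]
    simp only [hG]
    ring
  have cGN : ContinuousOn (fun ζ => conj (G ζ * N ζ)) (sphere 0 s) :=
    Complex.continuous_conj.comp_continuousOn (cG.mul cN)
  have cs : ContinuousOn (fun ζ => conj (N ζ) - (ζ * deriv H ζ) * conj (N ζ)) (sphere 0 s) :=
    cNc.sub cF
  rw [e4, Real.circleAverage_fun_add (ci hs0 cs) (ci hs0 cGN),
    Real.circleAverage_fun_sub (ci hs0 cNc) (ci hs0 cF), e1, e2, e3]
  ring

/-- the real part of 1 - ζ H'(ζ) has mean 1 -/
lemma mean_one (hs0 : 0 < s) (hs1 : s < 1) (hH : DifferentiableOn ℂ H (ball 0 1)) :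
    circleAverage (fun ζ => 1 - ζ * deriv H ζ) 0 s = 1 := by
  rw [avg_mean hs0 ((dG hH).mono (cb_sub hs1))]; simp

/-- first moment -/
lemma mean_zero (hs0 : 0 < s) (hs1 : s < 1) (hH : DifferentiableOn ℂ H (ball 0 1))
    (H1 : deriv H 0 = 0) :
    circleAverage (fun ζ => ((2 * (1 - ζ * deriv H ζ).re : ℝ) : ℂ) * conj ζ) 0 s = 0 := by
  set G : ℂ → ℂ := fun ζ => 1 - ζ * deriv H ζ with hG
  have dG' : DifferentiableOn ℂ G (closedBall 0 s) := (dG hH).mono (cb_sub hs1)
  have sph : sphere (0:ℂ) s ⊆ closedBall 0 s := sphere_subset_closedBall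
  have cG : ContinuousOn G (sphere 0 s) := dG'.continuousOn.mono sph
  have dGz : DifferentiableOn ℂ (fun ζ => G ζ * ζ) (closedBall 0 s) := dG'.mul differentiableOn_id
  have ddH : DifferentiableOn ℂ (fun ζ => (s:ℂ) ^ 2 * deriv H ζ) (closedBall 0 s) :=
    ((dH hH).mono (cb_sub hs1)).const_mul _
  have c1 : ContinuousOn (fun ζ : ℂ => conj ζ) (sphere 0 s) :=
    Complex.continuous_conj.continuousOn
  have c2 : ContinuousOn (fun ζ => (s:ℂ) ^ 2 * deriv H ζ) (sphere 0 s) :=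
    ddH.continuousOn.mono sph
  have c3 : ContinuousOn (fun ζ => conj (G ζ * ζ)) (sphere 0 s) :=
    Complex.continuous_conj.comp_continuousOn (dGz.continuousOn.mono sph)
  have e1 : circleAverage (fun ζ : ℂ => conj ζ) 0 s = 0 := by
    have h1 : circleAverage (fun ζ : ℂ => ζ) 0 s = 0 := avg_mean hs0 differentiableOn_id
    rw [avg_conj (fun ζ => ζ), h1]; simp
  have e2 : circleAverage (fun ζ => (s:ℂ) ^ 2 * deriv H ζ) 0 s = 0 := by
    rw [avg_mean hs0 ddH, H1, mul_zero]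
  have e3 : circleAverage (fun ζ => conj (G ζ * ζ)) 0 s = 0 := by
    rw [avg_conj (fun ζ => G ζ * ζ), avg_mean hs0 dGz]; simp
  have e4 : circleAverage (fun ζ => ((2 * (1 - ζ * deriv H ζ).re : ℝ) : ℂ) * conj ζ) 0 s =
      circleAverage (fun ζ => (conj ζ - (s:ℂ) ^ 2 * deriv H ζ) + conj (G ζ * ζ)) 0 s := by
    apply Real.circleAverage_congr_sphere
    intro ζ hζ
    rw [abs_of_pos hs0] at hζ
    have h2 : ‖ζ‖ = s := by simpa using hζ
    have h3 : ζ * conj ζ = (s:ℂ) ^ 2 := by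
      rw [Complex.mul_conj, Complex.normSq_eq_norm_sq, h2]; push_cast; ring
    have h1 : ((2 * (G ζ).re : ℝ) : ℂ) = G ζ + conj (G ζ) := by
      rw [Complex.add_conj]
    change ((2 * (G ζ).re : ℝ) : ℂ) * conj ζ = (conj ζ - (s:ℂ) ^ 2 * deriv H ζ) + conj (G ζ * ζ)
    rw [h1, map_mul, ← h3]
    simp only [hG]
    ring
  have cs : ContinuousOn (fun ζ => conj ζ - (s:ℂ) ^ 2 * deriv H ζ) (sphere 0 s) := c1.sub c2
  rw [e4, Real.circleAverage_fun_add (ci hs0 cs) (ci hs0 c3),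
    Real.circleAverage_fun_sub (ci hs0 c1) (ci hs0 c2), e1, e2, e3]
  ring

end

end Marsh96
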