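import Pool.Agent.Lib.Marsh96.Herg

open MeasureTheory Set Filter Topology Metric
open scoped Real ComplexConjugate

namespace Marsh96

open Real (circleAverage)

/-- The measure with density `p / 2 pi` on `(0, 2 pi]`. -/
noncomputable def dens (p : ℝ → ℝ) : Measure ℝ :=
  (volume.restrict (Ioc 0 (2 * π))).withDensity (fun t => ENNReal.ofReal ((2 * π)⁻¹ * p t))

lemma int_dens {p : ℝ → ℝ} (hp : Continuous p) (hp0 : ∀ t, 0 ≤ p t) (g : ℝ → ℂ) :
    ∫ t, g t ∂(dens p) = ((2 * π)⁻¹ : ℝ) • ∫ t in (0:ℝ)..(2 * π), ((p t : ℝ) : ℂ) * g t := by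
  have hm : Measurable fun t => ENNReal.ofReal ((2 * π)⁻¹ * p t) := by
    have := hp.measurable
    fun_prop
  rw [dens, integral_withDensity_eq_integral_toReal_smul hm
    (ae_of_all _ fun t => ENNReal.ofReal_lt_top),
    intervalIntegral.integral_of_le (by positivity), ← integral_smul]
  congr 1
  funext t
  have h1 : 0 ≤ (2 * π)⁻¹ * p t := mul_nonneg (by positivity) (hp0 t)
  rw [ENNReal.toReal_ofReal h1]
  simp only [Complex.real_smul]
  push_cast; ring

lemma dens_prob {p : ℝ → ℝ} (hp : Continuous p) (hp0 : ∀ t, 0 ≤ p t)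
    (h1 : (2 * π)⁻¹ * ∫ t in (0:ℝ)..(2 * π), p t = 1) : IsProbabilityMeasure (dens p) := by
  constructor
  have hi : Integrable (fun t => (2 * π)⁻¹ * p t) (volume.restrict (Ioc 0 (2 * π))) :=
    ((hp.intervalIntegrable 0 (2 * π)).1).const_mul _
  rw [dens, withDensity_apply _ MeasurableSet.univ, Measure.restrict_univ,
    ← ofReal_integral_eq_lintegral_ofReal hi
      (ae_of_all _ fun t => mul_nonneg (by positivity) (hp0 t)),
    integral_const_mul, ← intervalIntegral.integral_of_le (by positivity), h1, ENNReal.ofReal_one]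

/-- For a function `H` on the disc with `H 0 = H' 0 = 0` and `Re (1 - w H') ≥ 0`, the dilate
is a potential of a centred probability measure. -/
theorem exists_measure {H : ℂ → ℂ} (hH : DifferentiableOn ℂ H (ball 0 1)) (H0 : H 0 = 0)
    (H1 : deriv H 0 = 0) (hpos : ∀ w : ℂ, ‖w‖ < 1 → 0 ≤ (1 - w * deriv H w).re)
    {s : ℝ} (hs0 : 0 < s) (hs1 : s < 1) :
    ∃ μ : Measure ℝ, IsProbabilityMeasure μ ∧ ∫ θ, e θ ∂μ = 0 ∧
      ∀ w : ℂ, ‖w‖ < 1 → K μ w = H (s * w) := by
  set p : ℝ → ℝ := fun t => (1 - circleMap 0 s t * deriv H (circleMap 0 s t)).re with hp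
  have hcm : ∀ t, ‖circleMap 0 s t‖ = s := fun t => by
    have := circleMap_mem_sphere (0:ℂ) hs0.le t
    simpa using this
  have hcm1 : ∀ t, ‖circleMap 0 s t‖ < 1 := fun t => by rw [hcm t]; exact hs1
  have hpc : Continuous p := by
    have h1 : Continuous fun t => deriv H (circleMap 0 s t) :=
      (dH hH).continuousOn.comp_continuous (continuous_circleMap 0 s)
        (fun t => by simpa using hcm1 t)
    have h2 := continuous_circleMap 0 s
    simp only [hp]
    fun_prop
  have hp0 : ∀ t, 0 ≤ p t := fun t => hpos _ (hcm1 t)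
  have hmean : (2 * π)⁻¹ * ∫ t in (0:ℝ)..(2 * π), p t = 1 := by
    have h1 := mean_one hs0 hs1 hH
    have h2 : (circleAverage (fun ζ => 1 - ζ * deriv H ζ) 0 s).re = 1 := by rw [h1]; simp
    rw [Real.circleAverage_def] at h2
    have hc : Continuous fun t => 1 - circleMap 0 s t * deriv H (circleMap 0 s t) := by
      have h1 : Continuous fun t => deriv H (circleMap 0 s t) :=
        (dH hH).continuousOn.comp_continuous (continuous_circleMap 0 s)
          (fun t => by simpa using hcm1 t)
      have h2 := continuous_circleMap 0 s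
      fun_prop
    have h3 : ∫ t in (0:ℝ)..(2 * π), p t =
        (∫ t in (0:ℝ)..(2 * π), (1 - circleMap 0 s t * deriv H (circleMap 0 s t))).re := by
      rw [intervalIntegral.integral_of_le (by positivity),
        intervalIntegral.integral_of_le (by positivity)]
      exact Complex.reCLM.integral_comp_comm ((hc.intervalIntegrable 0 (2 * π)).1)
    rw [h3]
    rw [Complex.real_smul, Complex.re_ofReal_mul] at h2
    exact h2
  have hprob := dens_prob hpc hp0 hmean
  refine ⟨(dens p).map Neg.neg, Measure.isProbabilityMeasure_map measurable_neg.aemeasurable,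
    ?_, ?_⟩
  · rw [integral_map measurable_neg.aemeasurable cont_e.aestronglyMeasurable, int_dens hpc hp0]
    have h1 := mean_zero hs0 hs1 hH H1
    rw [Real.circleAverage_def] at h1
    have h2 : ∀ t : ℝ, ((p t : ℝ) : ℂ) * e (-t) = (1 / (2 * s) : ℂ) *
        (((2 * (1 - circleMap 0 s t * deriv H (circleMap 0 s t)).re : ℝ) : ℂ) *
          conj (circleMap 0 s t)) := by
      intro t
      have h3 : conj (circleMap 0 s t) = s * e (-t) := by
        rw [circleMap_zero]
        simp [e, ← Complex.exp_conj]
      rw [h3]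
      simp only [hp]
      have : (s:ℂ) ≠ 0 := by exact_mod_cast hs0.ne'
      push_cast
      field_simp
    simp_rw [h2]
    rw [intervalIntegral.integral_const_mul, ← mul_smul_comm, h1, mul_zero]
  · intro w hw
    have hsw : ‖(s * w : ℂ)‖ < s := by
      rw [norm_mul, Complex.norm_real, Real.norm_eq_abs, abs_of_pos hs0]
      nlinarith
    have h1 := main_id hs0 hs1 hH H0 hsw
    rw [Real.circleAverage_def] at h1
    rw [← h1, K, integral_map measurable_neg.aemeasurable (clog_cont hw).aestronglyMeasurable,
      int_dens hpc hp0]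
    have h2 : ∀ t : ℝ, ((2 * (1 - circleMap 0 s t * deriv H (circleMap 0 s t)).re : ℝ) : ℂ) *
        Complex.log (1 - (s * w) / circleMap 0 s t) =
        2 * (((p t : ℝ) : ℂ) * Complex.log (1 - w * e (-t))) := by
      intro t
      have h3 : (s * w) / circleMap 0 s t = w * e (-t) := by
        rw [circleMap_zero]
        have hs : (s:ℂ) ≠ 0 := by exact_mod_cast hs0.ne'
        simp only [e]
        push_cast
        rw [neg_mul, Complex.exp_neg]
        have := Complex.exp_ne_zero (t * Complex.I)
        field_simp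
      rw [h3]
      simp only [hp]
      push_cast; ring
    simp_rw [h2]
    rw [intervalIntegral.integral_const_mul]
    simp only [Complex.real_smul]
    ring

end Marsh96
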