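import Pool.Agent.Lib.Marsh96.Final

open MeasureTheory Set Filter Topology Metric
open scoped Real ComplexConjugate

namespace Marsh96

open Real (circleAverage)

/-- Schwarz integral of a real function on the unit circle. -/
noncomputable def SI (v : ℂ → ℝ) (w : ℂ) : ℂ :=
  circleAverage (fun ζ => herglotzRieszKernel 0 w ζ • (v ζ : ℂ)) 0 1

section

variable {v : ℂ → ℝ}

lemma vci (hv : ContinuousOn v (sphere 0 1)) : CircleIntegrable v 0 1 :=
  hv.circleIntegrable zero_le_one

lemma SI_deriv (hv : ContinuousOn v (sphere 0 1)) {w : ℂ} (hw : ‖w‖ < 1) :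
    DifferentiableAt ℂ (SI v) w := by
  have hg : CircleIntegrable (fun ζ => (v ζ : ℂ)) 0 1 := by
    apply ContinuousOn.circleIntegrable zero_le_one
    exact Complex.continuous_ofReal.comp_continuousOn hv
  exact (hasDerivAt_circleAverage_herglotzRieszKernel_smul hg (by simpa using hw)).differentiableAt

lemma SI_re (hv : ContinuousOn v (sphere 0 1)) {w : ℂ} (hw : ‖w‖ < 1) :
    (SI v w).re = circleAverage ((Complex.re ∘ herglotzRieszKernel 0 w) • v) 0 1 :=
  re_circleAverage_herglotzRieszKernel_smul (vci hv) (by simpa using hw)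

lemma ker_cont {w : ℂ} (hw : ‖w‖ < 1) : ContinuousOn (herglotzRieszKernel 0 w) (sphere 0 1) := by
  have := continuousOn_herglotzRieszKernel_sphere (c := (0:ℂ)) (R := 1) (w := w) (by simpa using hw)
  simpa using this

lemma ker_re_nonneg {w ζ : ℂ} (hw : ‖w‖ < 1) (hζ : ζ ∈ sphere (0:ℂ) 1) :
    0 ≤ (herglotzRieszKernel 0 w ζ).re := by
  have h := le_re_herglotzRieszKernel (c := (0:ℂ)) (R := 1) hζ (w := w) (by simpa using hw)
  rw [herglotzRieszKernel_def]
  refine le_trans ?_ h
  simp only [sub_zero]
  apply div_nonneg <;> linarith [norm_nonneg w]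

/-- the Poisson kernel has mean one -/
lemma ker_mean {w : ℂ} (hw : ‖w‖ < 1) :
    circleAverage (Complex.re ∘ herglotzRieszKernel 0 w) 0 1 = 1 := by
  have h : DiffContOnCl ℂ (fun _ : ℂ => (1:ℂ)) (ball 0 1) := by
    apply DifferentiableOn.diffContOnCl
    fun_prop
  have h1 := h.circleAverage_re_herglotzRieszKernel_smul (w := w) (by simpa using hw)
  have h2 : circleAverage ((Complex.re ∘ herglotzRieszKernel 0 w) • fun _ : ℂ => (1:ℂ)) 0 1 =
      ((circleAverage (Complex.re ∘ herglotzRieszKernel 0 w) 0 1 : ℝ) : ℂ) := by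
    simp only [Real.circleAverage_def]
    rw [intervalIntegral.integral_of_le (by positivity),
      intervalIntegral.integral_of_le (by positivity)]
    simp only [Pi.smul_apply', Function.comp_apply, Complex.real_smul, mul_one, smul_eq_mul]
    push_cast
    congr 1
    exact integral_ofReal
  rw [h2] at h1
  exact_mod_cast h1

lemma SI_re_bound (hv : ContinuousOn v (sphere 0 1)) {c b : ℝ}
    (hb : ∀ ζ ∈ sphere (0:ℂ) 1, |v ζ - c| ≤ b) {w : ℂ} (hw : ‖w‖ < 1) :
    |(SI v w).re - c| ≤ b := by
  have kc : ContinuousOn (Complex.re ∘ herglotzRieszKernel 0 w) (sphere 0 1) :=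
    Complex.continuous_re.comp_continuousOn (ker_cont hw)
  have i1 : CircleIntegrable ((Complex.re ∘ herglotzRieszKernel 0 w) • v) 0 1 :=
    (kc.smul hv).circleIntegrable zero_le_one
  have up : (SI v w).re ≤ c + b := by
    rw [SI_re hv hw]
    have i2 : CircleIntegrable ((c + b) • (Complex.re ∘ herglotzRieszKernel 0 w)) 0 1 :=
      (kc.const_smul (c + b)).circleIntegrable zero_le_one
    have h1 := Real.circleAverage_mono i1 i2 (by
      intro ζ hζ
      rw [abs_one] at hζ
      have h2 := ker_re_nonneg hw hζ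
      have h3 := (abs_le.1 (hb ζ hζ)).2
      simp only [Pi.smul_apply', Pi.smul_apply, Function.comp_apply, smul_eq_mul]
      nlinarith)
    rw [Real.circleAverage_smul, ker_mean hw] at h1
    simpa using h1
  have lo : c - b ≤ (SI v w).re := by
    rw [SI_re hv hw]
    have i2 : CircleIntegrable ((c - b) • (Complex.re ∘ herglotzRieszKernel 0 w)) 0 1 :=
      (kc.const_smul (c - b)).circleIntegrable zero_le_one
    have h1 := Real.circleAverage_mono i2 i1 (by
      intro ζ hζ
      rw [abs_one] at hζ
      have h2 := ker_re_nonneg hw hζ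
      have h3 := (abs_le.1 (hb ζ hζ)).1
      simp only [Pi.smul_apply', Pi.smul_apply, Function.comp_apply, smul_eq_mul]
      nlinarith)
    rw [Real.circleAverage_smul, ker_mean hw] at h1
    simpa using h1
  rw [abs_le]; constructor <;> linarith

/-- value at the centre is real -/
lemma SI_zero (v : ℂ → ℝ) : (SI v 0).im = 0 := by
  have h : SI v 0 = circleAverage (fun ζ => (v ζ : ℂ)) 0 1 := by
    apply Real.circleAverage_congr_sphere
    intro ζ hζ
    rw [abs_one] at hζ
    have hz : ζ ≠ 0 := by
      intro h0; rw [h0] at hζ; simp at hζ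
    simp only [herglotzRieszKernel_def, sub_zero, add_zero]
    rw [div_self hz, one_smul]
  rw [h, Real.circleAverage_def, intervalIntegral.integral_of_le (by positivity)]
  have h5 : ∫ t in Ioc 0 (2 * π), ((v (circleMap 0 1 t) : ℝ) : ℂ) =
      ((∫ t in Ioc 0 (2 * π), v (circleMap 0 1 t) : ℝ) : ℂ) := integral_ofReal
  rw [h5, Complex.real_smul, ← Complex.ofReal_mul, Complex.ofReal_im]

end

end Marsh96
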