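import Pool.Agent.Lib.Marsh96.OscA

open MeasureTheory Set Filter Topology Metric
open scoped Real ComplexConjugate

namespace Marsh96

open Real (circleAverage)

/-- Schwarz representation on the unit circle. -/
lemma schwarz {F : ℂ → ℂ} {ρ : ℝ} (hρ : 1 < ρ) (hF : DifferentiableOn ℂ F (ball 0 ρ))
    (h0 : (F 0).im = 0) {w : ℂ} (hw : ‖w‖ < 1) : SI (fun ζ => (F ζ).re) w = F w := by
  have hsub : closedBall (0:ℂ) 1 ⊆ ball 0 ρ := closedBall_subset_ball hρ
  have sph : sphere (0:ℂ) 1 ⊆ closedBall 0 1 := sphere_subset_closedBall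
  have hF1 : DifferentiableOn ℂ F (closedBall 0 1) := hF.mono hsub
  have hFc : ContinuousOn F (sphere 0 1) := hF1.continuousOn.mono sph
  have kc : ContinuousOn (herglotzRieszKernel 0 w) (sphere 0 1) := ker_cont hw
  have hdc : DiffContOnCl ℂ F (ball 0 |(1:ℝ)|) := by
    apply DifferentiableOn.diffContOnCl
    rw [abs_one, closure_ball _ one_ne_zero]
    exact hF1
  have hnw : ∀ ζ ∈ sphere (0:ℂ) 1, ζ - w ≠ 0 := fun ζ hζ h => by
    have h1 : ζ = w := sub_eq_zero.1 h
    have h2 : ‖ζ‖ = 1 := by simpa using hζ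
    rw [h1] at h2; linarith
  -- kernel times F
  have cdiv : ContinuousOn (fun z : ℂ => ((z - 0) / (z - w)) • F z) (sphere 0 1) :=
    ((continuousOn_id.sub continuousOn_const).div
      (continuousOn_id.sub continuousOn_const) hnw).smul hFc
  have cdiv2 : ContinuousOn (fun z : ℂ => (2:ℂ) • (((z - 0) / (z - w)) • F z)) (sphere 0 1) :=
    cdiv.const_smul (2:ℂ)
  have e1 : circleAverage (fun ζ => herglotzRieszKernel 0 w ζ • F ζ) 0 1 = 2 * F w - F 0 := by
    have h1 := hdc.circleAverage_smul_div (w := w) (by simpa using hw)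
    have h2 : circleAverage F 0 1 = F 0 := avg_mean one_pos hF1
    have h3 : circleAverage (fun ζ => herglotzRieszKernel 0 w ζ • F ζ) 0 1 =
        circleAverage (fun ζ => ((2:ℂ) • (((ζ - 0) / (ζ - w)) • F ζ)) - F ζ) 0 1 := by
      apply Real.circleAverage_congr_sphere
      intro ζ hζ
      rw [abs_one] at hζ
      have := hnw ζ hζ
      simp only [herglotzRieszKernel_def, sub_zero, smul_eq_mul]
      field_simp
      ring
    rw [h3, Real.circleAverage_fun_sub
      (cdiv2.circleIntegrable zero_le_one)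
      (hFc.circleIntegrable zero_le_one), h2]
    have h4 : circleAverage (fun ζ => ((2:ℂ) • (((ζ - 0) / (ζ - w)) • F ζ))) 0 1 = 2 * F w := by
      rw [Real.circleAverage_fun_smul, h1, smul_eq_mul]
    rw [h4]
  -- conjugate part
  set c : ℂ := conj w with hc
  have hcn : ‖c‖ * 1 < 1 := by rw [hc, Complex.norm_conj, mul_one]; exact hw
  set Q : ℂ → ℂ := fun ζ => (1 + c * ζ) / (1 - c * ζ) * F ζ with hQ
  have hQd : DifferentiableOn ℂ Q (closedBall 0 1) := by
    intro ζ hζ
    have hζ' : ‖ζ‖ ≤ 1 := by simpa using hζ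
    have hne : 1 - c * ζ ≠ 0 := by
      intro h
      have := small_re hζ' hcn
      rw [h] at this; simp at this
    have hFat : DifferentiableWithinAt ℂ F (closedBall 0 1) ζ := hF1 ζ hζ
    have h1 : DifferentiableWithinAt ℂ (fun ζ : ℂ => (1 + c * ζ) / (1 - c * ζ)) (closedBall 0 1) ζ := by
      apply DifferentiableWithinAt.fun_div
      · fun_prop
      · fun_prop
      · exact hne
    exact h1.fun_mul hFat
  have e2 : circleAverage (fun ζ => herglotzRieszKernel 0 w ζ • conj (F ζ)) 0 1 = conj (F 0) := by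
    have h1 : circleAverage (fun ζ => herglotzRieszKernel 0 w ζ • conj (F ζ)) 0 1 =
        circleAverage (fun ζ => conj (Q ζ)) 0 1 := by
      apply Real.circleAverage_congr_sphere
      intro ζ hζ
      rw [abs_one] at hζ
      have h2 : ‖ζ‖ = 1 := by simpa using hζ
      have h3 : ζ * conj ζ = 1 := by
        rw [Complex.mul_conj, Complex.normSq_eq_norm_sq, h2]; norm_num
      have hz : ζ ≠ 0 := by
        intro h; rw [h, norm_zero] at h2; norm_num at h2
      have h5 : (ζ + w) / (ζ - w) = (1 + w * conj ζ) / (1 - w * conj ζ) := by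
        have h6 : ζ + w = ζ * (1 + w * conj ζ) := by
          calc ζ + w = ζ + w * 1 := by ring
            _ = ζ + w * (ζ * conj ζ) := by rw [h3]
            _ = _ := by ring
        have h7 : ζ - w = ζ * (1 - w * conj ζ) := by
          calc ζ - w = ζ - w * 1 := by ring
            _ = ζ - w * (ζ * conj ζ) := by rw [h3]
            _ = _ := by ring
        rw [h6, h7, mul_div_mul_left _ _ hz]
      simp only [herglotzRieszKernel_def, sub_zero, smul_eq_mul, hQ, map_mul, map_div₀, map_add,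
        map_sub, map_one, hc, Complex.conj_conj]
      rw [h5]
    rw [h1, avg_conj, avg_mean one_pos hQd, hQ]
    simp
  have e3 : circleAverage (fun ζ => herglotzRieszKernel 0 w ζ • (((F ζ).re : ℝ) : ℂ)) 0 1 =
      circleAverage (fun ζ => (1/2 : ℂ) • (herglotzRieszKernel 0 w ζ • F ζ +
        herglotzRieszKernel 0 w ζ • conj (F ζ))) 0 1 := by
    apply Real.circleAverage_congr_sphere
    intro ζ _
    simp only [smul_eq_mul]
    have : (((F ζ).re : ℝ) : ℂ) = (F ζ + conj (F ζ)) / 2 := by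
      rw [Complex.add_conj]; push_cast; ring
    rw [this]; ring
  have k1 : ContinuousOn (fun ζ => herglotzRieszKernel 0 w ζ • F ζ) (sphere 0 1) := kc.smul hFc
  have k2 : ContinuousOn (fun ζ => herglotzRieszKernel 0 w ζ • conj (F ζ)) (sphere 0 1) :=
    kc.smul (Complex.continuous_conj.comp_continuousOn hFc)
  have hreal : conj (F 0) = F 0 := Complex.conj_eq_iff_im.2 h0
  change circleAverage (fun ζ => herglotzRieszKernel 0 w ζ • (((F ζ).re : ℝ) : ℂ)) 0 1 = F w
  rw [e3, Real.circleAverage_fun_smul, Real.circleAverage_fun_add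
    (k1.circleIntegrable zero_le_one) (k2.circleIntegrable zero_le_one), e1, e2, hreal,
    smul_eq_mul]
  ring

section expo

variable {G : ℂ → ℂ} {c b g : ℝ}

/-- the exponential whose argument is small -/
noncomputable def Ex (G : ℂ → ℂ) (c g : ℝ) (w : ℂ) : ℂ :=
  Complex.exp (Complex.I * g * (G w - c))

lemma Ex_norm (w : ℂ) : ‖Ex G c g w‖ = Real.exp (-(g * (G w).im)) := by
  rw [Ex, Complex.norm_exp]
  congr 1
  simp

lemma Ex_re (_hb : |(G 0).re - c| ≤ b) {w : ℂ} (hw : |(G w).re - c| ≤ b) (hg : |g| * b < π / 2) :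
    Real.cos (|g| * b) * Real.exp (-(g * (G w).im)) ≤ (Ex G c g w).re := by
  have hb0 : 0 ≤ b := (abs_nonneg _).trans hw
  rw [Ex, Complex.exp_re]
  have h1 : (Complex.I * g * (G w - c)).re = -(g * (G w).im) := by simp
  have h2 : (Complex.I * g * (G w - c)).im = g * ((G w).re - c) := by simp
  rw [h1, h2, mul_comm]
  apply mul_le_mul_of_nonneg_left _ (Real.exp_pos _).le
  rw [← Real.cos_abs (g * ((G w).re - c))]
  apply Real.cos_le_cos_of_nonneg_of_le_pi (abs_nonneg _)
  · have : 0 ≤ |g| * b := by positivity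
    linarith [Real.pi_pos]
  · rw [abs_mul]
    exact mul_le_mul_of_nonneg_left hw (abs_nonneg _)

lemma Ex_diff (hG : DifferentiableOn ℂ G (ball 0 1)) : DifferentiableOn ℂ (Ex G c g) (ball 0 1) := by
  unfold Ex
  fun_prop

lemma Ex_zero (h0 : (G 0).im = 0) : (Ex G c g 0).re ≤ 1 := by
  refine (Complex.re_le_norm _).trans ?_
  rw [Ex_norm, h0]; simp

/-- mean of the exponential on smaller circles -/
lemma expo_mean (hG : DifferentiableOn ℂ G (ball 0 1)) (h0 : (G 0).im = 0)
    (hb : ∀ w : ℂ, ‖w‖ < 1 → |(G w).re - c| ≤ b) (hg : |g| * b < π / 2) {r : ℝ} (hr0 : 0 < r)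
    (hr1 : r < 1) :
    Real.cos (|g| * b) * circleAverage (fun w => Real.exp (-(g * (G w).im))) 0 r ≤ 1 := by
  have hsub : closedBall (0:ℂ) r ⊆ ball 0 1 := closedBall_subset_ball hr1
  have hE : DifferentiableOn ℂ (Ex G c g) (closedBall 0 r) := (Ex_diff hG).mono hsub
  have h1 : circleAverage (Ex G c g) 0 r = Ex G c g 0 := avg_mean hr0 hE
  have sph : sphere (0:ℂ) r ⊆ ball 0 1 := sphere_subset_closedBall.trans hsub
  have cE : ContinuousOn (Ex G c g) (sphere 0 r) := (Ex_diff hG).continuousOn.mono sph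
  have cG : ContinuousOn (fun w => Real.exp (-(g * (G w).im))) (sphere 0 r) := by
    have : ContinuousOn (fun w => (G w).im) (sphere 0 r) :=
      Complex.continuous_im.comp_continuousOn (hG.continuousOn.mono sph)
    fun_prop
  have h2 : circleAverage (fun w => (Ex G c g w).re) 0 r = (Ex G c g 0).re := by
    rw [← h1]
    exact (Complex.reCLM.circleAverage_comp_comm (cE.circleIntegrable hr0.le))
  have h3 : circleAverage (fun w => Real.cos (|g| * b) * Real.exp (-(g * (G w).im))) 0 r ≤
      circleAverage (fun w => (Ex G c g w).re) 0 r := by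
    apply Real.circleAverage_mono
    · exact (continuousOn_const.mul cG).circleIntegrable hr0.le
    · exact (Complex.continuous_re.comp_continuousOn cE).circleIntegrable hr0.le
    · intro w hw
      rw [abs_of_pos hr0] at hw
      have hw1 : ‖w‖ < 1 := by simpa using sph hw
      exact Ex_re (hb 0 (by simp)) (hb w hw1) hg
  have h4 : circleAverage (fun w => Real.cos (|g| * b) * Real.exp (-(g * (G w).im))) 0 r =
      Real.cos (|g| * b) * circleAverage (fun w => Real.exp (-(g * (G w).im))) 0 r := by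
    have := Real.circleAverage_fun_smul (a := Real.cos (|g| * b))
      (f := fun w => Real.exp (-(g * (G w).im))) (c := (0:ℂ)) (R := r)
    simpa only [smul_eq_mul] using this
  rw [← h4]
  exact (h3.trans h2.le).trans (Ex_zero h0)

/-- Harnack bound -/
lemma expo_harnack (hG : DifferentiableOn ℂ G (ball 0 1)) (h0 : (G 0).im = 0)
    (hb : ∀ w : ℂ, ‖w‖ < 1 → |(G w).re - c| ≤ b) (hg : |g| * b < π / 2) {w : ℂ} (hw : ‖w‖ < 1) :
    Real.cos (|g| * b) * Real.exp (-(g * (G w).im)) ≤ 4 / (1 - ‖w‖) := by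
  set r := ‖w‖ with hr
  have hr0 : 0 ≤ r := norm_nonneg _
  set R' := (1 + r) / 2 with hR'
  have hR0 : 0 < R' := by rw [hR']; linarith
  have hR1 : R' < 1 := by rw [hR']; linarith
  have hrR : r < R' := by rw [hR']; linarith
  have hsub : closedBall (0:ℂ) R' ⊆ ball 0 1 := closedBall_subset_ball hR1
  have sph : sphere (0:ℂ) R' ⊆ ball 0 1 := sphere_subset_closedBall.trans hsub
  have hdc : DiffContOnCl ℂ (Ex G c g) (ball 0 R') := by
    apply DifferentiableOn.diffContOnCl
    rw [closure_ball _ hR0.ne']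
    exact (Ex_diff hG).mono hsub
  have hwb : w ∈ ball (0:ℂ) R' := by simpa using hrR
  have h1 := hdc.circleAverage_re_herglotzRieszKernel_smul hwb
  have cE : ContinuousOn (Ex G c g) (sphere 0 R') := (Ex_diff hG).continuousOn.mono sph
  have kc : ContinuousOn (herglotzRieszKernel 0 w) (sphere 0 R') := by
    have := continuousOn_herglotzRieszKernel_sphere hwb
    rwa [abs_of_pos hR0] at this
  have kcr : ContinuousOn (Complex.re ∘ herglotzRieszKernel 0 w) (sphere 0 R') :=
    Complex.continuous_re.comp_continuousOn kc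
  have h2 : (Ex G c g w).re =
      circleAverage (fun ζ => (herglotzRieszKernel 0 w ζ).re * (Ex G c g ζ).re) 0 R' := by
    rw [← h1]
    have h3 := (Complex.reCLM.circleAverage_comp_comm
      ((kcr.smul cE).circleIntegrable hR0.le)).symm
    refine h3.trans ?_
    apply Real.circleAverage_congr_sphere
    intro ζ _
    simp [Function.comp_apply]
  have hpos : ∀ ζ ∈ sphere (0:ℂ) R', 0 ≤ (Ex G c g ζ).re := by
    intro ζ hζ
    have hζ1 : ‖ζ‖ < 1 := by simpa using sph hζ
    have h3 := Ex_re (hb 0 (by simp)) (hb ζ hζ1) hg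
    have hb0 : 0 ≤ b := (abs_nonneg _).trans (hb 0 (by simp))
    have h4 : 0 ≤ Real.cos (|g| * b) := by
      apply Real.cos_nonneg_of_neg_pi_div_two_le_of_le
      · have : 0 ≤ |g| * b := by positivity
        linarith [Real.pi_pos]
      · exact hg.le
    have h5 : 0 ≤ Real.cos (|g| * b) * Real.exp (-(g * (G ζ).im)) :=
      mul_nonneg h4 (Real.exp_pos _).le
    linarith
  have h6 : (Ex G c g w).re ≤ 4 / (1 - r) * (Ex G c g 0).re := by
    have hmean : circleAverage (fun w => (Ex G c g w).re) 0 R' = (Ex G c g 0).re := by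
      have h7 : circleAverage (Ex G c g) 0 R' = Ex G c g 0 :=
        avg_mean hR0 ((Ex_diff hG).mono hsub)
      rw [← h7]
      exact (Complex.reCLM.circleAverage_comp_comm (cE.circleIntegrable hR0.le))
    have h8 : circleAverage (fun ζ => (4 / (1 - r)) * (Ex G c g ζ).re) 0 R' =
        4 / (1 - r) * (Ex G c g 0).re := by
      have := Real.circleAverage_fun_smul (a := 4 / (1 - r))
        (f := fun w => (Ex G c g w).re) (c := (0:ℂ)) (R := R')
      rw [← hmean]
      simpa only [smul_eq_mul] using this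
    rw [h2, ← h8]
    apply Real.circleAverage_mono
    · exact (kcr.mul (Complex.continuous_re.comp_continuousOn cE)).circleIntegrable hR0.le
    · exact (continuousOn_const.mul
        (Complex.continuous_re.comp_continuousOn cE)).circleIntegrable hR0.le
    · intro ζ hζ
      rw [abs_of_pos hR0] at hζ
      apply mul_le_mul_of_nonneg_right _ (hpos ζ hζ)
      have h9 := re_herglotzRieszKernel_le hζ hwb
      rw [herglotzRieszKernel_def]
      refine h9.trans ?_
      simp only [sub_zero]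
      rw [← hr, div_le_div_iff₀ (by linarith) (by linarith)]
      rw [hR']
      nlinarith
  have h10 := Ex_re (hb 0 (by simp)) (hb w hw) hg
  have h11 : 4 / (1 - r) * (Ex G c g 0).re ≤ 4 / (1 - r) * 1 :=
    mul_le_mul_of_nonneg_left (Ex_zero h0) (div_nonneg (by norm_num) (by linarith))
  linarith

end expo

/-- Two boundary functions which agree near a point have close Schwarz integrals there. -/
lemma SI_diff {v v' : ℂ → ℝ} (hv : ContinuousOn v (sphere 0 1)) (hv' : ContinuousOn v' (sphere 0 1))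
    {ζ₀ : ℂ} {δ B : ℝ} (hδ : 0 < δ) (hB : 0 ≤ B)
    (heq : ∀ ζ ∈ sphere (0:ℂ) 1, ‖ζ - ζ₀‖ ≤ δ / 2 → v ζ = v' ζ)
    (hbd : ∀ ζ ∈ sphere (0:ℂ) 1, |v ζ - v' ζ| ≤ B) {u : ℂ} (hu : ‖u‖ = 1) (huz : ‖u - ζ₀‖ ≤ δ / 4)
    {r : ℝ} (hr0 : 0 ≤ r) (hr1 : r < 1) : ‖SI v (r * u) - SI v' (r * u)‖ ≤ 16 * B / δ := by
  have hw : ‖(r * u : ℂ)‖ < 1 := by
    rw [norm_mul, hu, mul_one, Complex.norm_real, Real.norm_eq_abs, abs_of_nonneg hr0]; exact hr1
  have kc : ContinuousOn (herglotzRieszKernel 0 (r * u)) (sphere 0 1) := ker_cont hw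
  have c1 : ContinuousOn (fun ζ => herglotzRieszKernel 0 (r * u) ζ • (v ζ : ℂ)) (sphere 0 1) :=
    kc.smul (Complex.continuous_ofReal.comp_continuousOn hv)
  have c2 : ContinuousOn (fun ζ => herglotzRieszKernel 0 (r * u) ζ • (v' ζ : ℂ)) (sphere 0 1) :=
    kc.smul (Complex.continuous_ofReal.comp_continuousOn hv')
  have h1 : SI v (r * u) - SI v' (r * u) = circleAverage (fun ζ =>
      herglotzRieszKernel 0 (r * u) ζ • (v ζ : ℂ) - herglotzRieszKernel 0 (r * u) ζ • (v' ζ : ℂ)) 0 1 :=
    (Real.circleAverage_fun_sub (c1.circleIntegrable zero_le_one)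
      (c2.circleIntegrable zero_le_one)).symm
  rw [h1, Real.circleAverage_def, norm_smul]
  have h2 : ‖∫ t in (0:ℝ)..(2 * π), (herglotzRieszKernel 0 (r * u) (circleMap 0 1 t) •
      (v (circleMap 0 1 t) : ℂ) - herglotzRieszKernel 0 (r * u) (circleMap 0 1 t) •
      (v' (circleMap 0 1 t) : ℂ))‖ ≤ (16 * B / δ) * |2 * π - 0| := by
    apply intervalIntegral.norm_integral_le_of_norm_le_const
    intro t _
    set ζ := circleMap 0 1 t with hζdef
    have hζ : ζ ∈ sphere (0:ℂ) 1 := circleMap_mem_sphere 0 zero_le_one t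
    have hζn : ‖ζ‖ = 1 := by simpa using hζ
    rw [← smul_sub, norm_smul, ← Complex.ofReal_sub, Complex.norm_real, Real.norm_eq_abs]
    by_cases hnear : ‖ζ - ζ₀‖ ≤ δ / 2
    · rw [heq ζ hζ hnear, sub_self, abs_zero, mul_zero]
      positivity
    · have hfar : δ / 2 < ‖ζ - ζ₀‖ := not_le.1 hnear
      have h3 : δ / 4 ≤ ‖ζ - u‖ := by
        have : ‖ζ - ζ₀‖ ≤ ‖ζ - u‖ + ‖u - ζ₀‖ := by
          have h4 : ζ - ζ₀ = (ζ - u) + (u - ζ₀) := by ring
          calc ‖ζ - ζ₀‖ = ‖(ζ - u) + (u - ζ₀)‖ := by rw [← h4]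
            _ ≤ _ := norm_add_le _ _
        linarith
      have hz : ζ ≠ 0 := by
        intro h; rw [h, norm_zero] at hζn; norm_num at hζn
      have h5 : ‖ζ - u‖ / 2 ≤ ‖ζ - r * u‖ := by
        have hq : ‖u / ζ‖ = 1 := by rw [norm_div, hu, hζn, div_one]
        have h6 := half_le hq hr0 hr1.le
        have h7 : ‖1 - u / ζ‖ = ‖ζ - u‖ := by
          have : 1 - u / ζ = (ζ - u) / ζ := by field_simp
          rw [this, norm_div, hζn, div_one]
        have h8 : ‖1 - r * (u / ζ)‖ = ‖ζ - r * u‖ := by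
          have : 1 - r * (u / ζ) = (ζ - r * u) / ζ := by field_simp
          rw [this, norm_div, hζn, div_one]
        rw [h7, h8] at h6; exact h6
      have h9 : ‖herglotzRieszKernel 0 (r * u) ζ‖ ≤ 16 / δ := by
        rw [herglotzRieszKernel_def]
        simp only [sub_zero]
        rw [norm_div]
        have hnum : ‖ζ + r * u‖ ≤ 2 := by
          refine (norm_add_le _ _).trans ?_
          rw [hζn]; linarith
        have hden : δ / 8 ≤ ‖ζ - r * u‖ := by linarith
        calc ‖ζ + r * u‖ / ‖ζ - r * u‖ ≤ 2 / (δ / 8) :=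
              div_le_div₀ (by norm_num) hnum (by positivity) hden
          _ = 16 / δ := by field_simp; norm_num
      calc ‖herglotzRieszKernel 0 (r * u) ζ‖ * |v ζ - v' ζ| ≤ (16 / δ) * B :=
            mul_le_mul h9 (hbd ζ hζ) (abs_nonneg _) (by positivity)
        _ = _ := by ring
  have hpi : (0:ℝ) < 2 * π := by positivity
  rw [sub_zero, abs_of_pos hpi] at h2
  rw [Real.norm_eq_abs, abs_of_pos (inv_pos.2 hpi), inv_mul_le_iff₀ hpi]
  linarith

end Marsh96
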