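import Pool.Agent.Lib.Marsh96.SMeas
import Pool.Agent.Lib.Marsh96.Final

open MeasureTheory Set Filter Topology Metric
open scoped Real ComplexConjugate

namespace Marsh96

/-- The bound for functions on the disc, signed version. -/
theorem disc_bound' (V : ℝ) (hV1 : 1 ≤ V) (a : ℝ) (ha0 : 0 < a) (haV : a * V ^ 2 < 1) :
    ∃ C R₀ : ℝ, 1 < R₀ ∧
    ∀ H : ℂ → ℂ, DifferentiableOn ℂ H (ball 0 1) → H 0 = 0 → deriv H 0 = 0 →
      (∀ s : ℝ, 0 < s → s < 1 → (2 * π)⁻¹ * ∫ t in (0:ℝ)..(2 * π),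
        |(1 - circleMap 0 s t * deriv H (circleMap 0 s t)).re| ≤ V) →
      ∀ R : ℝ, 1 < R → R < R₀ →
      (2 * π)⁻¹ * ∫ t in (0:ℝ)..(2 * π),
        Real.exp (a * ‖H (R⁻¹ * e (-t))‖ ^ 2 / Real.log (R ^ 2 / (R ^ 2 - 1))) ≤ C := by
  obtain ⟨C, R₀, hR₀, hC⟩ := score V hV1 a ha0 haV
  refine ⟨C, R₀, hR₀, ?_⟩
  intro H hH H0 H1 hpos R hR1 hR2
  have hR : 0 < R := by linarith
  have hi0 : 0 < R⁻¹ := inv_pos.2 hR
  have hi1 : R⁻¹ < 1 := inv_lt_one_of_one_lt₀ hR1
  set L := Real.log (R ^ 2 / (R ^ 2 - 1)) with hL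
  set c : ℝ → ℝ := fun s => max 0 (min s 1) with hc
  have hc0 : ∀ s, 0 ≤ c s := fun s => le_max_left _ _
  have hc1 : ∀ s, c s ≤ 1 := fun s => max_le (by norm_num) (min_le_right _ _)
  have hcc : Continuous c := by simp only [hc]; fun_prop
  set F : ℝ → ℝ → ℝ := fun s t => Real.exp (a * ‖H (c s * (R⁻¹ * e (-t)))‖ ^ 2 / L) with hF
  have hin : ∀ s t : ℝ, ‖((c s : ℂ) * (R⁻¹ * e (-t)))‖ < 1 := by
    intro s t
    rw [norm_mul, norm_mul, norm_e, mul_one, Complex.norm_real, Real.norm_eq_abs,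
      abs_of_nonneg (hc0 s), Complex.norm_real, Real.norm_eq_abs, abs_of_pos hi0]
    have h1 := hc0 s
    have h2 := hc1 s
    nlinarith
  have hFc : Continuous (Function.uncurry F) := by
    have h1 : Continuous fun p : ℝ × ℝ => ((c p.1 : ℂ) * (R⁻¹ * e (-p.2))) := by
      have := cont_e
      fun_prop
    have h2 : Continuous fun p : ℝ × ℝ => H ((c p.1 : ℂ) * (R⁻¹ * e (-p.2))) :=
      hH.continuousOn.comp_continuous h1 (fun p => by simpa using hin p.1 p.2)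
    have h3 : Continuous fun p : ℝ × ℝ =>
        a * ‖H ((c p.1 : ℂ) * (R⁻¹ * e (-p.2)))‖ ^ 2 / L :=
      (continuous_const.mul (h2.norm.pow 2)).div_const L
    exact Real.continuous_exp.comp h3
  have hI : Continuous fun s => ∫ t in (0:ℝ)..(2 * π), F s t :=
    intervalIntegral.continuous_parametric_intervalIntegral_of_continuous' hFc 0 (2 * π)
  have hbound : ∀ s ∈ Ioo (0:ℝ) 1, (2 * π)⁻¹ * ∫ t in (0:ℝ)..(2 * π), F s t ≤ C := by
    intro s hs
    obtain ⟨μ, ν, hμ, hν, hμ0, hμV, hK⟩ := exists_measures hH H0 H1 hs.1 hs.2 (hpos s hs.1 hs.2)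
    have h1 := hC μ ν hμ0 hμV R hR1 hR2
    have hcs : c s = s := by
      simp only [hc]
      rw [min_eq_left hs.2.le, max_eq_right hs.1.le]
    have h2 : ∀ t, F s t =
        Real.exp (a * ‖K μ (R⁻¹ * e (-t)) - K ν (R⁻¹ * e (-t))‖ ^ 2 / L) := by
      intro t
      simp only [hF]
      rw [hcs, hK]
      rw [norm_mul, norm_e, mul_one, Complex.norm_real, Real.norm_eq_abs, abs_of_pos hi0]
      exact hi1
    simp_rw [h2]
    exact h1
  have hlim : Tendsto (fun s => (2 * π)⁻¹ * ∫ t in (0:ℝ)..(2 * π), F s t) (𝓝[<] (1:ℝ))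
      (𝓝 ((2 * π)⁻¹ * ∫ t in (0:ℝ)..(2 * π), F 1 t)) :=
    ((continuous_const.mul hI).tendsto 1).mono_left nhdsWithin_le_nhds
  have hfin := le_of_tendsto hlim (by
    filter_upwards [Ioo_mem_nhdsLT (show (0:ℝ) < 1 by norm_num)] with s hs
    exact hbound s hs)
  have hc11 : c 1 = 1 := by simp [hc]
  simp only [hF, hc11] at hfin
  simpa using hfin

/-- reflection of a periodic real integrand -/
lemma refl_int' {f : ℝ → ℝ} (hf : Function.Periodic f (2 * π)) :
    ∫ t in (0:ℝ)..(2 * π), f (-t) = ∫ t in (0:ℝ)..(2 * π), f t := by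
  rw [intervalIntegral.integral_comp_neg]
  have := hf.intervalIntegral_add_eq (-(2 * π)) 0
  simpa using this

lemma cm_inv {R t : ℝ} : (R * Complex.exp (t * Complex.I) : ℂ)⁻¹ = circleMap 0 R⁻¹ (-t) := by
  rw [circleMap_zero]
  push_cast
  rw [neg_mul, Complex.exp_neg, mul_inv]

/-- the integrand of the rotation in the coordinate of the disc -/
lemma inner_re {ψ h : ℂ → ℂ} (hb : LogBranch ψ h) {R : ℝ} (hR : 1 < R) (t : ℝ) :
    (1 + (R * Complex.exp (t * Complex.I)) * deriv (deriv ψ) (R * Complex.exp (t * Complex.I)) /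
      deriv ψ (R * Complex.exp (t * Complex.I))) =
    (1 - circleMap 0 R⁻¹ (-t) * deriv (inner h) (circleMap 0 R⁻¹ (-t))) := by
  set z : ℂ := R * Complex.exp (t * Complex.I) with hz
  have hR0 : 0 < R := by linarith
  have hzn : ‖z‖ = R := by
    rw [hz, norm_mul, Complex.norm_exp_ofReal_mul_I, mul_one, Complex.norm_real, Real.norm_eq_abs,
      abs_of_pos hR0]
  have hz1 : 1 < ‖z‖ := by rw [hzn]; exact hR
  have hz0 : z ≠ 0 := by
    intro h0; rw [h0, norm_zero] at hzn; linarith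
  rw [← cm_inv, ← hz, mul_div_assoc, second hb hz1]
  have h1 : ‖z⁻¹‖ < 1 := by rw [norm_inv, hzn]; exact inv_lt_one_of_one_lt₀ hR
  rw [(inner_hasDeriv hb (inv_ne_zero hz0) h1).deriv, inv_inv]
  have h4 : z⁻¹ * (z⁻¹ ^ 2)⁻¹ = z := by field_simp
  calc 1 + z * deriv h z = 1 + (z⁻¹ * (z⁻¹ ^ 2)⁻¹) * deriv h z := by rw [h4]
    _ = _ := by ring

lemma cm_per (s : ℝ) : Function.Periodic (circleMap 0 s) (2 * π) := periodic_circleMap 0 s

lemma rot_eq {ψ h : ℂ → ℂ} (hb : LogBranch ψ h) {R : ℝ} (hR : 1 < R) (φ : ℝ → ℝ) :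
    ∫ t in (0:ℝ)..(2 * π), φ (1 + (R * Complex.exp (t * Complex.I)) *
      deriv (deriv ψ) (R * Complex.exp (t * Complex.I)) /
      deriv ψ (R * Complex.exp (t * Complex.I))).re =
    ∫ t in (0:ℝ)..(2 * π), φ (1 - circleMap 0 R⁻¹ t * deriv (inner h) (circleMap 0 R⁻¹ t)).re := by
  simp_rw [inner_re hb hR]
  have hper : Function.Periodic (fun t =>
      φ (1 - circleMap 0 R⁻¹ t * deriv (inner h) (circleMap 0 R⁻¹ t)).re) (2 * π) := by
    intro t
    simp only []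
    rw [cm_per R⁻¹ t]
  exact refl_int' hper

/-- Marshall's bound for bounded boundary rotation. -/
theorem main_rotation (k : ℝ) (hk : 2 ≤ k) (a : ℝ) (ha0 : 0 < a) (hak : a * k ^ 2 < 4) :
    ∃ C R₀ : ℝ, 1 < R₀ ∧ ∀ ψ h : ℂ → ℂ, LogBranch ψ h → RotationLE ψ k →
      ∀ R : ℝ, 1 < R → R < R₀ → marshallIntegral a R h ≤ C := by
  obtain ⟨C, R₀, hR₀, hC⟩ := disc_bound' (k / 2) (by linarith) a ha0 (by nlinarith)
  refine ⟨C, R₀, hR₀, ?_⟩
  intro ψ h hb hc R hR1 hR2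
  have h1 := hC (inner h) (inner_diff hb) inner_zero (inner_deriv_zero hb) (by
    intro s hs0 hs1
    have h2 := hc s⁻¹ ((one_lt_inv₀ hs0).2 hs1)
    rw [rot_eq hb ((one_lt_inv₀ hs0).2 hs1) (fun x => |x|), inv_inv] at h2
    rw [inv_mul_le_iff₀ (by positivity)]
    refine h2.trans (le_of_eq ?_)
    ring) R hR1 hR2
  rw [marshallIntegral]
  have h2 : ∀ t : ℝ, inner h (R⁻¹ * e (-t)) = h (R * Complex.exp (t * Complex.I)) := by
    intro t
    have hR : (R:ℂ) ≠ 0 := by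
      have : 0 < R := by linarith
      exact_mod_cast this.ne'
    have h3 : (R⁻¹ * e (-t) : ℂ)⁻¹ = R * Complex.exp (t * Complex.I) := by
      simp only [e]
      push_cast
      rw [neg_mul, Complex.exp_neg, mul_inv, inv_inv, inv_inv]
    have h4 : (R⁻¹ * e (-t) : ℂ) ≠ 0 := by
      apply mul_ne_zero (by rw [Complex.ofReal_inv]; exact inv_ne_zero hR)
      intro h0; have := norm_e (-t); rw [h0] at this; simp at this
    rw [inner_ne h4, h3]
  simp only [h2, mul_div_assoc] at h1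
  exact h1

/-- Maps with convex omitted set have boundary rotation at most `2 pi`. -/
theorem rotation_of_convex {ψ h : ℂ → ℂ} (hb : LogBranch ψ h) (hc : ConvexOmitted ψ) :
    RotationLE ψ 2 := by
  intro R hR
  have hR0 : 0 < R := by linarith
  rw [rot_eq hb hR (fun x => |x|)]
  have hs0 : 0 < R⁻¹ := inv_pos.2 hR0
  have hs1 : R⁻¹ < 1 := inv_lt_one_of_one_lt₀ hR
  have hH := inner_diff hb
  have hcm : ∀ t, ‖circleMap 0 R⁻¹ t‖ = R⁻¹ := fun t => by
    have := circleMap_mem_sphere (0:ℂ) hs0.le t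
    simpa using this
  have hcm1 : ∀ t, ‖circleMap 0 R⁻¹ t‖ < 1 := fun t => by rw [hcm t]; exact hs1
  have habs : ∀ t, |(1 - circleMap 0 R⁻¹ t * deriv (inner h) (circleMap 0 R⁻¹ t)).re| =
      (1 - circleMap 0 R⁻¹ t * deriv (inner h) (circleMap 0 R⁻¹ t)).re := fun t =>
    abs_of_nonneg (inner_pos hb hc _ (hcm1 t))
  simp only [habs]
  have h1 := mean_one hs0 hs1 hH
  have h2 : (Real.circleAverage (fun ζ => 1 - ζ * deriv (inner h) ζ) 0 R⁻¹).re = 1 := by
    rw [h1]; simp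
  rw [Real.circleAverage_def] at h2
  have hcont : Continuous fun t => 1 - circleMap 0 R⁻¹ t * deriv (inner h) (circleMap 0 R⁻¹ t) := by
    have h1 : Continuous fun t => deriv (inner h) (circleMap 0 R⁻¹ t) :=
      (dH hH).continuousOn.comp_continuous (continuous_circleMap 0 R⁻¹)
        (fun t => by simpa using hcm1 t)
    have h2 := continuous_circleMap 0 R⁻¹
    fun_prop
  have h3 : ∫ t in (0:ℝ)..(2 * π),
      (1 - circleMap 0 R⁻¹ t * deriv (inner h) (circleMap 0 R⁻¹ t)).re =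
      (∫ t in (0:ℝ)..(2 * π), (1 - circleMap 0 R⁻¹ t * deriv (inner h) (circleMap 0 R⁻¹ t))).re := by
    rw [intervalIntegral.integral_of_le (by positivity),
      intervalIntegral.integral_of_le (by positivity)]
    exact Complex.reCLM.integral_comp_comm ((hcont.intervalIntegrable 0 (2 * π)).1)
  rw [h3]
  rw [Complex.real_smul, Complex.re_ofReal_mul] at h2
  have hpi : (2 * π) ≠ 0 := by positivity
  rw [inv_mul_eq_iff_eq_mul₀ hpi] at h2
  rw [h2]
  linarith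

end Marsh96
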