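import Pool.Agent.Lib.Marsh96.OscB
import Pool.Agent.Lib.Marsh96.SFinal

open MeasureTheory Set Filter Topology Metric
open scoped Real ComplexConjugate

namespace Marsh96

open Real (circleAverage)

/-- passage to the limit in the dilation -/
theorem dil_limit {H : ℂ → ℂ} (hH : DifferentiableOn ℂ H (ball 0 1)) {R a L C : ℝ} (hR1 : 1 < R)
    (hb : ∀ s ∈ Ioo (0:ℝ) 1, (2 * π)⁻¹ * ∫ t in (0:ℝ)..(2 * π),
        Real.exp (a * ‖H (s * (R⁻¹ * e (-t)))‖ ^ 2 / L) ≤ C) :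
    (2 * π)⁻¹ * ∫ t in (0:ℝ)..(2 * π), Real.exp (a * ‖H (R⁻¹ * e (-t))‖ ^ 2 / L) ≤ C := by
  have hR : 0 < R := by linarith
  have hi0 : 0 < R⁻¹ := inv_pos.2 hR
  have hi1 : R⁻¹ < 1 := inv_lt_one_of_one_lt₀ hR1
  set c : ℝ → ℝ := fun s => max 0 (min s 1) with hc
  have hc0 : ∀ s, 0 ≤ c s := fun s => le_max_left _ _
  have hc1 : ∀ s, c s ≤ 1 := fun s => max_le (by norm_num) (min_le_right _ _)
  have hcc : Continuous c := by simp only [hc]; fun_prop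
  set F : ℝ → ℝ → ℝ := fun s t => Real.exp (a * ‖H (c s * ((R⁻¹ : ℝ) * e (-t)))‖ ^ 2 / L) with hF
  have hin : ∀ s t : ℝ, ‖((c s : ℂ) * ((R⁻¹ : ℝ) * e (-t)))‖ < 1 := by
    intro s t
    rw [norm_mul, norm_mul, norm_e, mul_one, Complex.norm_real, Real.norm_eq_abs,
      abs_of_nonneg (hc0 s), Complex.norm_real, Real.norm_eq_abs, abs_of_pos hi0]
    have h1 := hc0 s
    have h2 := hc1 s
    nlinarith
  have hFc : Continuous (Function.uncurry F) := by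
    have h1 : Continuous fun p : ℝ × ℝ => ((c p.1 : ℂ) * ((R⁻¹ : ℝ) * e (-p.2))) := by
      have := cont_e
      fun_prop
    have h2 : Continuous fun p : ℝ × ℝ => H ((c p.1 : ℂ) * ((R⁻¹ : ℝ) * e (-p.2))) :=
      hH.continuousOn.comp_continuous h1 (fun p => by simpa using hin p.1 p.2)
    have h3 : Continuous fun p : ℝ × ℝ =>
        a * ‖H ((c p.1 : ℂ) * ((R⁻¹ : ℝ) * e (-p.2)))‖ ^ 2 / L :=
      (continuous_const.mul (h2.norm.pow 2)).div_const L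
    exact Real.continuous_exp.comp h3
  have hI : Continuous fun s => ∫ t in (0:ℝ)..(2 * π), F s t :=
    intervalIntegral.continuous_parametric_intervalIntegral_of_continuous' hFc 0 (2 * π)
  have hbound : ∀ s ∈ Ioo (0:ℝ) 1, (2 * π)⁻¹ * ∫ t in (0:ℝ)..(2 * π), F s t ≤ C := by
    intro s hs
    have hcs : c s = s := by
      simp only [hc]
      rw [min_eq_left hs.2.le, max_eq_right hs.1.le]
    simp only [hF, hcs]
    exact hb s hs
  have hlim : Tendsto (fun s => (2 * π)⁻¹ * ∫ t in (0:ℝ)..(2 * π), F s t) (𝓝[<] (1:ℝ))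
      (𝓝 ((2 * π)⁻¹ * ∫ t in (0:ℝ)..(2 * π), F 1 t)) :=
    ((continuous_const.mul hI).tendsto 1).mono_left nhdsWithin_le_nhds
  have hfin := le_of_tendsto hlim (by
    filter_upwards [Ioo_mem_nhdsLT (show (0:ℝ) < 1 by norm_num)] with s hs
    exact hbound s hs)
  have hc11 : c 1 = 1 := by simp [hc]
  simp only [hF, hc11, Complex.ofReal_one, one_mul] at hfin
  exact hfin

lemma exists_center {S : Set ℝ} (hne : S.Nonempty) {D : ℝ}
    (h : ∀ x ∈ S, ∀ y ∈ S, |x - y| ≤ D) : ∃ c : ℝ, ∀ x ∈ S, |x - c| ≤ D / 2 := by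
  obtain ⟨x0, hx0⟩ := hne
  have hba : BddAbove S := ⟨x0 + D, fun x hx => by
    have := (abs_le.1 (h x hx x0 hx0)).2; linarith⟩
  have hbb : BddBelow S := ⟨x0 - D, fun x hx => by
    have := (abs_le.1 (h x hx x0 hx0)).1; linarith⟩
  have h1 : sSup S ≤ sInf S + D := by
    apply csSup_le ⟨x0, hx0⟩
    intro x hx
    have h2 : x - D ≤ sInf S := by
      apply le_csInf ⟨x0, hx0⟩
      intro y hy
      have := (abs_le.1 (h x hx y hy)).2; linarith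
    linarith
  refine ⟨(sSup S + sInf S) / 2, fun x hx => ?_⟩
  have h3 := le_csSup hba hx
  have h4 := csInf_le hbb hx
  rw [abs_le]; constructor <;> linarith

/-- Local comparison function. -/
lemma exists_local {F : ℂ → ℂ} (hF : DifferentiableOn ℂ F (ball 0 1)) (F0 : F 0 = 0) {β δ B : ℝ}
    (hβ : 0 < β) (hδ : 0 < δ) (hB : ∀ w : ℂ, ‖w‖ < 1 → |(F w).re| ≤ B) {s : ℝ} (hs0 : 0 < s)
    (hs1 : s < 1)
    (hosc : ∀ u u' : ℂ, ‖u‖ = 1 → ‖u'‖ = 1 → ‖u - u'‖ ≤ δ →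
      |(F (s * u)).re - (F (s * u')).re| ≤ β * π) {ζ₀ : ℂ} (hζ₀ : ‖ζ₀‖ = 1) :
    ∃ (G : ℂ → ℂ) (c : ℝ), DifferentiableOn ℂ G (ball 0 1) ∧ (G 0).im = 0 ∧
      (∀ w : ℂ, ‖w‖ < 1 → |(G w).re - c| ≤ β * π / 2) ∧
      ∀ u : ℂ, ‖u‖ = 1 → ‖u - ζ₀‖ ≤ δ / 4 → ∀ r : ℝ, 0 ≤ r → r < 1 →
        ‖F (s * (r * u)) - G (r * u)‖ ≤ 16 * (2 * B + β * π) / δ * 1 := by
  set v : ℂ → ℝ := fun ζ => (F (s * ζ)).re with hv
  have hFs : DifferentiableOn ℂ (fun ζ => F (s * ζ)) (ball 0 s⁻¹) := by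
    apply hF.comp (by fun_prop)
    intro ζ hζ
    have h1 : ‖ζ‖ < s⁻¹ := by simpa using hζ
    have h2 : ‖(s * ζ : ℂ)‖ < 1 := by
      rw [norm_mul, Complex.norm_real, Real.norm_eq_abs, abs_of_pos hs0]
      calc s * ‖ζ‖ < s * s⁻¹ := mul_lt_mul_of_pos_left h1 hs0
        _ = 1 := mul_inv_cancel₀ hs0.ne'
    simpa using h2
  have hs1' : 1 < s⁻¹ := (one_lt_inv₀ hs0).2 hs1
  have sub1 : sphere (0:ℂ) 1 ⊆ ball 0 s⁻¹ := sphere_subset_ball hs1'
  have cv : ContinuousOn v (sphere 0 1) :=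
    Complex.continuous_re.comp_continuousOn (hFs.continuousOn.mono sub1)
  have hn : ∀ ζ ∈ sphere (0:ℂ) 1, ‖(s * ζ : ℂ)‖ < 1 := by
    intro ζ hζ
    have h2 : ‖ζ‖ = 1 := by simpa using hζ
    rw [norm_mul, h2, mul_one, Complex.norm_real, Real.norm_eq_abs, abs_of_pos hs0]; exact hs1
  set S : Set ℝ := v '' {ζ | ‖ζ‖ = 1 ∧ ‖ζ - ζ₀‖ ≤ δ / 2} with hS
  have hSne : v ζ₀ ∈ S := ⟨ζ₀, ⟨hζ₀, by simp; positivity⟩, rfl⟩
  obtain ⟨c, hc⟩ := exists_center (S := S) ⟨_, hSne⟩ (D := β * π) (by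
    rintro x ⟨ζ, ⟨h1, h2⟩, rfl⟩ y ⟨ζ', ⟨h3, h4⟩, rfl⟩
    apply hosc ζ ζ' h1 h3
    have : ζ - ζ' = (ζ - ζ₀) - (ζ' - ζ₀) := by ring
    rw [this]
    refine (norm_sub_le _ _).trans ?_
    linarith)
  set b := β * π / 2 with hb
  have hbpos : 0 < b := by rw [hb]; positivity
  set v' : ℂ → ℝ := fun ζ => max (c - b) (min (v ζ) (c + b)) with hv'
  have cv' : ContinuousOn v' (sphere 0 1) :=
    (continuousOn_const).sup (cv.inf continuousOn_const)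
  have hvc : ∀ ζ, |v' ζ - c| ≤ b := by
    intro ζ
    simp only [hv']
    rw [abs_le]
    constructor
    · have := le_max_left (c - b) (min (v ζ) (c + b)); linarith
    · have : max (c - b) (min (v ζ) (c + b)) ≤ c + b :=
        max_le (by linarith) (min_le_right _ _)
      linarith
  have heq : ∀ ζ ∈ sphere (0:ℂ) 1, ‖ζ - ζ₀‖ ≤ δ / 2 → v ζ = v' ζ := by
    intro ζ hζ h1
    have h2 : ‖ζ‖ = 1 := by simpa using hζ
    have h3 := hc (v ζ) ⟨ζ, ⟨h2, h1⟩, rfl⟩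
    rw [abs_le] at h3
    simp only [hv']
    rw [min_eq_left (by linarith [h3.2]), max_eq_right (by linarith [h3.1])]
  have hBv : ∀ ζ ∈ sphere (0:ℂ) 1, |v ζ| ≤ B := fun ζ hζ => hB _ (hn ζ hζ)
  have hcB : |c| ≤ B + b := by
    have h1 := hc _ hSne
    have h2 := hBv ζ₀ (by simpa using hζ₀)
    rw [abs_le] at *
    constructor <;> linarith [h1.1, h1.2, h2.1, h2.2]
  have hbd : ∀ ζ ∈ sphere (0:ℂ) 1, |v ζ - v' ζ| ≤ 2 * B + β * π := by
    intro ζ hζ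
    have h1 := hBv ζ hζ
    have h2 := hvc ζ
    rw [abs_le] at *
    constructor <;> linarith [h1.1, h1.2, h2.1, h2.2, hcB.1, hcB.2]
  have hB0 : 0 ≤ B := (abs_nonneg _).trans (hBv ζ₀ (by simpa using hζ₀))
  refine ⟨SI v', c, ?_, SI_zero v', ?_, ?_⟩
  · intro w hw
    have hw1 : ‖w‖ < 1 := by simpa using hw
    exact (SI_deriv cv' hw1).differentiableWithinAt
  · intro w hw
    exact SI_re_bound cv' (fun ζ _ => hvc ζ) hw
  · intro u hu huz r hr0 hr1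
    have h1 := SI_diff cv cv' hδ (by positivity) heq hbd hu huz hr0 hr1
    have hw : ‖(r * u : ℂ)‖ < 1 := by
      rw [norm_mul, hu, mul_one, Complex.norm_real, Real.norm_eq_abs, abs_of_nonneg hr0]; exact hr1
    have h2 : SI v (r * u) = F (s * (r * u)) :=
      schwarz hs1' hFs (by simp [F0]) hw
    rw [h2] at h1
    rw [mul_one]
    exact h1

end Marsh96
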