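import Pool.Agent.Lib.Marsh96.OscC

open MeasureTheory Set Filter Topology Metric
open scoped Real ComplexConjugate

namespace Marsh96

open Real (circleAverage)

lemma avg_refl (φ : ℂ → ℝ) (r : ℝ) :
    (2 * π)⁻¹ * ∫ t in (0:ℝ)..(2 * π), φ (r * e (-t)) = circleAverage φ 0 r := by
  rw [Real.circleAverage_def, smul_eq_mul]
  have hper : Function.Periodic (fun t => φ (circleMap 0 r t)) (2 * π) := by
    intro t
    simp only []
    rw [cm_per r t]
  rw [← refl_int' hper]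
  congr 1
  apply intervalIntegral.integral_congr
  intro t _
  simp only [circleMap_zero, e]

/-- The uniform bound under a bound on the local oscillation of the real part. -/
theorem osc_core (a β δ B : ℝ) (ha0 : 0 < a) (hβ : 0 < β) (hδ : 0 < δ) (hB0 : 0 ≤ B)
    (haβ : a * β ^ 2 < 1) : ∃ C R₀ : ℝ, 1 < R₀ ∧
    ∀ F : ℂ → ℂ, DifferentiableOn ℂ F (ball 0 1) → F 0 = 0 →
      (∀ w : ℂ, ‖w‖ < 1 → |(F w).re| ≤ B) →
      (∀ s : ℝ, 0 < s → s < 1 → ∀ u u' : ℂ, ‖u‖ = 1 → ‖u'‖ = 1 → ‖u - u'‖ ≤ δ →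
        |(F (s * u)).re - (F (s * u')).re| ≤ β * π) →
      ∀ R : ℝ, 1 < R → R < R₀ →
      (2 * π)⁻¹ * ∫ t in (0:ℝ)..(2 * π),
        Real.exp (a * ‖F (R⁻¹ * e (-t))‖ ^ 2 / Real.log (R ^ 2 / (R ^ 2 - 1))) ≤ C := by
  set q := a * β ^ 2 with hq
  have hq0 : 0 < q := by positivity
  set γ := (1 + q) / (2 * β) with hγ
  have hγ0 : 0 < γ := by positivity
  have hγβ : γ * β < 1 := by
    rw [hγ, div_mul_eq_mul_div, div_lt_one (by positivity)]
    nlinarith
  have hγa : a < γ ^ 2 := by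
    have h1 : γ ^ 2 = (1 + q) ^ 2 / (4 * β ^ 2) := by rw [hγ, div_pow]; ring
    rw [h1, lt_div_iff₀ (by positivity)]
    have h2 : a * (4 * β ^ 2) = 4 * q := by rw [hq]; ring
    rw [h2]; nlinarith [sq_nonneg (1 - q), sq_pos_of_pos (sub_pos.2 haβ)]
  set b := β * π / 2 with hb
  have hb0 : 0 < b := by positivity
  have hgb : γ * b < π / 2 := by
    rw [hb]
    have : γ * (β * π / 2) = (γ * β) * (π / 2) := by ring
    rw [this]
    have hpi : 0 < π / 2 := by positivity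
    nlinarith
  have hgb1 : |γ| * b < π / 2 := by rw [abs_of_pos hγ0]; exact hgb
  have hgb2 : |-γ| * b < π / 2 := by rw [abs_neg, abs_of_pos hγ0]; exact hgb
  set κ := Real.cos (γ * b) with hκ
  have hκ0 : 0 < κ := by
    apply Real.cos_pos_of_mem_Ioo
    constructor
    · have : 0 < γ * b := by positivity
      linarith [Real.pi_pos]
    · exact hgb
  set c2 := Real.log (4 / κ) with hc2
  set C1 := 16 * (2 * B + β * π) / δ * 1 with hC1
  have hC10 : 0 ≤ C1 := by positivity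
  obtain ⟨T, hTs, hTf, hTcov⟩ := (isCompact_sphere (0:ℂ) 1).finite_cover_balls
    (show 0 < δ / 4 by positivity)
  have hTn : ∀ ζ ∈ T, ‖ζ‖ = 1 := fun ζ hζ => by simpa using hTs hζ
  set TF := hTf.toFinset with hTF
  set E := Real.exp (a * B ^ 2) * Real.exp (γ * C1) with hE
  have hE0 : 0 < E := by positivity
  -- threshold
  have hgam : 0 < γ - a / γ := by
    have : a / γ < γ := by rw [div_lt_iff₀ hγ0]; nlinarith
    linarith
  set D₀ := max (1 + Real.log 2) ((a * (c2 / γ + C1) + γ * Real.log 2) / (γ - a / γ)) with hD₀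
  refine ⟨E * ((TF.card : ℝ) * (2 / κ)), 1 + Real.exp (-D₀), by
    have := Real.exp_pos (-D₀); linarith, ?_⟩
  intro F hF F0 hFB hosc R hR1 hR0
  have hR : 0 < R := by linarith
  have hs0 : 0 < R⁻¹ := inv_pos.2 hR
  have hs1 : R⁻¹ < 1 := inv_lt_one_of_one_lt₀ hR1
  set r := R⁻¹ with hr
  set D := -Real.log (1 - r) with hD
  have hRm : 0 < R - 1 := by linarith
  have hD1 : D₀ ≤ D := by
    have h1 : Real.log (1 - r) ≤ -D₀ := by
      rw [Real.log_le_iff_le_exp (by linarith)]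
      have h2 : 1 - r = (R - 1) / R := by rw [hr]; field_simp
      have h3 : (R - 1) / R ≤ R - 1 := by
        rw [div_le_iff₀ hR]; nlinarith
      rw [h2]; linarith
    rw [hD]; linarith
  set L := Real.log (R ^ 2 / (R ^ 2 - 1)) with hLdef
  have hL : D - Real.log 2 ≤ L := by
    have hR2 : 0 < R ^ 2 - 1 := by nlinarith
    have h2 : 1 - r = (R - 1) / R := by rw [hr]; field_simp
    rw [hD, h2, ← Real.log_inv, inv_div, ← Real.log_div (by positivity) (by norm_num)]
    apply Real.log_le_log (by positivity)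
    rw [div_div, div_le_div_iff₀ (by positivity) hR2]
    have h9 : 0 ≤ R * (R - 1) ^ 2 := by positivity
    nlinarith
  have hDa : 1 + Real.log 2 ≤ D := (le_max_left _ _).trans hD1
  have hDb : (a * (c2 / γ + C1) + γ * Real.log 2) / (γ - a / γ) ≤ D := (le_max_right _ _).trans hD1
  rw [div_le_iff₀ hgam] at hDb
  have hL1 : 1 ≤ L := by linarith
  have hL0 : 0 < L := by linarith
  have hY : a * ((c2 + D) / γ + C1) ≤ γ * L := by
    have h1 : γ * (D - Real.log 2) ≤ γ * L := mul_le_mul_of_nonneg_left hL hγ0.le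
    have h2 : a * ((c2 + D) / γ + C1) = a * (c2 / γ + C1) + a / γ * D := by
      field_simp
      ring
    rw [h2]; nlinarith
  apply dil_limit hF hR1
  intro s hs
  have hloc : ∀ ζ : ℂ, ‖ζ‖ = 1 → ∃ (G : ℂ → ℂ) (c : ℝ), DifferentiableOn ℂ G (ball 0 1) ∧
      (G 0).im = 0 ∧ (∀ w : ℂ, ‖w‖ < 1 → |(G w).re - c| ≤ b) ∧
      ∀ u : ℂ, ‖u‖ = 1 → ‖u - ζ‖ ≤ δ / 4 → ∀ r : ℝ, 0 ≤ r → r < 1 →
        ‖F (s * (r * u)) - G (r * u)‖ ≤ C1 := fun ζ hζ =>
    exists_local hF F0 hβ hδ hFB hs.1 hs.2 (hosc s hs.1 hs.2) hζ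
  choose! G c hG1 hG2 hG3 hG4 using hloc
  set term : ℂ → ℝ → ℝ := fun ζ t => Real.exp (-(γ * (G ζ (r * e (-t))).im)) +
    Real.exp (-(-γ * (G ζ (r * e (-t))).im)) with hterm
  have hwn : ∀ t : ℝ, ‖(r * e (-t) : ℂ)‖ = r := by
    intro t
    rw [norm_mul, norm_e, mul_one, Complex.norm_real, Real.norm_eq_abs, abs_of_pos hs0]
  have hw1 : ∀ t : ℝ, ‖(r * e (-t) : ℂ)‖ < 1 := fun t => by rw [hwn t]; exact hs1
  have hcG : ∀ ζ ∈ T, Continuous fun t : ℝ => G ζ (r * e (-t)) := by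
    intro ζ hζ
    apply (hG1 ζ (hTn ζ hζ)).continuousOn.comp_continuous
    · have := cont_e
      fun_prop
    · intro t; simpa using hw1 t
  have hcterm : ∀ ζ ∈ T, Continuous (term ζ) := by
    intro ζ hζ
    have h1 := Complex.continuous_im.comp (hcG ζ hζ)
    simp only [Function.comp_def] at h1
    simp only [hterm]
    fun_prop
  have hpt : ∀ t : ℝ, Real.exp (a * ‖F (s * (r * e (-t)))‖ ^ 2 / L) ≤
      E * ∑ ζ ∈ TF, term ζ t := by
    intro t
    have hu : ‖e (-t)‖ = 1 := norm_e _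
    obtain ⟨ζ, hζT, hζ⟩ : ∃ ζ ∈ T, ‖e (-t) - ζ‖ < δ / 4 := by
      have h1 : e (-t) ∈ ⋃ x ∈ T, ball x (δ / 4) := hTcov (by simp [hu])
      simp only [mem_iUnion, exists_prop] at h1
      obtain ⟨ζ, h2, h3⟩ := h1
      exact ⟨ζ, h2, by simpa [dist_eq_norm] using h3⟩
    have hζ1 := hTn ζ hζT
    have hclose := hG4 ζ hζ1 (e (-t)) hu hζ.le r hs0.le hs1
    have hk1 := expo_harnack (g := γ) (hG1 ζ hζ1) (hG2 ζ hζ1) (hG3 ζ hζ1) hgb1 (hw1 t)
    have hk2 := expo_harnack (g := -γ) (hG1 ζ hζ1) (hG2 ζ hζ1) (hG3 ζ hζ1) hgb2 (hw1 t)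
    rw [abs_of_pos hγ0, hwn] at hk1
    rw [abs_neg, abs_of_pos hγ0, hwn] at hk2
    have hsrn : ‖(s * (r * e (-t)) : ℂ)‖ < 1 := by
      rw [norm_mul, hwn, Complex.norm_real, Real.norm_eq_abs, abs_of_pos hs.1]
      nlinarith [hs.1, hs.2]
    have hx := hFB _ hsrn
    set y := (F (s * (r * e (-t)))).im with hy
    set x := (F (s * (r * e (-t)))).re with hx'
    set gy := (G ζ (r * e (-t))).im with hgy
    have h1r : 0 < 1 - r := by linarith
    have hyg : |y| ≤ |gy| + C1 := by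
      have h1 : |y - gy| ≤ C1 := by
        have := Complex.abs_im_le_norm (F (s * (r * e (-t))) - G ζ (r * e (-t)))
        rw [Complex.sub_im] at this
        exact this.trans hclose
      have h2 : |y| ≤ |y - gy| + |gy| := by
        have := abs_add_le (y - gy) gy
        simpa using this
      linarith
    have hexpg : Real.exp (γ * |gy|) ≤ 4 / κ / (1 - r) := by
      have e1 : Real.exp (-(γ * gy)) ≤ 4 / κ / (1 - r) := by
        rw [div_div, mul_comm κ, ← div_div, le_div_iff₀ hκ0, mul_comm]; exact hk1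
      have e2 : Real.exp (-(-γ * gy)) ≤ 4 / κ / (1 - r) := by
        rw [div_div, mul_comm κ, ← div_div, le_div_iff₀ hκ0, mul_comm]; exact hk2
      rcases le_total 0 gy with h | h
      · rw [abs_of_nonneg h]
        have : γ * gy = -(-γ * gy) := by ring
        rw [this]; exact e2
      · rw [abs_of_nonpos h, mul_neg]; exact e1
    have hggy : γ * |gy| ≤ c2 + D := by
      have h1 := Real.log_le_log (Real.exp_pos _) hexpg
      rw [Real.log_exp, Real.log_div (by positivity) h1r.ne'] at h1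
      rw [hD]; linarith
    have hyY : |y| ≤ (c2 + D) / γ + C1 := by
      have : |gy| ≤ (c2 + D) / γ := by rw [le_div_iff₀ hγ0]; linarith
      linarith
    have hnn : ‖F (s * (r * e (-t)))‖ ^ 2 = x ^ 2 + y ^ 2 := by
      rw [← Complex.normSq_eq_norm_sq, Complex.normSq_apply, hx', hy]; ring
    have hx2 : x ^ 2 ≤ B ^ 2 := by
      rw [← sq_abs x]; exact pow_le_pow_left₀ (abs_nonneg _) hx 2
    have hmain : a * ‖F (s * (r * e (-t)))‖ ^ 2 / L ≤ a * B ^ 2 + γ * |y| := by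
      rw [hnn, div_le_iff₀ hL0]
      have h2 : a * y ^ 2 ≤ γ * |y| * L := by
        have h3 : y ^ 2 = |y| * |y| := by rw [← sq_abs]; ring
        have h4 : |y| * |y| ≤ |y| * ((c2 + D) / γ + C1) :=
          mul_le_mul_of_nonneg_left hyY (abs_nonneg _)
        calc a * y ^ 2 = a * (|y| * |y|) := by rw [h3]
          _ ≤ a * (|y| * ((c2 + D) / γ + C1)) := mul_le_mul_of_nonneg_left h4 ha0.le
          _ = |y| * (a * ((c2 + D) / γ + C1)) := by ring
          _ ≤ |y| * (γ * L) := mul_le_mul_of_nonneg_left hY (abs_nonneg _)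
          _ = _ := by ring
      have h5 : a * x ^ 2 ≤ a * B ^ 2 * L := by
        have h6 : a * x ^ 2 ≤ a * B ^ 2 := mul_le_mul_of_nonneg_left hx2 ha0.le
        have h7 : a * B ^ 2 * 1 ≤ a * B ^ 2 * L := mul_le_mul_of_nonneg_left hL1 (by positivity)
        linarith
      nlinarith
    have hsum : term ζ t ≤ ∑ ζ ∈ TF, term ζ t := by
      apply Finset.single_le_sum (f := fun ζ => term ζ t)
      · intro i _
        simp only [hterm]; positivity
      · simp [hTF, hζT]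
    have hgt : Real.exp (γ * |gy|) ≤ term ζ t := by
      simp only [hterm]
      rw [← hgy]
      rcases le_total 0 gy with h | h
      · rw [abs_of_nonneg h]
        have h5 : Real.exp (γ * gy) = Real.exp (-(-γ * gy)) := by congr 1; ring
        have := Real.exp_pos (-(γ * gy))
        linarith
      · rw [abs_of_nonpos h, mul_neg]
        have := Real.exp_pos (-(-γ * gy))
        linarith
    calc Real.exp (a * ‖F (s * (r * e (-t)))‖ ^ 2 / L)
        ≤ Real.exp (a * B ^ 2 + γ * (|gy| + C1)) := by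
          apply Real.exp_le_exp.2
          have := mul_le_mul_of_nonneg_left hyg hγ0.le
          linarith
      _ = E * Real.exp (γ * |gy|) := by
          rw [hE, ← Real.exp_add, ← Real.exp_add]; congr 1; ring
      _ ≤ E * ∑ ζ ∈ TF, term ζ t := mul_le_mul_of_nonneg_left (hgt.trans hsum) hE0.le
  have hcsum : Continuous fun t => ∑ ζ ∈ TF, term ζ t := by
    apply continuous_finsetSum
    intro ζ hζ
    exact hcterm ζ (by simpa [hTF] using hζ)
  have hint : ∫ t in (0:ℝ)..(2 * π), Real.exp (a * ‖F (s * (r * e (-t)))‖ ^ 2 / L) ≤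
      ∫ t in (0:ℝ)..(2 * π), E * ∑ ζ ∈ TF, term ζ t := by
    rw [intervalIntegral.integral_of_le (by positivity),
      intervalIntegral.integral_of_le (by positivity)]
    exact integral_mono_of_nonneg (ae_of_all _ fun t => (Real.exp_pos _).le)
      ((continuous_const.mul hcsum).intervalIntegrable 0 (2 * π)).1 (ae_of_all _ hpt)
  have hterm_int : ∀ ζ ∈ TF, (2 * π)⁻¹ * ∫ t in (0:ℝ)..(2 * π), term ζ t ≤ 2 / κ := by
    intro ζ hζ
    have hζT : ζ ∈ T := by simpa [hTF] using hζ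
    have hζ1 := hTn ζ hζT
    have m1 := expo_mean (g := γ) (hG1 ζ hζ1) (hG2 ζ hζ1) (hG3 ζ hζ1) hgb1 hs0 hs1
    have m2 := expo_mean (g := -γ) (hG1 ζ hζ1) (hG2 ζ hζ1) (hG3 ζ hζ1) hgb2 hs0 hs1
    rw [abs_of_pos hγ0] at m1
    rw [abs_neg, abs_of_pos hγ0] at m2
    have hI : Continuous fun t : ℝ => (G ζ (r * e (-t))).im :=
      Complex.continuous_im.comp (hcG ζ hζT)
    have t1 : Continuous fun t : ℝ => Real.exp (-(γ * (G ζ (r * e (-t))).im)) := by fun_prop
    have t2 : Continuous fun t : ℝ => Real.exp (-(-γ * (G ζ (r * e (-t))).im)) := by fun_prop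
    simp only [hterm]
    rw [intervalIntegral.integral_add (t1.intervalIntegrable _ _) (t2.intervalIntegrable _ _),
      mul_add, avg_refl (fun w => Real.exp (-(γ * (G ζ w).im))) r,
      avg_refl (fun w => Real.exp (-(-γ * (G ζ w).im))) r, le_div_iff₀ hκ0]
    linarith
  calc (2 * π)⁻¹ * ∫ t in (0:ℝ)..(2 * π), Real.exp (a * ‖F (s * (r * e (-t)))‖ ^ 2 / L)
      ≤ (2 * π)⁻¹ * ∫ t in (0:ℝ)..(2 * π), E * ∑ ζ ∈ TF, term ζ t :=
        mul_le_mul_of_nonneg_left hint (by positivity)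
    _ = E * ∑ ζ ∈ TF, (2 * π)⁻¹ * ∫ t in (0:ℝ)..(2 * π), term ζ t := by
        rw [intervalIntegral.integral_const_mul, intervalIntegral.integral_finsetSum,
          ← Finset.mul_sum]
        · ring
        · intro ζ hζ
          exact (hcterm ζ (by simpa [hTF] using hζ)).intervalIntegrable _ _
    _ ≤ E * ∑ _ζ ∈ TF, (2 / κ) :=
        mul_le_mul_of_nonneg_left (Finset.sum_le_sum hterm_int) hE0.le
    _ = _ := by rw [Finset.sum_const, nsmul_eq_mul]

/-- The transfer to the exterior disc. -/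
theorem main_osc (a β δ B : ℝ) (ha0 : 0 < a) (hβ : 0 < β) (hδ : 0 < δ) (hB0 : 0 ≤ B)
    (haβ : a * β ^ 2 < 1) : ∃ C R₀ : ℝ, 1 < R₀ ∧ ∀ ψ h : ℂ → ℂ, LogBranch ψ h →
      (∀ z : ℂ, 1 < ‖z‖ → |(h z).im| ≤ B) →
      (∀ R : ℝ, 1 < R → ∀ u u' : ℂ, ‖u‖ = 1 → ‖u'‖ = 1 → ‖u - u'‖ ≤ δ →
        |(h (R * u)).im - (h (R * u')).im| ≤ β * π) →
      ∀ R : ℝ, 1 < R → R < R₀ → marshallIntegral a R h ≤ C := by
  obtain ⟨C, R₀, hR₀, hC⟩ := osc_core a β δ B ha0 hβ hδ hB0 haβ
  refine ⟨C, R₀, hR₀, ?_⟩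
  intro ψ h hb hB hosc R hR1 hR2
  set F : ℂ → ℂ := fun w => -Complex.I * inner h w with hF
  have hre : ∀ w, (F w).re = (inner h w).im := by intro w; simp [hF]
  have hd : DifferentiableOn ℂ F (ball 0 1) := (inner_diff hb).const_mul _
  have hF0 : F 0 = 0 := by simp [hF, inner_zero]
  have h1 := hC F hd hF0 (by
    intro w hw
    rw [hre]
    by_cases hw0 : w = 0
    · rw [hw0, inner_zero]; simpa using hB0
    · rw [inner_ne hw0]; exact hB _ (inv_mem hw0 hw)) (by
    intro s hs0 hs1 u u' hu hu' huu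
    rw [hre, hre]
    have hconj : ∀ v : ℂ, ‖v‖ = 1 → inner h (s * v) = h ((s⁻¹ : ℝ) * conj v) := by
      intro v hv
      have hv0 : v ≠ 0 := by intro h0; rw [h0, norm_zero] at hv; norm_num at hv
      have hsc : (s:ℂ) ≠ 0 := by exact_mod_cast hs0.ne'
      rw [inner_ne (mul_ne_zero hsc hv0)]
      congr 1
      have h3 : v * conj v = 1 := by
        rw [Complex.mul_conj, Complex.normSq_eq_norm_sq, hv]; norm_num
      have h4 : v⁻¹ = conj v := inv_eq_of_mul_eq_one_right h3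
      rw [mul_inv, h4]; push_cast; rfl
    rw [hconj u hu, hconj u' hu']
    apply hosc s⁻¹ ((one_lt_inv₀ hs0).2 hs1) (conj u) (conj u')
      (by rw [Complex.norm_conj]; exact hu) (by rw [Complex.norm_conj]; exact hu')
    rw [← map_sub, Complex.norm_conj]; exact huu) R hR1 hR2
  rw [marshallIntegral]
  have h2 : ∀ t : ℝ, ‖F (R⁻¹ * e (-t))‖ = ‖h (R * Complex.exp (t * Complex.I))‖ := by
    intro t
    have hR : (R:ℂ) ≠ 0 := by
      have : 0 < R := by linarith
      exact_mod_cast this.ne'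
    have h3 : (R⁻¹ * e (-t) : ℂ)⁻¹ = R * Complex.exp (t * Complex.I) := by
      simp only [e]
      push_cast
      rw [neg_mul, Complex.exp_neg, mul_inv, inv_inv, inv_inv]
    have h4 : (R⁻¹ * e (-t) : ℂ) ≠ 0 := by
      apply mul_ne_zero (by rw [Complex.ofReal_inv]; exact inv_ne_zero hR)
      intro h0; have := norm_e (-t); rw [h0] at this; simp at this
    simp only [hF]
    rw [inner_ne h4, h3]
    simp
  simp only [h2, mul_div_assoc] at h1
  exact h1

end Marsh96
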