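import Pool.Agent.Lib.Marsh96.OscD
import Pool.Agent.Lib.Marsh96.DefsOsc

open MeasureTheory Set Filter Topology Metric
open scoped Real ComplexConjugate

namespace Marsh96

open Real (circleAverage)

lemma chain {v : ℝ → ℝ} {δ D : ℝ} (h : ∀ t t' : ℝ, |t - t'| ≤ δ → |v t - v t'| ≤ D) :
    ∀ n : ℕ, ∀ t t' : ℝ, |t - t'| ≤ n * δ → |v t - v t'| ≤ n * D := by
  intro n
  induction n with
  | zero =>
    intro t t' ht
    have h1 : |t - t'| ≤ 0 := by simpa using ht
    have h2 : t = t' := by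
      have := abs_nonpos_iff.1 h1; linarith
    rw [h2]; simp
  | succ n ih =>
    intro t t' ht
    have hn : (0:ℝ) < n + 1 := by positivity
    set m := t' + (t - t') * (n / (n + 1)) with hm
    have e1 : t - m = (t - t') * (1 / (n + 1)) := by rw [hm]; field_simp; ring
    have e2 : m - t' = (t - t') * (n / (n + 1)) := by rw [hm]; ring
    have a1 : |t - m| ≤ δ := by
      rw [e1, abs_mul, abs_of_pos (show (0:ℝ) < 1 / (n + 1) by positivity), mul_one_div,
        div_le_iff₀ hn]
      push_cast at ht; linarith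
    have a2 : |m - t'| ≤ n * δ := by
      rw [e2, abs_mul, abs_of_nonneg (show (0:ℝ) ≤ n / (n + 1) by positivity), ← mul_div_assoc,
        div_le_iff₀ hn]
      push_cast at ht
      have : (0:ℝ) ≤ n := by positivity
      nlinarith
    have b1 := h t m a1
    have b2 := ih m t' a2
    have b3 : |v t - v t'| ≤ |v t - v m| + |v m - v t'| := abs_sub_le _ _ _
    push_cast
    linarith

/-- The argument is bounded as soon as its local oscillation is. -/
lemma arg_bounded {ψ h : ℂ → ℂ} (hb : LogBranch ψ h) {β δ : ℝ} (hδ : 0 < δ)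
    (hosc : LocalOsc h β δ) {z : ℂ} (hz : 1 < ‖z‖) :
    |(h z).im| ≤ (⌈3 * π / δ⌉₊ : ℝ) * (β * π) := by
  set R := ‖z‖ with hR
  have hR0 : 0 < R := by linarith
  have hr0 : 0 < R⁻¹ := inv_pos.2 hR0
  have hr1 : R⁻¹ < 1 := inv_lt_one_of_one_lt₀ hz
  set v : ℝ → ℝ := fun t => (h (R * circleMap 0 1 t)).im with hv
  have hloc : ∀ t t' : ℝ, |t - t'| ≤ δ → |v t - v t'| ≤ β * π := by
    intro t t' htt
    apply hosc R hz
    · simp
    · simp
    · have h1 := (lipschitzWith_circleMap 0 1).dist_le_mul t t'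
      rw [dist_eq_norm, Real.dist_eq] at h1
      have h2 : ((Real.nnabs 1 : NNReal) : ℝ) = 1 := by simp
      rw [h2, one_mul] at h1
      exact h1.trans htt
  have hchain := chain hloc ⌈3 * π / δ⌉₊
  have hN : 3 * π ≤ (⌈3 * π / δ⌉₊ : ℝ) * δ := by
    have := Nat.le_ceil (3 * π / δ)
    rwa [div_le_iff₀ hδ] at this
  -- continuity of v and mean zero
  have hinner : ∀ t : ℝ, inner h ((R⁻¹ : ℝ) * e (-t)) = h (R * circleMap 0 1 t) := by
    intro t
    have hRc : (R:ℂ) ≠ 0 := by exact_mod_cast hR0.ne'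
    have h4 : ((R⁻¹ : ℝ) * e (-t) : ℂ) ≠ 0 := by
      apply mul_ne_zero (by rw [Complex.ofReal_inv]; exact inv_ne_zero hRc)
      intro h0; have := norm_e (-t); rw [h0] at this; simp at this
    have h3 : ((R⁻¹ : ℝ) * e (-t) : ℂ)⁻¹ = R * circleMap 0 1 t := by
      rw [circleMap_zero]
      simp only [e]
      push_cast
      rw [neg_mul, Complex.exp_neg, mul_inv, inv_inv, inv_inv, one_mul]
    rw [inner_ne h4, h3]
  have hwn : ∀ t : ℝ, ‖((R⁻¹ : ℝ) * e (-t) : ℂ)‖ < 1 := by
    intro t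
    rw [norm_mul, norm_e, mul_one, Complex.norm_real, Real.norm_eq_abs, abs_of_pos hr0]; exact hr1
  have hvc : Continuous v := by
    have h1 : Continuous fun t : ℝ => inner h ((R⁻¹ : ℝ) * e (-t)) := by
      apply (inner_diff hb).continuousOn.comp_continuous
      · have := cont_e
        fun_prop
      · intro t; simpa using hwn t
    simp only [hinner] at h1
    exact Complex.continuous_im.comp h1
  have hmean : (2 * π)⁻¹ * ∫ t in (0:ℝ)..(2 * π), v t = 0 := by
    have h1 := avg_refl (fun w => (inner h w).im) R⁻¹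
    simp only [hinner] at h1
    rw [hv, h1]
    have hsub : closedBall (0:ℂ) R⁻¹ ⊆ ball 0 1 := closedBall_subset_ball hr1
    have h2 : circleAverage (inner h) 0 R⁻¹ = inner h 0 := avg_mean hr0 ((inner_diff hb).mono hsub)
    have h3 : circleAverage (fun w => (inner h w).im) 0 R⁻¹ =
        (circleAverage (inner h) 0 R⁻¹).im :=
      Complex.imCLM.circleAverage_comp_comm
        (((inner_diff hb).continuousOn.mono (sphere_subset_closedBall.trans hsub)).circleIntegrable
          hr0.le)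
    rw [h3, h2, inner_zero, Complex.zero_im]
  have hpi : (0:ℝ) < 2 * π := by positivity
  have hint0 : ∫ t in (0:ℝ)..(2 * π), v t = 0 := by
    rcases mul_eq_zero.1 hmean with h1 | h1
    · exact absurd h1 (inv_pos.2 hpi).ne'
    · exact h1
  -- the point z
  set t0 := z.arg with ht0
  have hzt : z = R * circleMap 0 1 t0 := by
    rw [circleMap_zero, Complex.ofReal_one, one_mul, hR, ht0]
    exact (Complex.norm_mul_exp_arg_mul_I z).symm
  have hest : ‖∫ t in (0:ℝ)..(2 * π), (v t0 - v t)‖ ≤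
      ((⌈3 * π / δ⌉₊ : ℝ) * (β * π)) * |2 * π - 0| := by
    apply intervalIntegral.norm_integral_le_of_norm_le_const
    intro t ht
    rw [uIoc_of_le hpi.le] at ht
    rw [Real.norm_eq_abs]
    apply hchain
    have h1 := Complex.neg_pi_lt_arg z
    have h2 := Complex.arg_le_pi z
    rw [← ht0] at h1 h2
    have : |t0 - t| ≤ 3 * π := by
      rw [abs_le]; constructor <;> linarith [ht.1, ht.2]
    linarith
  have hcalc : ∫ t in (0:ℝ)..(2 * π), (v t0 - v t) = 2 * π * v t0 := by
    rw [intervalIntegral.integral_sub (by simp) (hvc.intervalIntegrable _ _), hint0]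
    simp
  rw [hcalc, sub_zero, Real.norm_eq_abs, abs_mul, abs_of_pos hpi, mul_comm (2 * π)] at hest
  have hfin := le_of_mul_le_mul_right hest hpi
  have hvz : v t0 = (h z).im := by simp only [hv]; rw [← hzt]
  rw [hvz] at hfin
  exact hfin

/-- Marshall's bound under a bound for the local oscillation of the argument. -/
theorem main_local (a β δ : ℝ) (ha0 : 0 < a) (hβ : 0 < β) (hδ : 0 < δ)
    (haβ : a * β ^ 2 < 1) : ∃ C R₀ : ℝ, 1 < R₀ ∧ ∀ ψ h : ℂ → ℂ, LogBranch ψ h →
      LocalOsc h β δ → ∀ R : ℝ, 1 < R → R < R₀ → marshallIntegral a R h ≤ C := by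
  obtain ⟨C, R₀, hR₀, hC⟩ := main_osc a β δ ((⌈3 * π / δ⌉₊ : ℝ) * (β * π)) ha0 hβ hδ
    (by positivity) haβ
  exact ⟨C, R₀, hR₀, fun ψ h hb ho => hC ψ h hb (fun z hz => arg_bounded hb hδ ho hz) ho⟩

end Marsh96
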