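import Pool.Agent.Lib.Marsh96.CoreThm

open MeasureTheory Set Filter Topology
open scoped Real

namespace Marsh96

/-- Mass of a short arc for one of two measures with equal first moments. -/
lemma mass_signed {μ ν : Measure ℝ} [IsFiniteMeasure μ] [IsFiniteMeasure ν]
    (h0 : ∫ θ, e θ ∂μ = ∫ θ, e θ ∂ν) {u : ℂ}
    (hu : ‖u‖ = 1) {ρ : ℝ} (hρ0 : 0 < ρ) (hρ1 : ρ < 1) :
    μ.real {θ | ‖1 - u * e θ‖ ≤ ρ} * (2 - ρ^2/2) ≤ μ.real univ + ν.real univ := by
  set A : Set ℝ := {θ | ‖1 - u * e θ‖ ≤ ρ} with hA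
  have hAm : MeasurableSet A :=
    (isClosed_le (by have := cont_e; fun_prop) continuous_const).measurableSet
  have hb : ∀ θ, ‖u * e θ‖ ≤ 1 := fun θ => by rw [norm_mul, hu, norm_e]; norm_num
  have hi : Integrable (fun θ => u * e θ) μ := integ (by have := cont_e; fun_prop) 1 hb
  have hi' : Integrable (fun θ => u * e θ) ν := integ (by have := cont_e; fun_prop) 1 hb
  have hre : ∫ θ, (u * e θ).re ∂μ = ∫ θ, (u * e θ).re ∂ν := by
    have h1 : ∫ θ, (u * e θ).re ∂μ = (∫ θ, u * e θ ∂μ).re :=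
      Complex.reCLM.integral_comp_comm hi
    have h2 : ∫ θ, (u * e θ).re ∂ν = (∫ θ, u * e θ ∂ν).re :=
      Complex.reCLM.integral_comp_comm hi'
    rw [h1, h2, integral_const_mul, integral_const_mul, h0]
  have hup : ∫ θ, (u * e θ).re ∂ν ≤ ν.real univ := by
    calc ∫ θ, (u * e θ).re ∂ν ≤ ∫ _θ, (1:ℝ) ∂ν := by
          apply integral_mono (Complex.reCLM.integrable_comp hi') (integrable_const _)
          intro θ
          change (u * e θ).re ≤ 1
          exact (Complex.re_le_norm _).trans (hb θ)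
      _ = _ := by simp
  have hind : Integrable (A.indicator (fun _ => (2 - ρ^2/2 : ℝ))) μ :=
    (integrable_const _).indicator hAm
  have hle : ∫ θ, (-1 + A.indicator (fun _ => (2 - ρ^2/2 : ℝ)) θ) ∂μ ≤ ∫ θ, (u * e θ).re ∂μ := by
    apply integral_mono ((integrable_const _).add hind)
      (Complex.reCLM.integrable_comp hi)
    intro θ
    have hv : ‖u * e θ‖ = 1 := by rw [norm_mul, hu, norm_e]; norm_num
    have hr := re_unit hv
    have hn := norm_nonneg (1 - u * e θ)
    change -1 + A.indicator (fun _ => (2 - ρ^2/2 : ℝ)) θ ≤ (u * e θ).re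
    by_cases hθ : θ ∈ A
    · have h2 : ‖1 - u * e θ‖ ≤ ρ := hθ
      rw [indicator_of_mem hθ]
      rw [hr]; nlinarith
    · rw [indicator_of_notMem hθ]
      have := Complex.abs_re_le_norm (u * e θ)
      rw [hv] at this
      have := (abs_le.1 this).1
      linarith
  have hle2 := hle.trans (hre.le.trans hup)
  rw [integral_add (integrable_const _) hind, integral_indicator hAm] at hle2
  simp at hle2
  linarith

section gen

variable {μ : Measure ℝ} [IsFiniteMeasure μ]

lemma logk_int' {w : ℂ} (hw : ‖w‖ < 1) : Integrable (fun θ => Real.log ‖1 - w * e θ‖) μ :=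
  integ (logk_cont hw) _ (logk_bound hw)

lemma clog_int' {w : ℂ} (hw : ‖w‖ < 1) : Integrable (fun θ => Complex.log (1 - w * e θ)) μ := by
  refine integ (clog_cont hw) (|Real.log (1 - ‖w‖)| + Real.log 2 + π / 2) ?_
  intro θ
  have h1 := Complex.norm_le_abs_re_add_abs_im (Complex.log (1 - w * e θ))
  have h2 := logk_bound hw θ
  rw [Real.norm_eq_abs] at h2
  rw [Complex.log_re] at h1
  have h3 := arg_le hw θ
  linarith

lemma K_re' {w : ℂ} (hw : ‖w‖ < 1) : (K μ w).re = 2 * ∫ θ, Real.log ‖1 - w * e θ‖ ∂μ := by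
  have h1 : (∫ θ, Complex.log (1 - w * e θ) ∂μ).re = ∫ θ, (Complex.log (1 - w * e θ)).re ∂μ :=
    (Complex.reCLM.integral_comp_comm (clog_int' hw)).symm
  have h2 : (K μ w).re = 2 * (∫ θ, Complex.log (1 - w * e θ) ∂μ).re := by
    simp [K, Complex.mul_re]
  rw [h2, h1]
  simp only [Complex.log_re]

lemma K_im' {w : ℂ} (hw : ‖w‖ < 1) : |(K μ w).im| ≤ π * μ.real univ := by
  have h1 : (∫ θ, Complex.log (1 - w * e θ) ∂μ).im = ∫ θ, (Complex.log (1 - w * e θ)).im ∂μ :=
    (Complex.imCLM.integral_comp_comm (clog_int' hw)).symm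
  have h2 : (K μ w).im = 2 * (∫ θ, Complex.log (1 - w * e θ) ∂μ).im := by
    simp [K, Complex.mul_im]
  have h3 : ‖∫ θ, (Complex.log (1 - w * e θ)).im ∂μ‖ ≤ (π / 2) * μ.real univ :=
    norm_integral_le_of_norm_le_const (ae_of_all _ fun θ => by
      rw [Real.norm_eq_abs]; exact arg_le hw θ)
  rw [h2, h1, abs_mul, abs_two]
  rw [Real.norm_eq_abs] at h3
  linarith

lemma K_re_up' {w : ℂ} (hw : ‖w‖ < 1) : (K μ w).re ≤ 2 * Real.log 2 * μ.real univ := by
  rw [K_re' hw]
  have h1 : ∫ θ, Real.log ‖1 - w * e θ‖ ∂μ ≤ ∫ _θ, Real.log 2 ∂μ :=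
    integral_mono (logk_int' hw) (integrable_const _) (logk_up hw)
  simp at h1
  linarith

lemma K_re_low' {u : ℂ} (hu : ‖u‖ = 1) {s : ℝ} (hs0 : 0 ≤ s) (hs1 : s < 1) {ρ : ℝ} (hρ0 : 0 < ρ)
    (hρ1 : ρ < 1) {M : ℝ} (hmass : μ.real {θ | ‖1 - u * e θ‖ ≤ ρ} ≤ M) :
    -(2 * M * (-Real.log (1 - s)) + 2 * Real.log (2 / ρ) * μ.real univ) ≤ (K μ (s * u)).re := by
  set A : Set ℝ := {θ | ‖1 - u * e θ‖ ≤ ρ} with hA
  have hAm : MeasurableSet A :=
    (isClosed_le (by have := cont_e; fun_prop) continuous_const).measurableSet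
  have hn : ‖(s * u : ℂ)‖ = s := by
    rw [norm_mul, hu, mul_one, Complex.norm_real, Real.norm_eq_abs, abs_of_nonneg hs0]
  have hw : ‖(s * u : ℂ)‖ < 1 := by rw [hn]; exact hs1
  have hlog : 0 < Real.log (2 / ρ) := Real.log_pos (by rw [lt_div_iff₀ hρ0]; linarith)
  have hD : Real.log (1 - s) ≤ 0 := Real.log_nonpos (by linarith) (by linarith)
  rw [K_re' hw]
  have hind : Integrable (A.indicator (fun _ => Real.log (1 - s))) μ :=
    (integrable_const _).indicator hAm
  have h1 : ∫ θ, (-Real.log (2 / ρ) + A.indicator (fun _ => Real.log (1 - s)) θ) ∂μ ≤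
      ∫ θ, Real.log ‖1 - (s * u) * e θ‖ ∂μ := by
    apply integral_mono ((integrable_const _).add hind) (logk_int' hw)
    intro θ
    change -Real.log (2 / ρ) + A.indicator (fun _ => Real.log (1 - s)) θ ≤
      Real.log ‖1 - (s * u) * e θ‖
    by_cases hθ : θ ∈ A
    · rw [indicator_of_mem hθ]
      have := logk_low hw θ
      rw [hn] at this
      linarith
    · rw [indicator_of_notMem hθ]
      have h2 : ρ < ‖1 - u * e θ‖ := not_le.1 hθ
      have := far hu hs0 hs1 hρ0 h2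
      linarith
  rw [integral_add (integrable_const _) hind, integral_indicator hAm] at h1
  simp at h1
  nlinarith

lemma s3' {u : ℂ} (hu : ‖u‖ = 1) {s : ℝ} (hs0 : 0 ≤ s) (hs1 : s < 1) {ρ : ℝ} (hρ0 : 0 < ρ)
    (hρ1 : ρ < 1) {M : ℝ} (hM : 0 < M) (hmass : μ.real {θ | ‖1 - u * e θ‖ ≤ ρ} ≤ M)
    {l : ℝ} (hl0 : 0 < l) {V : ℝ} (hV : μ.real univ ≤ V) :
    Real.exp (- (l * (2 * ∫ θ, Real.log ‖1 - (s * u) * e θ‖ ∂μ))) ≤
      Real.exp (2 * l * V * Real.log (2 / ρ)) *
        (3 + (1 / M) * ∫ θ, Real.exp (-(2 * l * M) * Real.log ‖1 - (s * u) * e θ‖) ∂μ) := by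
  set A : Set ℝ := {θ | ‖1 - u * e θ‖ ≤ ρ} with hA
  have hAm : MeasurableSet A :=
    (isClosed_le (by have := cont_e; fun_prop) continuous_const).measurableSet
  have hw : ‖(s * u : ℂ)‖ < 1 := by
    rw [norm_mul, hu, mul_one, Complex.norm_real, Real.norm_eq_abs, abs_of_nonneg hs0]; exact hs1
  set f : ℝ → ℝ := fun θ => -(2 * l) * Real.log ‖1 - (s * u) * e θ‖ with hf
  have hfi : Integrable f μ := (logk_int' hw).const_mul _
  have hlog : 0 < Real.log (2 / ρ) := Real.log_pos (by rw [lt_div_iff₀ hρ0]; linarith)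
  have hsplit : - (l * (2 * ∫ θ, Real.log ‖1 - (s * u) * e θ‖ ∂μ)) =
      (∫ θ in A, f θ ∂μ) + ∫ θ in Aᶜ, f θ ∂μ := by
    rw [integral_add_compl hAm hfi]
    simp only [hf]
    rw [integral_const_mul]; ring
  have hfar : ∫ θ in Aᶜ, f θ ∂μ ≤ 2 * l * V * Real.log (2 / ρ) := by
    calc ∫ θ in Aᶜ, f θ ∂μ ≤ ∫ θ in Aᶜ, 2 * l * Real.log (2 / ρ) ∂μ := by
          apply setIntegral_mono_on hfi.integrableOn (integrable_const _).integrableOn hAm.compl
          intro θ hθ
          have h1 : ρ < ‖1 - u * e θ‖ := not_le.1 hθ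
          have h2 := far hu hs0 hs1 hρ0 h1
          simp only [hf]
          nlinarith
      _ = μ.real Aᶜ * (2 * l * Real.log (2 / ρ)) := by simp
      _ ≤ V * (2 * l * Real.log (2 / ρ)) := by
          apply mul_le_mul_of_nonneg_right _ (by positivity)
          exact (measureReal_mono (subset_univ _)).trans hV
      _ = _ := by ring
  have hexpc : Continuous fun θ => Real.exp (M * f θ) := by
    have := logk_cont hw
    simp only [hf]
    fun_prop
  have hexpi : Integrable (fun θ => Real.exp (M * f θ)) μ := by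
    refine integ hexpc (Real.exp (M * (2 * l * (|Real.log (1 - ‖(s * u : ℂ)‖)| + Real.log 2)))) ?_
    intro θ
    rw [Real.norm_eq_abs, abs_of_pos (Real.exp_pos _)]
    apply Real.exp_le_exp.2
    apply mul_le_mul_of_nonneg_left _ hM.le
    have h1 := logk_bound hw θ
    rw [Real.norm_eq_abs] at h1
    have h2 := neg_abs_le (Real.log ‖1 - (s * u) * e θ‖)
    simp only [hf]
    nlinarith
  have hnear : Real.exp (∫ θ in A, f θ ∂μ) ≤ 3 + (1 / M) * ∫ θ, Real.exp (M * f θ) ∂μ := by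
    set c := ∫ θ in A, f θ ∂μ with hc
    have hI0 : 0 ≤ ∫ θ, Real.exp (M * f θ) ∂μ := integral_nonneg fun θ => (Real.exp_pos _).le
    rcases le_or_gt c 1 with hc1 | hc1
    · have h1 : Real.exp c ≤ 3 := by
        calc Real.exp c ≤ Real.exp 1 := Real.exp_le_exp.2 hc1
          _ ≤ 3 := by have := Real.exp_one_lt_d9; linarith
      have h2 : 0 ≤ (1 / M) * ∫ θ, Real.exp (M * f θ) ∂μ := by positivity
      linarith
    · have h1 : ∫ θ in A, Real.exp c * (1 - c + M * f θ) ∂μ ≤ ∫ θ in A, Real.exp (M * f θ) ∂μ := by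
        apply setIntegral_mono_on _ hexpi.integrableOn hAm
        · intro θ _
          have h2 := Real.add_one_le_exp (M * f θ - c)
          have h3 : Real.exp (M * f θ) = Real.exp c * Real.exp (M * f θ - c) := by
            rw [← Real.exp_add]; ring_nf
          rw [h3]
          apply mul_le_mul_of_nonneg_left _ (Real.exp_pos _).le
          linarith
        · exact (((integrable_const _).add (hfi.const_mul _)).const_mul _).integrableOn
      have h4 : ∫ θ in A, Real.exp c * (1 - c + M * f θ) ∂μ =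
          Real.exp c * (μ.real A * (1 - c) + M * c) := by
        rw [integral_const_mul, integral_add (integrable_const _).integrableOn
          (hfi.const_mul _).integrableOn, integral_const_mul]
        simp [hc]
      have h5 : ∫ θ in A, Real.exp (M * f θ) ∂μ ≤ ∫ θ, Real.exp (M * f θ) ∂μ :=
        setIntegral_le_integral hexpi (ae_of_all _ fun θ => (Real.exp_pos _).le)
      have h6 : Real.exp c * M ≤ Real.exp c * (μ.real A * (1 - c) + M * c) := by
        apply mul_le_mul_of_nonneg_left _ (Real.exp_pos _).le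
        nlinarith
      have h7 : Real.exp c * M ≤ ∫ θ, Real.exp (M * f θ) ∂μ := by linarith
      have h8 : Real.exp c ≤ (1 / M) * ∫ θ, Real.exp (M * f θ) ∂μ := by
        rw [one_div, ← div_eq_inv_mul, le_div_iff₀ hM]; exact h7
      linarith
  have hrew : ∀ θ, Real.exp (-(2 * l * M) * Real.log ‖1 - (s * u) * e θ‖) = Real.exp (M * f θ) := by
    intro θ; simp only [hf]; congr 1; ring
  simp_rw [hrew]
  rw [hsplit, Real.exp_add, mul_comm]
  apply mul_le_mul (Real.exp_le_exp.2 hfar) hnear (Real.exp_pos _).le (Real.exp_pos _).le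

/-- The t-average of the bound of s3'. -/
lemma s3_int {s : ℝ} (hs0 : 0 < s) (hs1 : s < 1) {ρ : ℝ} (hρ0 : 0 < ρ)
    (hρ1 : ρ < 1) {M : ℝ} (hM : 0 < M)
    (hmass : ∀ u : ℂ, ‖u‖ = 1 → μ.real {θ | ‖1 - u * e θ‖ ≤ ρ} ≤ M)
    {l : ℝ} (hl0 : 0 < l) {V : ℝ} (hV : μ.real univ ≤ V) (hq : 2 * l * M < 1) :
    ∃ g : ℝ → ℝ, Integrable g (volume.restrict (Ioc 0 (2 * π))) ∧
      (∀ t, Real.exp (- (l * (K μ (s * e (-t))).re)) ≤ g t) ∧
      ∫ t in Ioc 0 (2 * π), g t ≤ 2 * π * (Real.exp (2 * l * V * Real.log (2 / ρ)) *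
        (3 + (1 / M) * (V * (1 / (1 - 2 * l * M))))) := by
  have hn : ∀ t : ℝ, ‖(s * e (-t) : ℂ)‖ = s := by
    intro t
    rw [norm_mul, norm_e, mul_one, Complex.norm_real, Real.norm_eq_abs, abs_of_pos hs0]
  have hw : ∀ t : ℝ, ‖(s * e (-t) : ℂ)‖ < 1 := fun t => by rw [hn t]; exact hs1
  set q := 2 * l * M with hqdef
  have hq0 : 0 < q := by positivity
  set F : ℝ → ℝ → ℝ := fun t θ => Real.exp (-q * Real.log ‖1 - (s * e (-t)) * e θ‖) with hF
  set ν : Measure ℝ := volume.restrict (Ioc 0 (2 * π)) with hν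
  have hFc : Continuous (Function.uncurry F) := by
    have h1 : Continuous fun p : ℝ × ℝ => ‖1 - (s * e (-p.1)) * e p.2‖ := by
      have := cont_e
      fun_prop
    have h2 : Continuous fun p : ℝ × ℝ => Real.log ‖1 - (s * e (-p.1)) * e p.2‖ :=
      Continuous.log h1 (fun p => (k_pos (hw p.1) p.2).ne')
    simp only [hF, Function.uncurry_def]
    fun_prop
  have hFb : ∀ p : ℝ × ℝ, ‖Function.uncurry F p‖ ≤ Real.exp (q * (|Real.log (1 - s)| + Real.log 2)) := by
    intro p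
    simp only [hF, Function.uncurry_def]
    rw [Real.norm_eq_abs, abs_of_pos (Real.exp_pos _)]
    apply Real.exp_le_exp.2
    have h1 := logk_bound (hw p.1) p.2
    rw [hn, Real.norm_eq_abs] at h1
    have h2 := neg_abs_le (Real.log ‖1 - (s * e (-p.1)) * e p.2‖)
    nlinarith
  have hFi : Integrable (Function.uncurry F) (ν.prod μ) :=
    Integrable.of_bound hFc.aestronglyMeasurable _ (ae_of_all _ hFb)
  have hF1 : Integrable (fun t => ∫ θ, F t θ ∂μ) ν := hFi.integral_prod_left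
  have e2 : Integrable (fun t => (1 / M) * ∫ θ, F t θ ∂μ) ν := hF1.const_mul _
  have e3 : Integrable (fun t => 3 + (1 / M) * ∫ θ, F t θ ∂μ) ν := (integrable_const _).add e2
  have e4 : Integrable (fun t => Real.exp (2 * l * V * Real.log (2 / ρ)) *
        (3 + (1 / M) * ∫ θ, F t θ ∂μ)) ν := e3.const_mul _
  have hswap : ∫ t, (∫ θ, F t θ ∂μ) ∂ν ≤ V * (2 * π / (1 - q)) := by
    rw [integral_integral_swap hFi]
    have h1 : ∀ θ, ∫ t, F t θ ∂ν ≤ 2 * π / (1 - q) := by
      intro θ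
      have := circ hs0.le hs1 hq0 hq θ
      rw [intervalIntegral.integral_of_le (by positivity)] at this
      exact this
    have h2 : 0 ≤ 2 * π / (1 - q) := by
      apply div_nonneg (by positivity); linarith
    calc ∫ θ, (∫ t, F t θ ∂ν) ∂μ ≤ ∫ _θ, 2 * π / (1 - q) ∂μ :=
          integral_mono hFi.integral_prod_right (integrable_const _) h1
      _ = μ.real univ * (2 * π / (1 - q)) := by simp
      _ ≤ _ := mul_le_mul_of_nonneg_right hV h2
  have hνu : ν.real univ = 2 * π := by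
    simp [hν, Measure.real, Real.volume_Ioc, ENNReal.toReal_ofReal, Real.pi_pos.le]
  refine ⟨fun t => Real.exp (2 * l * V * Real.log (2 / ρ)) *
        (3 + (1 / M) * ∫ θ, F t θ ∂μ), e4, ?_, ?_⟩
  · intro t
    have h4 := s3' (μ := μ) (norm_e (-t)) hs0.le hs1 hρ0 hρ1 hM (hmass _ (norm_e (-t))) hl0 hV
    rw [K_re' (hw t)]
    exact h4
  · rw [integral_const_mul, integral_add (integrable_const _) e2, integral_const_mul]
    simp only [integral_const, hνu, smul_eq_mul]
    have hM1 : (1 / M) * ∫ t, (∫ θ, F t θ ∂μ) ∂ν ≤ (1 / M) * (V * (2 * π / (1 - q))) :=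
      mul_le_mul_of_nonneg_left hswap (by positivity)
    have hE := Real.exp_pos (2 * l * V * Real.log (2 / ρ))
    have h5 : Real.exp (2 * l * V * Real.log (2 / ρ)) *
        (2 * π * 3 + (1 / M) * ∫ t, (∫ θ, F t θ ∂μ) ∂ν) ≤ Real.exp (2 * l * V * Real.log (2 / ρ)) *
        (2 * π * 3 + (1 / M) * (V * (2 * π / (1 - q)))) :=
      mul_le_mul_of_nonneg_left (by linarith) hE.le
    refine h5.trans (le_of_eq ?_)
    ring

end gen

/-- integrated bound for the difference of two potentials -/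
lemma intbound' {μ ν : Measure ℝ} [IsFiniteMeasure μ] [IsFiniteMeasure ν]
    (h0 : ∫ θ, e θ ∂μ = ∫ θ, e θ ∂ν) {V : ℝ} (hV1 : 1 ≤ V) (hV : μ.real univ + ν.real univ ≤ V)
    {s : ℝ} (hs0 : 0 < s) (hs1 : s < 1) {ρ : ℝ} (hρ0 : 0 < ρ)
    (hρ1 : ρ < 1) {M : ℝ} (hM : M = V / (2 - ρ ^ 2 / 2)) {a l L : ℝ}
    (ha0 : 0 < a) (ha1 : a < 1) (hl0 : 0 < l) (hq : 2 * l * M < 1) (hL : 1 ≤ L)
    (hab : a * (2 * M * (-Real.log (1 - s)) + 2 * Real.log (2 / ρ) * V + 2 * Real.log 2 * V)
      ≤ l * L) :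
    (2 * π)⁻¹ * ∫ t in (0:ℝ)..(2 * π),
        Real.exp (a * ‖K μ (s * e (-t)) - K ν (s * e (-t))‖ ^ 2 / L) ≤
      Real.exp (4 * π ^ 2 * V ^ 2) * Real.exp (2 * l * V * Real.log 2) *
        (2 * (Real.exp (2 * l * V * Real.log (2 / ρ)) *
        (3 + (1 / M) * (V * (1 / (1 - 2 * l * M)))))) := by
  have hden : 0 < 2 - ρ ^ 2 / 2 := by nlinarith
  have hM0 : 0 < M := by
    rw [hM]; apply div_pos (by linarith) hden
  have hμ0 : 0 ≤ μ.real univ := measureReal_nonneg
  have hν0 : 0 ≤ ν.real univ := measureReal_nonneg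
  have hμV : μ.real univ ≤ V := by linarith
  have hνV : ν.real univ ≤ V := by linarith
  have hm1 : ∀ u : ℂ, ‖u‖ = 1 → μ.real {θ | ‖1 - u * e θ‖ ≤ ρ} ≤ M := by
    intro u hu
    have h1 := mass_signed (μ := μ) (ν := ν) h0 hu hρ0 hρ1
    rw [hM, le_div_iff₀ hden]
    linarith
  have hm2 : ∀ u : ℂ, ‖u‖ = 1 → ν.real {θ | ‖1 - u * e θ‖ ≤ ρ} ≤ M := by
    intro u hu
    have h1 := mass_signed (μ := ν) (ν := μ) h0.symm hu hρ0 hρ1
    rw [hM, le_div_iff₀ hden]
    linarith
  obtain ⟨g1, hg1i, hg1, hg1b⟩ := s3_int (μ := μ) hs0 hs1 hρ0 hρ1 hM0 hm1 hl0 hμV hq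
  obtain ⟨g2, hg2i, hg2, hg2b⟩ := s3_int (μ := ν) hs0 hs1 hρ0 hρ1 hM0 hm2 hl0 hνV hq
  have hn : ∀ t : ℝ, ‖(s * e (-t) : ℂ)‖ = s := by
    intro t
    rw [norm_mul, norm_e, mul_one, Complex.norm_real, Real.norm_eq_abs, abs_of_pos hs0]
  have hw : ∀ t : ℝ, ‖(s * e (-t) : ℂ)‖ < 1 := fun t => by rw [hn t]; exact hs1
  have hlog2 : 0 < Real.log 2 := Real.log_pos (by norm_num)
  have hlogρ : 0 < Real.log (2 / ρ) := Real.log_pos (by rw [lt_div_iff₀ hρ0]; linarith)
  set B := 2 * M * (-Real.log (1 - s)) + 2 * Real.log (2 / ρ) * V + 2 * Real.log 2 * V with hB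
  set E1 := Real.exp (4 * π ^ 2 * V ^ 2) * Real.exp (2 * l * V * Real.log 2) with hE1
  have hE1p : 0 < E1 := by positivity
  have hpt : ∀ t, Real.exp (a * ‖K μ (s * e (-t)) - K ν (s * e (-t))‖ ^ 2 / L) ≤
      E1 * (g1 t + g2 t) := by
    intro t
    have a1 := K_re_low' (μ := μ) (norm_e (-t)) hs0.le hs1 hρ0 hρ1 (hm1 _ (norm_e (-t)))
    have a2 := K_re_low' (μ := ν) (norm_e (-t)) hs0.le hs1 hρ0 hρ1 (hm2 _ (norm_e (-t)))
    have b1 := K_re_up' (μ := μ) (hw t)
    have b2 := K_re_up' (μ := ν) (hw t)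
    have c1 := K_im' (μ := μ) (hw t)
    have c2 := K_im' (μ := ν) (hw t)
    have d1 := hg1 t
    have d2 := hg2 t
    set x1 := (K μ (s * e (-t))).re with hx1
    set x2 := (K ν (s * e (-t))).re with hx2
    set y1 := (K μ (s * e (-t))).im with hy1
    set y2 := (K ν (s * e (-t))).im with hy2
    have m1 : 2 * Real.log (2 / ρ) * μ.real univ ≤ 2 * Real.log (2 / ρ) * V :=
      mul_le_mul_of_nonneg_left hμV (by positivity)
    have m2 : 2 * Real.log (2 / ρ) * ν.real univ ≤ 2 * Real.log (2 / ρ) * V :=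
      mul_le_mul_of_nonneg_left hνV (by positivity)
    have m3 : 2 * Real.log 2 * μ.real univ ≤ 2 * Real.log 2 * V :=
      mul_le_mul_of_nonneg_left hμV (by positivity)
    have m4 : 2 * Real.log 2 * ν.real univ ≤ 2 * Real.log 2 * V :=
      mul_le_mul_of_nonneg_left hνV (by positivity)
    have hxB : |x1 - x2| ≤ B := by
      rw [abs_le, hB]; constructor <;> linarith
    have hyB : |y1 - y2| ≤ 2 * π * V := by
      have h1 : |y1 - y2| ≤ |y1| + |y2| := abs_sub _ _
      have h2 : π * μ.real univ + π * ν.real univ ≤ π * V := by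
        rw [← mul_add]; exact mul_le_mul_of_nonneg_left hV Real.pi_pos.le
      have h3 : 0 ≤ π * V := by positivity
      linarith
    have hnn : ‖K μ (s * e (-t)) - K ν (s * e (-t))‖ ^ 2 = (x1 - x2) ^ 2 + (y1 - y2) ^ 2 := by
      rw [← Complex.normSq_eq_norm_sq, Complex.normSq_apply, Complex.sub_re, Complex.sub_im,
        ← hx1, ← hx2, ← hy1, ← hy2]; ring
    have hy2' : (y1 - y2) ^ 2 ≤ 4 * π ^ 2 * V ^ 2 := by
      rw [← sq_abs (y1 - y2)]
      have := pow_le_pow_left₀ (abs_nonneg _) hyB 2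
      nlinarith
    have hL0 : 0 < L := by linarith
    have h1 : a * ‖K μ (s * e (-t)) - K ν (s * e (-t))‖ ^ 2 / L ≤
        l * |x1 - x2| + 4 * π ^ 2 * V ^ 2 := by
      rw [hnn, div_le_iff₀ hL0]
      have h2 : a * (x1 - x2) ^ 2 ≤ l * |x1 - x2| * L := by
        have h3 : (x1 - x2) ^ 2 = |x1 - x2| * |x1 - x2| := by rw [← sq_abs]; ring
        have h4 : |x1 - x2| * |x1 - x2| ≤ |x1 - x2| * B :=
          mul_le_mul_of_nonneg_left hxB (abs_nonneg _)
        calc a * (x1 - x2) ^ 2 = a * (|x1 - x2| * |x1 - x2|) := by rw [h3]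
          _ ≤ a * (|x1 - x2| * B) := mul_le_mul_of_nonneg_left h4 ha0.le
          _ = |x1 - x2| * (a * B) := by ring
          _ ≤ |x1 - x2| * (l * L) := mul_le_mul_of_nonneg_left hab (abs_nonneg _)
          _ = _ := by ring
      have h5 : a * (y1 - y2) ^ 2 ≤ 4 * π ^ 2 * V ^ 2 * L := by
        have h6 : a * (y1 - y2) ^ 2 ≤ 1 * (y1 - y2) ^ 2 :=
          mul_le_mul_of_nonneg_right ha1.le (sq_nonneg _)
        have h7 : 4 * π ^ 2 * V ^ 2 * 1 ≤ 4 * π ^ 2 * V ^ 2 * L :=
          mul_le_mul_of_nonneg_left hL (by positivity)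
        linarith
      nlinarith
    have h8 : Real.exp (l * |x1 - x2|) ≤ Real.exp (2 * l * V * Real.log 2) * (g1 t + g2 t) := by
      have h9 : Real.exp (-(l * (x1 - x2))) ≤ Real.exp (2 * l * V * Real.log 2) * g1 t := by
        calc Real.exp (-(l * (x1 - x2))) = Real.exp (l * x2) * Real.exp (-(l * x1)) := by
              rw [← Real.exp_add]; congr 1; ring
          _ ≤ Real.exp (2 * l * V * Real.log 2) * g1 t := by
              apply mul_le_mul _ d1 (Real.exp_pos _).le (Real.exp_pos _).le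
              apply Real.exp_le_exp.2
              have : x2 ≤ 2 * Real.log 2 * V := by linarith
              have := mul_le_mul_of_nonneg_left this hl0.le
              linarith
      have h10 : Real.exp (l * (x1 - x2)) ≤ Real.exp (2 * l * V * Real.log 2) * g2 t := by
        calc Real.exp (l * (x1 - x2)) = Real.exp (l * x1) * Real.exp (-(l * x2)) := by
              rw [← Real.exp_add]; congr 1; ring
          _ ≤ Real.exp (2 * l * V * Real.log 2) * g2 t := by
              apply mul_le_mul _ d2 (Real.exp_pos _).le (Real.exp_pos _).le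
              apply Real.exp_le_exp.2
              have : x1 ≤ 2 * Real.log 2 * V := by linarith
              have := mul_le_mul_of_nonneg_left this hl0.le
              linarith
      have p1 := Real.exp_pos (-(l * (x1 - x2)))
      have p2 := Real.exp_pos (l * (x1 - x2))
      rcases le_total 0 (x1 - x2) with h | h
      · rw [abs_of_nonneg h]; linarith
      · rw [abs_of_nonpos h, mul_neg]; linarith
    calc Real.exp (a * ‖K μ (s * e (-t)) - K ν (s * e (-t))‖ ^ 2 / L)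
        ≤ Real.exp (l * |x1 - x2| + 4 * π ^ 2 * V ^ 2) := Real.exp_le_exp.2 h1
      _ = Real.exp (4 * π ^ 2 * V ^ 2) * Real.exp (l * |x1 - x2|) := by rw [Real.exp_add]; ring
      _ ≤ Real.exp (4 * π ^ 2 * V ^ 2) * (Real.exp (2 * l * V * Real.log 2) * (g1 t + g2 t)) :=
          mul_le_mul_of_nonneg_left h8 (Real.exp_pos _).le
      _ = _ := by rw [hE1]; ring
  have hmain : ∫ t in (0:ℝ)..(2 * π),
      Real.exp (a * ‖K μ (s * e (-t)) - K ν (s * e (-t))‖ ^ 2 / L) ≤
      ∫ t in Ioc 0 (2 * π), E1 * (g1 t + g2 t) := by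
    rw [intervalIntegral.integral_of_le (by positivity)]
    exact integral_mono_of_nonneg (ae_of_all _ fun t => (Real.exp_pos _).le)
      ((hg1i.add hg2i).const_mul _) (ae_of_all _ hpt)
  rw [integral_const_mul, integral_add hg1i hg2i] at hmain
  have hpi : 0 < 2 * π := by positivity
  rw [inv_mul_le_iff₀ hpi]
  refine hmain.trans ?_
  have hfin := mul_le_mul_of_nonneg_left (add_le_add hg1b hg2b) hE1p.le
  refine hfin.trans (le_of_eq ?_)
  ring

/-- The uniform bound for differences of potentials of total mass at most `V`. -/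
theorem score (V : ℝ) (hV1 : 1 ≤ V) (a : ℝ) (ha0 : 0 < a) (haV : a * V ^ 2 < 1) :
    ∃ C R₀ : ℝ, 1 < R₀ ∧
    ∀ (μ ν : Measure ℝ) [IsFiniteMeasure μ] [IsFiniteMeasure ν], ∫ θ, e θ ∂μ = ∫ θ, e θ ∂ν →
      μ.real univ + ν.real univ ≤ V → ∀ R : ℝ, 1 < R → R < R₀ →
      (2 * π)⁻¹ * ∫ t in (0:ℝ)..(2 * π),
        Real.exp (a * ‖K μ (R⁻¹ * e (-t)) - K ν (R⁻¹ * e (-t))‖ ^ 2 /
          Real.log (R ^ 2 / (R ^ 2 - 1))) ≤ C := by
  have hV0 : 0 < V := by linarith
  have ha1 : a < 1 := by nlinarith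
  have haV' : a * V < 1 / V := by rw [lt_div_iff₀ hV0]; nlinarith
  set l := (a * V + 1 / V) / 2 with hl
  have haVp : 0 < a * V := by positivity
  have hl0 : 0 < l := by rw [hl]; positivity
  have hlV : l * V < 1 := by
    have : l < 1 / V := by rw [hl]; linarith
    rwa [lt_div_iff₀ hV0] at this
  have hla : a * V < l := by rw [hl]; linarith
  have hlVp : 0 < l * V := by positivity
  set T := min ((1 + 1 / (l * V)) / 2) ((1 + l / (a * V)) / 2) with hT
  have h1l : 1 < 1 / (l * V) := by rw [lt_div_iff₀ hlVp]; linarith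
  have hla' : 1 < l / (a * V) := by rw [lt_div_iff₀ haVp]; linarith
  have hT1 : 1 < T := by
    rw [hT]; apply lt_min <;> linarith
  have hTl : l * V * T < 1 := by
    have h1 : T ≤ (1 + 1 / (l * V)) / 2 := min_le_left _ _
    have h2 : T < 1 / (l * V) := by linarith
    rw [lt_div_iff₀ hlVp] at h2; linarith
  have hTa : T < l / (a * V) := by
    have h1 : T ≤ (1 + l / (a * V)) / 2 := min_le_right _ _
    linarith
  set ρ := min (1 / 2) (2 * (1 - 1 / T)) with hρ
  have h1T : 1 / T < 1 := by rw [div_lt_one (by linarith)]; exact hT1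
  have hρ0 : 0 < ρ := by
    rw [hρ]; apply lt_min (by norm_num); linarith
  have hρh : ρ ≤ 1 / 2 := min_le_left _ _
  have hρ1 : ρ < 1 := by linarith
  have hρT : ρ ≤ 2 * (1 - 1 / T) := min_le_right _ _
  set M := V / (2 - ρ ^ 2 / 2) with hM
  have hden : 0 < 2 - ρ ^ 2 / 2 := by nlinarith
  have hM0 : 0 < M := by rw [hM]; exact div_pos hV0 hden
  have hMT : 2 * M ≤ V * T := by
    have h2 : 1 / T ≤ 1 - ρ ^ 2 / 4 := by nlinarith
    have hT0 : 0 < T := by linarith
    rw [div_le_iff₀ hT0] at h2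
    rw [hM, ← mul_div_assoc, div_le_iff₀ hden]
    nlinarith
  have hq : 2 * l * M < 1 := by nlinarith
  have hlogρ : 0 < Real.log (2 / ρ) := Real.log_pos (by rw [lt_div_iff₀ hρ0]; linarith)
  have hlog2 : 0 < Real.log 2 := Real.log_pos (by norm_num)
  set D₀ := max (1 + Real.log 2)
    ((a * (2 * Real.log (2 / ρ) * V + 2 * Real.log 2 * V) + l * Real.log 2) / (l - a * V * T)) with hD₀
  have hlaT : 0 < l - a * V * T := by
    rw [lt_div_iff₀ haVp] at hTa; linarith
  refine ⟨Real.exp (4 * π ^ 2 * V ^ 2) * Real.exp (2 * l * V * Real.log 2) *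
        (2 * (Real.exp (2 * l * V * Real.log (2 / ρ)) *
        (3 + (1 / M) * (V * (1 / (1 - 2 * l * M)))))),
        1 + Real.exp (-D₀), by have := Real.exp_pos (-D₀); linarith, ?_⟩
  · intro μ ν _ _ h0 hV R hR1 hR0
    have hR : 0 < R := by linarith
    have hs0 : 0 < R⁻¹ := inv_pos.2 hR
    have hs1 : R⁻¹ < 1 := inv_lt_one_of_one_lt₀ hR1
    set D := -Real.log (1 - R⁻¹) with hD
    have hRm : 0 < R - 1 := by linarith
    have hD1 : D₀ ≤ D := by
      have h1 : Real.log (1 - R⁻¹) ≤ -D₀ := by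
        rw [Real.log_le_iff_le_exp (by linarith)]
        have h2 : 1 - R⁻¹ = (R - 1) / R := by field_simp
        have h3 : (R - 1) / R ≤ R - 1 := by
          rw [div_le_iff₀ hR]; nlinarith
        rw [h2]; linarith
      rw [hD]; linarith
    have hL : D - Real.log 2 ≤ Real.log (R ^ 2 / (R ^ 2 - 1)) := by
      have hR2 : 0 < R ^ 2 - 1 := by nlinarith
      have h2 : 1 - R⁻¹ = (R - 1) / R := by field_simp
      rw [hD, h2, ← Real.log_inv, inv_div, ← Real.log_div (by positivity) (by norm_num)]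
      apply Real.log_le_log (by positivity)
      rw [div_div, div_le_div_iff₀ (by positivity) hR2]
      have h9 : 0 ≤ R * (R - 1) ^ 2 := by positivity
      nlinarith
    have hDa : 1 + Real.log 2 ≤ D := (le_max_left _ _).trans hD1
    have hDb : (a * (2 * Real.log (2 / ρ) * V + 2 * Real.log 2 * V) + l * Real.log 2) /
        (l - a * V * T) ≤ D := (le_max_right _ _).trans hD1
    rw [div_le_iff₀ hlaT] at hDb
    have hD0 : 0 < D := by linarith
    exact intbound' (μ := μ) (ν := ν) h0 hV1 hV hs0 hs1 hρ0 hρ1 hM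
      (L := Real.log (R ^ 2 / (R ^ 2 - 1)))
      ha0 ha1 hl0 hq (by linarith) (by
        have h1 : a * (2 * M * D) ≤ a * ((V * T) * D) :=
          mul_le_mul_of_nonneg_left (mul_le_mul_of_nonneg_right hMT hD0.le) ha0.le
        have h2 : l * (D - Real.log 2) ≤ l * Real.log (R ^ 2 / (R ^ 2 - 1)) :=
          mul_le_mul_of_nonneg_left hL hl0.le
        have h3 : a * (2 * M * -Real.log (1 - R⁻¹) + 2 * Real.log (2 / ρ) * V +
            2 * Real.log 2 * V) =
          a * (2 * M * D) + a * (2 * Real.log (2 / ρ) * V + 2 * Real.log 2 * V) := by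
            rw [hD]; ring
        rw [h3]
        nlinarith)

end Marsh96
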