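import Pool.Agent.Lib.Marsh96.SCore
import Pool.Agent.Lib.Marsh96.Meas

open MeasureTheory Set Filter Topology Metric
open scoped Real ComplexConjugate

namespace Marsh96

open Real (circleAverage)

lemma dens_finite {p : ℝ → ℝ} (hp : Continuous p) : IsFiniteMeasure (dens p) := by
  have hi : Integrable (fun t => (2 * π)⁻¹ * p t) (volume.restrict (Ioc 0 (2 * π))) :=
    ((hp.intervalIntegrable 0 (2 * π)).1).const_mul _
  exact isFiniteMeasure_withDensity_ofReal hi.2

lemma dens_real {p : ℝ → ℝ} (hp : Continuous p) (hp0 : ∀ t, 0 ≤ p t) :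
    (dens p).real univ = (2 * π)⁻¹ * ∫ t in (0:ℝ)..(2 * π), p t := by
  have hi : Integrable (fun t => (2 * π)⁻¹ * p t) (volume.restrict (Ioc 0 (2 * π))) :=
    ((hp.intervalIntegrable 0 (2 * π)).1).const_mul _
  have h0 : 0 ≤ ∫ t in Ioc 0 (2 * π), (2 * π)⁻¹ * p t :=
    integral_nonneg fun t => mul_nonneg (by positivity) (hp0 t)
  rw [Measure.real, dens, withDensity_apply _ MeasurableSet.univ, Measure.restrict_univ,
    ← ofReal_integral_eq_lintegral_ofReal hi
      (ae_of_all _ fun t => mul_nonneg (by positivity) (hp0 t)), ENNReal.toReal_ofReal h0,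
    integral_const_mul, ← intervalIntegral.integral_of_le (by positivity)]

/-- The signed version of the representation. -/
theorem exists_measures {H : ℂ → ℂ} (hH : DifferentiableOn ℂ H (ball 0 1)) (H0 : H 0 = 0)
    (H1 : deriv H 0 = 0) {s : ℝ} (hs0 : 0 < s) (hs1 : s < 1) {V : ℝ}
    (hV : (2 * π)⁻¹ * ∫ t in (0:ℝ)..(2 * π),
      |(1 - circleMap 0 s t * deriv H (circleMap 0 s t)).re| ≤ V) :
    ∃ μ ν : Measure ℝ, IsFiniteMeasure μ ∧ IsFiniteMeasure ν ∧ ∫ θ, e θ ∂μ = ∫ θ, e θ ∂ν ∧
      μ.real univ + ν.real univ ≤ V ∧ ∀ w : ℂ, ‖w‖ < 1 → K μ w - K ν w = H (s * w) := by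
  set p : ℝ → ℝ := fun t => (1 - circleMap 0 s t * deriv H (circleMap 0 s t)).re with hp
  have hcm : ∀ t, ‖circleMap 0 s t‖ = s := fun t => by
    have := circleMap_mem_sphere (0:ℂ) hs0.le t
    simpa using this
  have hcm1 : ∀ t, ‖circleMap 0 s t‖ < 1 := fun t => by rw [hcm t]; exact hs1
  have hpc : Continuous p := by
    have h1 : Continuous fun t => deriv H (circleMap 0 s t) :=
      (dH hH).continuousOn.comp_continuous (continuous_circleMap 0 s)
        (fun t => by simpa using hcm1 t)
    have h2 := continuous_circleMap 0 s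
    simp only [hp]
    fun_prop
  set p1 : ℝ → ℝ := fun t => max (p t) 0 with hp1
  set p2 : ℝ → ℝ := fun t => max (-p t) 0 with hp2
  have hp1c : Continuous p1 := by simp only [hp1]; fun_prop
  have hp2c : Continuous p2 := by simp only [hp2]; fun_prop
  have hp10 : ∀ t, 0 ≤ p1 t := fun t => le_max_right _ _
  have hp20 : ∀ t, 0 ≤ p2 t := fun t => le_max_right _ _
  have hsub : ∀ t, p1 t - p2 t = p t := by
    intro t
    simp only [hp1, hp2]
    rcases le_total 0 (p t) with h | h
    · rw [max_eq_left h, max_eq_right (by linarith)]; ring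
    · rw [max_eq_right h, max_eq_left (by linarith)]; ring
  have hadd : ∀ t, p1 t + p2 t = |p t| := by
    intro t
    simp only [hp1, hp2]
    rcases le_total 0 (p t) with h | h
    · rw [max_eq_left h, max_eq_right (by linarith), abs_of_nonneg h]; ring
    · rw [max_eq_right h, max_eq_left (by linarith), abs_of_nonpos h]; ring
  -- difference of the two integrals
  have hdiff : ∀ g : ℝ → ℂ, Continuous g →
      (∫ t, g t ∂(dens p1)) - (∫ t, g t ∂(dens p2)) =
        ((2 * π)⁻¹ : ℝ) • ∫ t in (0:ℝ)..(2 * π), ((p t : ℝ) : ℂ) * g t := by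
    intro g hg
    rw [int_dens hp1c hp10, int_dens hp2c hp20, ← smul_sub,
      ← intervalIntegral.integral_sub]
    · congr 1
      apply intervalIntegral.integral_congr
      intro t _
      simp only []
      rw [← hsub t]; push_cast; ring
    · exact (Continuous.mul (Complex.continuous_ofReal.comp hp1c) hg).intervalIntegrable _ _
    · exact (Continuous.mul (Complex.continuous_ofReal.comp hp2c) hg).intervalIntegrable _ _
  have f1 := dens_finite hp1c
  have f2 := dens_finite hp2c
  have hneg : AEMeasurable (Neg.neg : ℝ → ℝ) (dens p1) := measurable_neg.aemeasurable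
  have hneg2 : AEMeasurable (Neg.neg : ℝ → ℝ) (dens p2) := measurable_neg.aemeasurable
  refine ⟨(dens p1).map Neg.neg, (dens p2).map Neg.neg, inferInstance, inferInstance, ?_, ?_, ?_⟩
  · rw [← sub_eq_zero, integral_map hneg cont_e.aestronglyMeasurable,
      integral_map hneg2 cont_e.aestronglyMeasurable,
      hdiff (fun t => e (-t)) (cont_e.comp continuous_neg)]
    have h1 := mean_zero hs0 hs1 hH H1
    rw [Real.circleAverage_def] at h1
    have h2 : ∀ t : ℝ, ((p t : ℝ) : ℂ) * e (-t) = (1 / (2 * s) : ℂ) *
        (((2 * (1 - circleMap 0 s t * deriv H (circleMap 0 s t)).re : ℝ) : ℂ) *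
          conj (circleMap 0 s t)) := by
      intro t
      have h3 : conj (circleMap 0 s t) = s * e (-t) := by
        rw [circleMap_zero]
        simp [e, ← Complex.exp_conj]
      rw [h3]
      simp only [hp]
      have : (s:ℂ) ≠ 0 := by exact_mod_cast hs0.ne'
      push_cast
      field_simp
    simp_rw [h2]
    rw [intervalIntegral.integral_const_mul, ← mul_smul_comm, h1, mul_zero]
  · have m1 : ((dens p1).map Neg.neg).real univ = (dens p1).real univ := by
      rw [Measure.real, Measure.map_apply measurable_neg MeasurableSet.univ, preimage_univ]; rfl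
    have m2 : ((dens p2).map Neg.neg).real univ = (dens p2).real univ := by
      rw [Measure.real, Measure.map_apply measurable_neg MeasurableSet.univ, preimage_univ]; rfl
    rw [m1, m2, dens_real hp1c hp10, dens_real hp2c hp20, ← mul_add,
      ← intervalIntegral.integral_add (hp1c.intervalIntegrable _ _) (hp2c.intervalIntegrable _ _)]
    simp_rw [hadd]
    exact hV
  · intro w hw
    have hsw : ‖(s * w : ℂ)‖ < s := by
      rw [norm_mul, Complex.norm_real, Real.norm_eq_abs, abs_of_pos hs0]
      nlinarith
    have h1 := main_id hs0 hs1 hH H0 hsw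
    rw [Real.circleAverage_def] at h1
    rw [← h1, K, K, integral_map hneg (clog_cont hw).aestronglyMeasurable,
      integral_map hneg2 (clog_cont hw).aestronglyMeasurable, ← mul_sub,
      hdiff (fun t => Complex.log (1 - w * e (-t))) ((clog_cont hw).comp continuous_neg)]
    have h2 : ∀ t : ℝ, ((2 * (1 - circleMap 0 s t * deriv H (circleMap 0 s t)).re : ℝ) : ℂ) *
        Complex.log (1 - (s * w) / circleMap 0 s t) =
        2 * (((p t : ℝ) : ℂ) * Complex.log (1 - w * e (-t))) := by
      intro t
      have h3 : (s * w) / circleMap 0 s t = w * e (-t) := by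
        rw [circleMap_zero]
        have hs : (s:ℂ) ≠ 0 := by exact_mod_cast hs0.ne'
        simp only [e]
        push_cast
        rw [neg_mul, Complex.exp_neg]
        have := Complex.exp_ne_zero (t * Complex.I)
        field_simp
      rw [h3]
      simp only [hp]
      push_cast; ring
    simp_rw [h2]
    rw [intervalIntegral.integral_const_mul]
    simp only [Complex.real_smul]
    ring

end Marsh96
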